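import Pool.Agent.V5helper78.KO.Cor
import Pool.Agent.N234.KM.Vgw

/-!
# Functions of the gauge of an isotropic body
-/

set_option autoImplicit false

namespace Pool.Agent.V5helper78.KO

open MeasureTheory Set Filter Topology Metric
open scoped ENNReal InnerProductSpace
open Pool.Agent.R751.MB (Eu EW VW Adm LCn AP)
open Pool.Agent.N483.KM (PS)

theorem adm_low {n : ℕ} {Φ : Ek n → ℝ} (hcont : Continuous Φ) {s : ℝ} (hs : 0 < s) (A : ℝ)
    (hlin : ∀ x, s * ‖x‖ - A ≤ Φ x) : Adm fun x : Ek n => Real.exp (-Φ x) := by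
  have h1 := Pool.Agent.N234.KM.adm_of_low (n := n) (Φ := fun x => Φ (s⁻¹ • x))
    (hcont.comp (continuous_const_smul _)) A (fun x => by
      have h2 := hlin (s⁻¹ • x)
      rw [norm_smul, Real.norm_of_nonneg (inv_nonneg.2 hs.le), ← mul_assoc,
        mul_inv_cancel₀ hs.ne', one_mul] at h2
      exact h2)
  have h3 := h1.int.comp_smul hs.ne'
  have h4 : Integrable fun x : Ek n => (1 + (s * ‖x‖) ^ 2) * Real.exp (-Φ x) := by
    refine h3.congr (Eventually.of_forall fun x => ?_)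
    simp only
    rw [norm_smul, Real.norm_of_nonneg hs.le, smul_smul, inv_mul_cancel₀ hs.ne', one_smul]
  have hint : Integrable fun x : Ek n => (1 + ‖x‖ ^ 2) * Real.exp (-Φ x) := by
    refine Integrable.mono' (h4.const_mul (1 + 1 / s ^ 2))
      (by fun_prop : Continuous fun x : Ek n =>
        (1 + ‖x‖ ^ 2) * Real.exp (-Φ x)).aestronglyMeasurable (Eventually.of_forall fun x => ?_)
    rw [Real.norm_of_nonneg (by positivity), ← mul_assoc]
    refine mul_le_mul_of_nonneg_right ?_ (Real.exp_pos _).le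
    have e1 : (1 + 1 / s ^ 2) * (1 + (s * ‖x‖) ^ 2) = 1 + ‖x‖ ^ 2 + (1 / s ^ 2 + s ^ 2 * ‖x‖ ^ 2) := by
      field_simp
      ring
    rw [e1]
    have : 0 ≤ 1 / s ^ 2 + s ^ 2 * ‖x‖ ^ 2 := by positivity
    linarith
  have hint1 : Integrable fun x : Ek n => Real.exp (-Φ x) := by
    refine Integrable.mono' hint
      (by fun_prop : Continuous fun x : Ek n => Real.exp (-Φ x)).aestronglyMeasurable
      (Eventually.of_forall fun x => ?_)
    rw [Real.norm_eq_abs, abs_of_pos (Real.exp_pos _)]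
    nlinarith [sq_nonneg ‖x‖, Real.exp_pos (-Φ x)]
  exact ⟨fun x => (Real.exp_pos _).le, hint, integral_exp_pos hint1,
    (Real.continuous_exp.comp hcont.neg).measurable⟩

section

variable {k : ℕ} {K : Set (Ek k)} {c₀ : ℝ} {ψ : ℝ → ℝ} {m : ℝ}

theorem gauge_adm (hk : 1 ≤ k) (hK : Iso c₀ K) (hs : Scl k ψ m) :
    Adm fun x : Ek k => Real.exp (-ψ (gauge K x)) := by
  have hm := hs.pos
  have hk0 : (0 : ℝ) < k := by exact_mod_cast hk
  obtain ⟨R, hR, hKR⟩ := hK.comp.isBounded.subset_closedBall_lt 0 0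
  have hab : Absorbent ℝ K := absorbent_nhds_zero (mem_interior_iff_mem_nhds.1 hK.zero)
  refine adm_low (hs.cont.comp (gauge_cont hK.conv hK.zero)) (s := k / m / R) (by positivity)
    (k - ψ 0) fun x => ?_
  have h1 : ‖x‖ / R ≤ gauge K x := le_gauge_of_subset_closedBall hab hR.le hKR
  have h2 := hs.low (gauge_nonneg (s := K) x)
  have h3 : k / m * (‖x‖ / R) ≤ k / m * gauge K x :=
    mul_le_mul_of_nonneg_left h1 (by positivity)
  have e1 : k / m / R * ‖x‖ = k / m * (‖x‖ / R) := by ring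
  have e2 : k / m * (gauge K x - m) = k / m * gauge K x - k := by
    field_simp
  rw [e2] at h2
  rw [e1]
  linarith

theorem int_of_adm {w : Ek k → ℝ} (hadm : Adm w) : Integrable w := by
  refine Integrable.mono' hadm.int hadm.meas.aestronglyMeasurable
    (Eventually.of_forall fun x => ?_)
  have h0 := hadm.nonneg x
  rw [Real.norm_of_nonneg h0]
  nlinarith [mul_nonneg (sq_nonneg ‖x‖) h0]

theorem rad_fin (hk : 1 ≤ k) (hK : Iso c₀ K) (hs : Scl k ψ m) :
    ∫⁻ r, ENNReal.ofReal (Real.exp (-ψ r)) ∂(rad k) ≠ ⊤ := by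
  obtain ⟨P, θ, h⟩ := exists_polar hk hK.comp hK.conv hK.zero
  have hprob := h.prob
  have hadm := gauge_adm hk hK hs
  have h1 := int_of_adm hadm
  have h2 : ∫⁻ x : Ek k, ENNReal.ofReal (Real.exp (-ψ (gauge K x))) ≠ ⊤ := by
    rw [← ofReal_integral_eq_lintegral_ofReal h1
      (Eventually.of_forall fun x => (Real.exp_pos _).le)]
    exact ENNReal.ofReal_ne_top
  have h3 := pol_swap h (gauge_cont hK.conv hK.zero) (G := fun _ => 1) measurable_const
    (W := fun r => ENNReal.ofReal (Real.exp (-ψ r)))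
    (by have := hs.cont.measurable; fun_prop)
  simp only [one_mul, lintegral_one, measure_univ] at h3
  rw [h3] at h2
  intro h4
  rw [h4, ENNReal.mul_top (vol_pos' hK)] at h2
  exact h2 rfl

end

theorem gauge_PS : ∃ A : ℝ, 0 < A ∧ ∀ (c₀ : ℝ), 0 ≤ c₀ → ∀ (k : ℕ) (K : Set (Ek k)) (ψ : ℝ → ℝ)
    (m : ℝ), 1 ≤ k → Iso c₀ K → Scl k ψ m →
    PS ((51 * c₀ + A) * m ^ 2) (fun x : Ek k => Real.exp (-ψ (gauge K x))) := by
  obtain ⟨A, hA, H⟩ := main_lint
  refine ⟨A, hA, fun c₀ hc₀ k K ψ m hk hK hs => ?_⟩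
  have hadm := gauge_adm hk hK hs
  have hm := hs.pos
  refine ⟨hadm, fun f hf hB hL => ?_⟩
  obtain ⟨B, hB⟩ := hB
  obtain ⟨L, hL⟩ := hL
  obtain ⟨P, θ, h⟩ := exists_polar hk hK.comp hK.conv hK.zero
  have hprob := h.prob
  obtain ⟨c, hc⟩ := H c₀ hc₀ k K _ P θ ψ m hk h hK hs (rad_fin hk hK hs) f B L hf hB hL
  set w : Ek k → ℝ := fun x => Real.exp (-ψ (gauge K x)) with hw
  have hN := gauge_cont hK.conv hK.zero
  have hfm := hf.continuous.measurable
  have hfd : Continuous (fderiv ℝ f) := hf.continuous_fderiv one_ne_zero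
  have hnf : Measurable fun x => ‖fderiv ℝ f x‖ := hfd.norm.measurable
  have hWm : Measurable fun r => ENNReal.ofReal (Real.exp (-ψ r)) := by
    have := hs.cont.measurable
    fun_prop
  have h1 : ∫⁻ x, ENNReal.ofReal ((f x - c) ^ 2 * w x) ≤
      ENNReal.ofReal ((51 * c₀ + A) * m ^ 2) *
        ∫⁻ x, ENNReal.ofReal (‖fderiv ℝ f x‖ ^ 2 * w x) := by
    have e1 : ∀ g : Ek k → ℝ, (∀ x, 0 ≤ g x) → ∀ x, ENNReal.ofReal (g x * w x) =
        ENNReal.ofReal (g x) * (fun r => ENNReal.ofReal (Real.exp (-ψ r))) (gauge K x) :=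
      fun g hg x => ENNReal.ofReal_mul (hg x)
    simp only [e1 (fun x => (f x - c) ^ 2) (fun x => sq_nonneg _),
      e1 (fun x => ‖fderiv ℝ f x‖ ^ 2) (fun x => sq_nonneg _)]
    have e2 := pol_swap h hN (G := fun x => ENNReal.ofReal ((f x - c) ^ 2)) (by fun_prop) hWm
    have e3 := pol_swap h hN (G := fun x => ENNReal.ofReal (‖fderiv ℝ f x‖ ^ 2))
      (by fun_prop) hWm
    rw [e2, e3, mul_left_comm]
    exact mul_le_mul_right hc _
  have hi0 := int_of_adm hadm
  have hi1 : Integrable fun x => f x * w x :=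
    Pool.Agent.N273.KM.CPAx.int_bdd hadm hf.continuous hB
  have hi2 : Integrable fun x => f x ^ 2 * w x :=
    Pool.Agent.N273.KM.CPAx.int_bdd hadm (hf.continuous.pow 2) (B := B ^ 2) fun x => by
      rw [abs_pow]; exact pow_le_pow_left₀ (abs_nonneg _) (hB _) 2
  have hi3 : Integrable fun x => ‖fderiv ℝ f x‖ ^ 2 * w x :=
    Pool.Agent.N273.KM.CPAx.int_bdd hadm (hfd.norm.pow 2) (B := L ^ 2) fun x => by
      rw [abs_pow, abs_norm]; exact pow_le_pow_left₀ (norm_nonneg _) (hL _) 2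
  have e1 : (fun x => (f x - c) ^ 2 * w x) = fun x =>
      (f x ^ 2 * w x - 2 * c * (f x * w x)) + c ^ 2 * w x := by
    funext x; ring
  have hi4 : Integrable fun x => f x ^ 2 * w x - 2 * c * (f x * w x) := hi2.sub (hi1.const_mul _)
  have hic : Integrable fun x => (f x - c) ^ 2 * w x := by
    rw [e1]
    exact hi4.add (hi0.const_mul _)
  rw [← ofReal_integral_eq_lintegral_ofReal hic
      (Eventually.of_forall fun y => mul_nonneg (sq_nonneg _) (hadm.nonneg y)),
    ← ofReal_integral_eq_lintegral_ofReal hi3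
      (Eventually.of_forall fun y => mul_nonneg (sq_nonneg _) (hadm.nonneg y)),
    ← ENNReal.ofReal_mul (by positivity)] at h1
  have hpos3 : 0 ≤ ∫ x, ‖fderiv ℝ f x‖ ^ 2 * w x :=
    integral_nonneg fun y => mul_nonneg (sq_nonneg _) (hadm.nonneg y)
  have h2 := (ENNReal.ofReal_le_ofReal_iff (by positivity)).1 h1
  have hZ := hadm.pos
  rw [e1, integral_add hi4 (hi0.const_mul _), integral_sub hi2 (hi1.const_mul _),
      integral_const_mul, integral_const_mul] at h2
  unfold VW EW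
  set Z := ∫ x, w x with hZd
  set I1 := ∫ x, f x * w x with hI1
  set I2 := ∫ x, f x ^ 2 * w x with hI2
  set I3 := ∫ x, ‖fderiv ℝ f x‖ ^ 2 * w x with hI3
  have h3 : I2 / Z - (I1 / Z) ^ 2 ≤ (I2 - 2 * c * I1 + c ^ 2 * Z) / Z := by
    have e2 : (I2 - 2 * c * I1 + c ^ 2 * Z) / Z = I2 / Z - (I1 / Z) ^ 2 + (I1 / Z - c) ^ 2 := by
      field_simp
      ring
    rw [e2]
    nlinarith [sq_nonneg (I1 / Z - c)]
  refine h3.trans ?_
  rw [mul_div_assoc', div_le_div_iff_of_pos_right hZ]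
  exact h2

end Pool.Agent.V5helper78.KO
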