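import Pool.Agent.V5helper78.KO.Lay

/-!
# The inequality on dilates of the body, in polar coordinates
-/

set_option autoImplicit false

namespace Pool.Agent.V5helper78.KO

open MeasureTheory Set Filter Topology Metric
open scoped ENNReal InnerProductSpace

/-- bodies in isotropic position with the Poincaré inequality -/
structure Iso (c₀ : ℝ) {k : ℕ} (K : Set (Ek k)) : Prop where
  comp : IsCompact K
  conv : Convex ℝ K
  zero : (0 : Ek k) ∈ interior K
  mean : ∀ θ : Ek k, ∫ x in K, ⟪x, θ⟫_ℝ = 0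
  cov : ∀ θ : Ek k, ∫ x in K, ⟪x, θ⟫_ℝ ^ 2 = volume.real K * ‖θ‖ ^ 2
  poi : ∀ f : Ek k → ℝ, ContDiff ℝ 1 f → ∃ c : ℝ, ∫ x in K, (f x - c) ^ 2 ≤
    c₀ * ∫ x in K, ‖fderiv ℝ f x‖ ^ 2

theorem split {Ω : Type} [MeasurableSpace Ω] {P : Measure Ω} [IsProbabilityMeasure P]
    {u : Ω → ℝ} (hu : Measurable u) {B : ℝ} (hB : ∀ ω, |u ω| ≤ B) (c : ℝ) :
    ∫⁻ ω, ENNReal.ofReal ((u ω - c) ^ 2) ∂P =
      ∫⁻ ω, ENNReal.ofReal ((u ω - ∫ ω, u ω ∂P) ^ 2) ∂P +
        ENNReal.ofReal (((∫ ω, u ω ∂P) - c) ^ 2) := by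
  have hi : Integrable u P := Integrable.of_bound hu.aestronglyMeasurable B
    (Eventually.of_forall fun ω => by rw [Real.norm_eq_abs]; exact hB ω)
  have hi2 : Integrable (fun ω => u ω ^ 2) P := Integrable.of_bound (by fun_prop) (B ^ 2)
    (Eventually.of_forall fun ω => by
      rw [Real.norm_eq_abs, abs_pow]; exact pow_le_pow_left₀ (abs_nonneg _) (hB ω) 2)
  have hq : ∀ d : ℝ, Integrable (fun ω => (u ω - d) ^ 2) P := by
    intro d
    have h1 : (fun ω => (u ω - d) ^ 2) = fun ω => u ω ^ 2 - 2 * d * u ω + d ^ 2 := by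
      funext ω; ring
    rw [h1]
    exact (hi2.sub (hi.const_mul _)).add (integrable_const _)
  have hv : ∀ d : ℝ, ∫ ω, (u ω - d) ^ 2 ∂P = ∫ ω, u ω ^ 2 ∂P - 2 * d * ∫ ω, u ω ∂P + d ^ 2 := by
    intro d
    have h1 : (fun ω => (u ω - d) ^ 2) = fun ω => u ω ^ 2 - 2 * d * u ω + d ^ 2 := by
      funext ω; ring
    have h2 : Integrable (fun ω => u ω ^ 2 - 2 * d * u ω) P := hi2.sub (hi.const_mul _)
    rw [h1, integral_add h2 (integrable_const _),
      integral_sub hi2 (hi.const_mul _), integral_const_mul]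
    simp
  rw [← ofReal_integral_eq_lintegral_ofReal (hq _) (Eventually.of_forall fun ω => sq_nonneg _),
    ← ofReal_integral_eq_lintegral_ofReal (hq _) (Eventually.of_forall fun ω => sq_nonneg _),
    ← ENNReal.ofReal_add (integral_nonneg fun ω => sq_nonneg _) (sq_nonneg _)]
  congr 1
  rw [hv, hv]
  ring

section

variable {k : ℕ} {K : Set (Ek k)} {Ω : Type} [MeasurableSpace Ω] {P : Measure Ω} {θ : Ω → Ek k}

theorem pol_swap (h : Plr k K P θ) (hN : Continuous (gauge K)) {G : Ek k → ℝ≥0∞}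
    (hG : Measurable G) {W : ℝ → ℝ≥0∞} (hW : Measurable W) :
    ∫⁻ x, G x * W (gauge K x) =
      volume K * ∫⁻ r, (∫⁻ ω, G (r • θ ω) ∂P) * W r ∂(rad k) := by
  have := h.prob
  have hm := h.meas
  rw [h.lint (fun x => G x * W (gauge K x)) (hG.mul (hW.comp hN.measurable))]
  congr 1
  have h1 : ∀ ω, ∫⁻ r, G (r • θ ω) * W (gauge K (r • θ ω)) ∂(rad k) =
      ∫⁻ r, G (r • θ ω) * W r ∂(rad k) := by
    intro ω
    refine lintegral_congr_ae ?_
    filter_upwards [rad_ae_pos k] with r hr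
    rw [gauge_smul_of_nonneg hr.le, h.one, smul_eq_mul, mul_one]
  simp only [h1]
  rw [lintegral_lintegral_swap]
  · refine lintegral_congr fun r => ?_
    rw [lintegral_mul_const _ (by fun_prop)]
  · exact Measurable.aemeasurable (by
      simp only [Function.uncurry_def]
      fun_prop)

theorem pol_K (h : Plr k K P θ) (hKc : IsCompact K) (hKv : Convex ℝ K)
    (h0 : (0 : Ek k) ∈ interior K) {G : Ek k → ℝ≥0∞} (hG : Measurable G) :
    ∫⁻ x in K, G x = volume K * ∫⁻ r in Ioc 0 1, (∫⁻ ω, G (r • θ ω) ∂P) ∂(rad k) := by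
  have h1 : ∀ x, K.indicator G x = G x * (Iic (1 : ℝ)).indicator 1 (gauge K x) := by
    intro x
    have := gauge_le_one hKc hKv h0 x
    by_cases hx : x ∈ K
    · rw [indicator_of_mem hx, indicator_of_mem (show gauge K x ∈ Iic (1 : ℝ) from this.2 hx)]
      simp
    · rw [indicator_of_notMem hx,
        indicator_of_notMem (fun hh : gauge K x ∈ Iic (1 : ℝ) => hx (this.1 hh))]
      simp
  rw [← lintegral_indicator hKc.measurableSet]
  simp only [h1]
  rw [pol_swap h (gauge_cont hKv h0) hG (measurable_one.indicator measurableSet_Iic)]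
  congr 1
  rw [← lintegral_indicator measurableSet_Ioc]
  refine lintegral_congr_ae ?_
  filter_upwards [rad_ae_pos k] with r hr
  simp only [indicator, mem_Iic, mem_Ioc, hr, true_and, Pi.one_apply]
  split_ifs <;> simp

/-- average over the boundary of `ρ K` -/
noncomputable def hh (P : Measure Ω) (θ : Ω → Ek k) (f : Ek k → ℝ) (ρ : ℝ) : ℝ :=
  ∫ ω, f (ρ • θ ω) ∂P

/-- variance over the boundary of `ρ K` -/
noncomputable def aa (P : Measure Ω) (θ : Ω → Ek k) (f : Ek k → ℝ) (ρ : ℝ) : ℝ≥0∞ :=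
  ∫⁻ ω, ENNReal.ofReal ((f (ρ • θ ω) - hh P θ f ρ) ^ 2) ∂P

/-- gradient over the boundary of `ρ K` -/
noncomputable def bb (P : Measure Ω) (θ : Ω → Ek k) (f : Ek k → ℝ) (ρ : ℝ) : ℝ≥0∞ :=
  ∫⁻ ω, ENNReal.ofReal (‖fderiv ℝ f (ρ • θ ω)‖ ^ 2) ∂P

theorem hh_meas (h : Plr k K P θ) {f : Ek k → ℝ} (hf : Continuous f) : Measurable (hh P θ f) := by
  have := h.prob
  have hm := h.meas
  have h1 : StronglyMeasurable fun p : ℝ × Ω => f (p.1 • θ p.2) := by
    refine Measurable.stronglyMeasurable ?_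
    have := hf.measurable
    fun_prop
  exact h1.integral_prod_right.measurable

theorem aa_meas (h : Plr k K P θ) {f : Ek k → ℝ} (hf : Continuous f) : Measurable (aa P θ f) := by
  have := h.prob
  have hm := h.meas
  have h2 := hh_meas h hf
  have h3 := hf.measurable
  exact Measurable.lintegral_prod_right' (f := fun p : ℝ × Ω =>
    ENNReal.ofReal ((f (p.1 • θ p.2) - hh P θ f p.1) ^ 2)) (by fun_prop)

theorem bb_meas (h : Plr k K P θ) {f : Ek k → ℝ} (hf : ContDiff ℝ 1 f) :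
    Measurable (bb P θ f) := by
  have := h.prob
  have hm := h.meas
  have h3 : Measurable fun x => ‖fderiv ℝ f x‖ :=
    (hf.continuous_fderiv one_ne_zero).norm.measurable
  exact Measurable.lintegral_prod_right' (f := fun p : ℝ × Ω =>
    ENNReal.ofReal (‖fderiv ℝ f (p.1 • θ p.2)‖ ^ 2)) (by fun_prop)

theorem aa_split (h : Plr k K P θ) {f : Ek k → ℝ} (hf : Continuous f) {B : ℝ}
    (hB : ∀ x, |f x| ≤ B) (ρ c : ℝ) : ∫⁻ ω, ENNReal.ofReal ((f (ρ • θ ω) - c) ^ 2) ∂P =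
      aa P θ f ρ + ENNReal.ofReal ((hh P θ f ρ - c) ^ 2) := by
  have := h.prob
  have hm := h.meas
  have h3 := hf.measurable
  exact split (P := P) (u := fun ω => f (ρ • θ ω)) (by fun_prop) (fun ω => hB _) c

theorem ball_ineq (h : Plr k K P θ) (hk : 1 ≤ k) {c₀ : ℝ} (hc₀ : 0 ≤ c₀) (hK : Iso c₀ K)
    {f : Ek k → ℝ} (hf : ContDiff ℝ 1 f) {B : ℝ} (hB : ∀ x, |f x| ≤ B) {r : ℝ} (hr : 0 < r) :
    ∫⁻ s in Ioc 0 r, aa P θ f s ∂(rad k) ≤
      ENNReal.ofReal (c₀ * r ^ 2) * ∫⁻ s in Ioc 0 r, bb P θ f s ∂(rad k) := by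
  have hprob := h.prob
  have hm := h.meas
  have hfm := hf.continuous.measurable
  have hV0 : volume K ≠ 0 := by
    refine (lt_of_lt_of_le ?_ (measure_mono interior_subset)).ne'
    exact isOpen_interior.measure_pos volume ⟨0, hK.zero⟩
  have hVt : volume K ≠ ⊤ := hK.comp.measure_lt_top.ne
  have hF : ContDiff ℝ 1 fun x => f (r • x) := hf.comp (contDiff_const_smul r)
  obtain ⟨c, hc⟩ := hK.poi _ hF
  have hfd : ∀ x, ‖fderiv ℝ (fun x => f (r • x)) x‖ ^ 2 = r ^ 2 * ‖fderiv ℝ f (r • x)‖ ^ 2 := by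
    intro x
    have h1 : fderiv ℝ (fun x => f (r • x)) x = r • fderiv ℝ f (r • x) := by
      have h2 := fderiv_comp_smul (𝕜 := ℝ) (f := f) (x := x) r
      exact h2
    rw [h1, norm_smul, mul_pow, Real.norm_eq_abs, sq_abs]
  simp only [hfd] at hc
  rw [integral_const_mul, ← mul_assoc] at hc
  have hdc : Continuous fun x : Ek k => ‖fderiv ℝ f (r • x)‖ ^ 2 :=
    ((hf.continuous_fderiv one_ne_zero).comp (continuous_const_smul r)).norm.pow 2
  have hi1 : IntegrableOn (fun x => (f (r • x) - c) ^ 2) K :=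
    (by have := hf.continuous; fun_prop : Continuous fun x => (f (r • x) - c) ^ 2).continuousOn.integrableOn_compact
      hK.comp
  have hi2 : IntegrableOn (fun x => ‖fderiv ℝ f (r • x)‖ ^ 2) K :=
    hdc.continuousOn.integrableOn_compact hK.comp
  have h1 := ENNReal.ofReal_le_ofReal hc
  rw [ENNReal.ofReal_mul (by positivity),
    ofReal_integral_eq_lintegral_ofReal hi1 (Eventually.of_forall fun ω => sq_nonneg _),
    ofReal_integral_eq_lintegral_ofReal hi2 (Eventually.of_forall fun ω => sq_nonneg _),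
    pol_K h hK.comp hK.conv hK.zero (by fun_prop),
    pol_K h hK.comp hK.conv hK.zero (by have := hdc.measurable; fun_prop)] at h1
  have h2 : ∫⁻ s in Ioc 0 1, (∫⁻ ω, ENNReal.ofReal ((f (r • s • θ ω) - c) ^ 2) ∂P) ∂(rad k) ≤
      ENNReal.ofReal (c₀ * r ^ 2) *
        ∫⁻ s in Ioc 0 1, (∫⁻ ω, ENNReal.ofReal (‖fderiv ℝ f (r • s • θ ω)‖ ^ 2) ∂P) ∂(rad k) := by
    rw [mul_left_comm] at h1
    exact (ENNReal.mul_le_mul_iff_right hV0 hVt).1 h1
  rw [rad_scale k hk hr _ (aa_meas h hf.continuous), rad_scale k hk hr _ (bb_meas h hf),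
    mul_left_comm]
  have h3 : ∫⁻ s in Ioc 0 1, bb P θ f (r * s) ∂(rad k) =
      ∫⁻ s in Ioc 0 1, (∫⁻ ω, ENNReal.ofReal (‖fderiv ℝ f (r • s • θ ω)‖ ^ 2) ∂P) ∂(rad k) := by
    refine lintegral_congr fun s => ?_
    simp only [smul_smul]
    rfl
  rw [h3]
  refine mul_le_mul_right (le_trans ?_ h2) _
  refine lintegral_mono fun s => ?_
  simp only [smul_smul]
  rw [aa_split h hf.continuous hB]
  exact le_self_add

/-- the angular part for antitone weights -/
theorem angular (h : Plr k K P θ) (hk : 1 ≤ k) {c₀ : ℝ} (hc₀ : 0 ≤ c₀) (hK : Iso c₀ K)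
    {f : Ek k → ℝ} (hf : ContDiff ℝ 1 f) {B : ℝ} (hB : ∀ x, |f x| ≤ B) {R : ℝ} {g : ℝ → ℝ}
    (hg : Measurable g) (hanti : ∀ r s, 0 < r → r ≤ s → g s ≤ g r)
    (hsupp : ∀ r, R < r → g r ≤ 0) :
    ∫⁻ s, aa P θ f s * ENNReal.ofReal (g s) ∂(rad k) ≤
      ENNReal.ofReal (c₀ * R ^ 2) * ∫⁻ s, bb P θ f s * ENNReal.ofReal (g s) ∂(rad k) := by
  refine layer (aa_meas h hf.continuous) (bb_meas h hf) ENNReal.ofReal_ne_top ?_ hg hanti hsupp
  intro r hr hrR
  refine (ball_ineq h hk hc₀ hK hf hB hr).trans ?_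
  refine mul_le_mul_left (ENNReal.ofReal_le_ofReal ?_) _
  gcongr

end

end Pool.Agent.V5helper78.KO
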