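import Pool.Agent.V5helper78.KO.Mom

/-!
# The averages over the boundaries of the dilates
-/

set_option autoImplicit false

namespace Pool.Agent.V5helper78.KO

open MeasureTheory Set Filter Topology Metric
open scoped ENNReal InnerProductSpace

theorem cs_prob {Ω : Type} [MeasurableSpace Ω] {P : Measure Ω} [IsProbabilityMeasure P]
    {u v : Ω → ℝ} (hu : Measurable u) (hv : Measurable v) {B C : ℝ} (hB : ∀ ω, |u ω| ≤ B)
    (hC : ∀ ω, |v ω| ≤ C) (hp : 0 < ∫ ω, v ω ^ 2 ∂P) :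
    (∫ ω, u ω * v ω ∂P) ^ 2 ≤ (∫ ω, v ω ^ 2 ∂P) * ∫ ω, u ω ^ 2 ∂P := by
  have i1 : Integrable (fun ω => u ω * v ω) P := Integrable.of_bound (by fun_prop) (B * C)
    (Eventually.of_forall fun ω => by
      rw [norm_mul, Real.norm_eq_abs, Real.norm_eq_abs]
      exact mul_le_mul (hB ω) (hC ω) (abs_nonneg _) ((abs_nonneg _).trans (hB ω)))
  have i2 : Integrable (fun ω => u ω ^ 2) P := Integrable.of_bound (by fun_prop) (B ^ 2)
    (Eventually.of_forall fun ω => by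
      rw [Real.norm_eq_abs, abs_pow]; exact pow_le_pow_left₀ (abs_nonneg _) (hB ω) 2)
  have i3 : Integrable (fun ω => v ω ^ 2) P := Integrable.of_bound (by fun_prop) (C ^ 2)
    (Eventually.of_forall fun ω => by
      rw [Real.norm_eq_abs, abs_pow]; exact pow_le_pow_left₀ (abs_nonneg _) (hC ω) 2)
  set s : ℝ := (∫ ω, u ω * v ω ∂P) / ∫ ω, v ω ^ 2 ∂P with hs
  have h1 : 0 ≤ ∫ ω, (u ω - s * v ω) ^ 2 ∂P := integral_nonneg fun ω => sq_nonneg _
  have e1 : (fun ω => (u ω - s * v ω) ^ 2) = fun ω =>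
      (u ω ^ 2 - 2 * s * (u ω * v ω)) + s ^ 2 * v ω ^ 2 := by
    funext ω; ring
  have i4 : Integrable (fun ω => u ω ^ 2 - 2 * s * (u ω * v ω)) P := i2.sub (i1.const_mul _)
  rw [e1, integral_add i4 (i3.const_mul _), integral_sub i2 (i1.const_mul _),
    integral_const_mul, integral_const_mul] at h1
  have h2 : ∫ ω, u ω * v ω ∂P = s * ∫ ω, v ω ^ 2 ∂P := by
    rw [hs]; field_simp
  rw [h2] at h1
  rw [h2]
  nlinarith

section

variable {k : ℕ} {K : Set (Ek k)} {Ω : Type} [MeasurableSpace Ω] {P : Measure Ω} {θ : Ω → Ek k}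

theorem theta_mem (h : Plr k K P θ) {c₀ : ℝ} (hK : Iso c₀ K) (ω : Ω) : θ ω ∈ K := by
  rw [← gauge_le_one hK.comp hK.conv hK.zero, h.one]

theorem theta_norm (h : Plr k K P θ) (hk : 1 ≤ k) {c₀ : ℝ} (hK : Iso c₀ K) (ω : Ω) :
    ‖θ ω‖ ^ 2 ≤ 3 * (k + 1) ^ 2 := iso_norm hk hK (theta_mem h hK ω)

theorem theta_norm' (h : Plr k K P θ) (hk : 1 ≤ k) {c₀ : ℝ} (hK : Iso c₀ K) (ω : Ω) :
    ‖θ ω‖ ≤ 2 * (k + 1) := by
  have h1 := theta_norm h hk hK ω
  refine abs_le_of_sq_le_sq' (by nlinarith) (by positivity) |>.2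

theorem hh_deriv (h : Plr k K P θ) (hk : 1 ≤ k) {c₀ : ℝ} (hK : Iso c₀ K) {f : Ek k → ℝ}
    (hf : ContDiff ℝ 1 f) {B L : ℝ} (hB : ∀ x, |f x| ≤ B) (hL : ∀ x, ‖fderiv ℝ f x‖ ≤ L)
    (ρ : ℝ) : HasDerivAt (hh P θ f) (∫ ω, fderiv ℝ f (ρ • θ ω) (θ ω) ∂P) ρ := by
  have hprob := h.prob
  have hm := h.meas
  have hfm := hf.continuous.measurable
  have hfd : Continuous (fderiv ℝ f) := hf.continuous_fderiv one_ne_zero
  have hL0 : 0 ≤ L := (norm_nonneg _).trans (hL 0)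
  refine (hasDerivAt_integral_of_dominated_loc_of_deriv_le (F := fun ρ ω => f (ρ • θ ω))
    (F' := fun ρ ω => fderiv ℝ f (ρ • θ ω) (θ ω)) (bound := fun _ => L * (2 * (k + 1)))
    (s := univ) univ_mem
    (Eventually.of_forall fun x => (by fun_prop : Measurable fun ω => f (x • θ ω)).aestronglyMeasurable)
    (Integrable.of_bound (by fun_prop : Measurable fun ω => f (ρ • θ ω)).aestronglyMeasurable B
      (Eventually.of_forall fun ω => by rw [Real.norm_eq_abs]; exact hB _)) ?_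
    (Eventually.of_forall fun ω x _ => ?_) (integrable_const _)
    (Eventually.of_forall fun ω x _ => ?_)).2
  · have h1 : Continuous fun p : Ek k × Ek k => fderiv ℝ f p.1 p.2 := by fun_prop
    exact (h1.measurable.comp (by fun_prop :
      Measurable fun ω => (ρ • θ ω, θ ω))).aestronglyMeasurable
  · refine (ContinuousLinearMap.le_opNorm _ _).trans ?_
    exact mul_le_mul (hL _) (theta_norm' h hk hK ω) (norm_nonneg _) hL0
  · have h1 : HasDerivAt (fun x : ℝ => x • θ ω) (θ ω) x := by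
      have := (hasDerivAt_id x).smul_const (θ ω)
      simpa using this
    exact (hf.differentiable one_ne_zero (x • θ ω)).hasFDerivAt.comp_hasDerivAt x h1

theorem hh_contDiff (h : Plr k K P θ) (hk : 1 ≤ k) {c₀ : ℝ} (hK : Iso c₀ K) {f : Ek k → ℝ}
    (hf : ContDiff ℝ 1 f) {B L : ℝ} (hB : ∀ x, |f x| ≤ B) (hL : ∀ x, ‖fderiv ℝ f x‖ ≤ L) :
    ContDiff ℝ 1 (hh P θ f) := by
  have hprob := h.prob
  have hm := h.meas
  have hfd : Continuous (fderiv ℝ f) := hf.continuous_fderiv one_ne_zero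
  have hL0 : 0 ≤ L := (norm_nonneg _).trans (hL 0)
  have hd := hh_deriv h hk hK hf hB hL
  have he : deriv (hh P θ f) = fun ρ => ∫ ω, fderiv ℝ f (ρ • θ ω) (θ ω) ∂P :=
    funext fun ρ => (hd ρ).deriv
  rw [contDiff_one_iff_deriv]
  refine ⟨fun ρ => (hd ρ).differentiableAt, ?_⟩
  rw [he]
  refine continuous_of_dominated (bound := fun _ => L * (2 * (k + 1))) (fun ρ => ?_)
    (fun ρ => Eventually.of_forall fun ω => ?_) (integrable_const _)
    (Eventually.of_forall fun ω => ?_)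
  · have h1 : Continuous fun p : Ek k × Ek k => fderiv ℝ f p.1 p.2 := by fun_prop
    exact (h1.measurable.comp (by fun_prop :
      Measurable fun ω => (ρ • θ ω, θ ω))).aestronglyMeasurable
  · refine (ContinuousLinearMap.le_opNorm _ _).trans ?_
    exact mul_le_mul (hL _) (theta_norm' h hk hK ω) (norm_nonneg _) hL0
  · fun_prop

theorem hh_bound (h : Plr k K P θ) {f : Ek k → ℝ} {B : ℝ} (hB : ∀ x, |f x| ≤ B) (ρ : ℝ) :
    |hh P θ f ρ| ≤ B := by
  have hprob := h.prob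
  have := norm_integral_le_of_norm_le_const (μ := P) (f := fun ω => f (ρ • θ ω)) (C := B)
    (Eventually.of_forall fun ω => by rw [Real.norm_eq_abs]; exact hB _)
  simpa [hh] using this

theorem hh_deriv_bound (h : Plr k K P θ) (hk : 1 ≤ k) {c₀ : ℝ} (hK : Iso c₀ K) {f : Ek k → ℝ}
    (hf : ContDiff ℝ 1 f) {B L : ℝ} (hB : ∀ x, |f x| ≤ B) (hL : ∀ x, ‖fderiv ℝ f x‖ ≤ L)
    (ρ : ℝ) : |deriv (hh P θ f) ρ| ≤ L * (2 * (k + 1)) := by
  have hprob := h.prob
  have hL0 : 0 ≤ L := (norm_nonneg _).trans (hL 0)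
  rw [(hh_deriv h hk hK hf hB hL ρ).deriv]
  have := norm_integral_le_of_norm_le_const (μ := P)
    (f := fun ω => fderiv ℝ f (ρ • θ ω) (θ ω)) (C := L * (2 * (k + 1)))
    (Eventually.of_forall fun ω => by
      refine (ContinuousLinearMap.le_opNorm _ _).trans ?_
      exact mul_le_mul (hL _) (theta_norm' h hk hK ω) (norm_nonneg _) hL0)
  simpa using this

theorem hh_deriv_sq (h : Plr k K P θ) (hk : 1 ≤ k) {c₀ : ℝ} (hK : Iso c₀ K) {f : Ek k → ℝ}
    (hf : ContDiff ℝ 1 f) {B L : ℝ} (hB : ∀ x, |f x| ≤ B) (hL : ∀ x, ‖fderiv ℝ f x‖ ≤ L)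
    (ρ : ℝ) : ENNReal.ofReal (deriv (hh P θ f) ρ ^ 2) ≤ ENNReal.ofReal (k + 2) * bb P θ f ρ := by
  have hprob := h.prob
  have hm := h.meas
  have hk0 : (0 : ℝ) < k := by exact_mod_cast hk
  have hfd : Continuous (fderiv ℝ f) := hf.continuous_fderiv one_ne_zero
  have hL0 : 0 ≤ L := (norm_nonneg _).trans (hL 0)
  have hnf : Measurable fun x => ‖fderiv ℝ f x‖ := hfd.norm.measurable
  have hu : Measurable fun ω => ‖fderiv ℝ f (ρ • θ ω)‖ := by fun_prop
  have hv : Measurable fun ω => ‖θ ω‖ := by fun_prop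
  have hBu : ∀ ω, |‖fderiv ℝ f (ρ • θ ω)‖| ≤ L := fun ω => by rw [abs_norm]; exact hL _
  have hCv : ∀ ω, |‖θ ω‖| ≤ 2 * (k + 1) := fun ω => by
    rw [abs_norm]; exact theta_norm' h hk hK ω
  have i2 : Integrable (fun ω => ‖fderiv ℝ f (ρ • θ ω)‖ ^ 2) P :=
    Integrable.of_bound (by fun_prop) (L ^ 2) (Eventually.of_forall fun ω => by
      rw [Real.norm_eq_abs, abs_pow]; exact pow_le_pow_left₀ (abs_nonneg _) (hBu ω) 2)
  have i3 : Integrable (fun ω => ‖θ ω‖ ^ 2) P :=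
    Integrable.of_bound (by fun_prop) ((2 * (k + 1)) ^ 2) (Eventually.of_forall fun ω => by
      rw [Real.norm_eq_abs, abs_pow]; exact pow_le_pow_left₀ (abs_nonneg _) (hCv ω) 2)
  have i1 : Integrable (fun ω => ‖fderiv ℝ f (ρ • θ ω)‖ * ‖θ ω‖) P :=
    Integrable.of_bound (by fun_prop) (L * (2 * (k + 1))) (Eventually.of_forall fun ω => by
      rw [norm_mul, norm_norm, norm_norm]
      exact mul_le_mul (hL _) (theta_norm' h hk hK ω) (norm_nonneg _) hL0)
  have hm3 : ∫ ω, ‖θ ω‖ ^ 2 ∂P = k + 2 := by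
    have h1 := mom3 h hk hK
    rw [← ofReal_integral_eq_lintegral_ofReal i3 (Eventually.of_forall fun ω => sq_nonneg _)] at h1
    exact (ENNReal.ofReal_eq_ofReal_iff (integral_nonneg fun ω => sq_nonneg _)
      (by positivity)).1 h1
  have hcs := cs_prob hu hv hBu hCv (by rw [hm3]; positivity)
  rw [hm3] at hcs
  unfold bb
  rw [← ofReal_integral_eq_lintegral_ofReal i2 (Eventually.of_forall fun ω => sq_nonneg _),
    ← ENNReal.ofReal_mul (by positivity)]
  refine ENNReal.ofReal_le_ofReal (le_trans ?_ hcs)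
  rw [(hh_deriv h hk hK hf hB hL ρ).deriv, ← sq_abs]
  refine pow_le_pow_left₀ (abs_nonneg _) ?_ 2
  rw [← Real.norm_eq_abs]
  refine (norm_integral_le_integral_norm _).trans ?_
  refine integral_mono_of_nonneg (Eventually.of_forall fun ω => norm_nonneg _) i1
    (Eventually.of_forall fun ω => ?_)
  exact ContinuousLinearMap.le_opNorm _ _

end

end Pool.Agent.V5helper78.KO
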