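import Pool.Agent.V5helper78.KO.Rdl

/-!
# The radial inequality
-/

set_option autoImplicit false

namespace Pool.Agent.V5helper78.KO

open MeasureTheory Set Filter Topology Metric
open scoped ENNReal InnerProductSpace
open Pool.Agent.R751.MB (Eu EW VW Adm LCn AP)
open Pool.Agent.N483.KM (PS)

theorem Heps_fderiv {k : ℕ} {h : ℝ → ℝ} (hh : ContDiff ℝ 1 h) {ε : ℝ} (hε : 0 < ε) (y : Ek k) :
    ‖fderiv ℝ (fun y : Ek k => h (√(‖y‖ ^ 2 + ε ^ 2))) y‖ ^ 2 ≤
      deriv h (√(‖y‖ ^ 2 + ε ^ 2)) ^ 2 := by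
  have hpos : 0 < ‖y‖ ^ 2 + ε ^ 2 := by positivity
  have hs : 0 < √(‖y‖ ^ 2 + ε ^ 2) := Real.sqrt_pos.2 hpos
  have h1 : HasFDerivAt (fun y : Ek k => ‖y‖ ^ 2 + ε ^ 2) (2 • innerSL ℝ y) y :=
    (hasStrictFDerivAt_norm_sq y).hasFDerivAt.add_const _
  have h2 := h1.sqrt hpos.ne'
  have h3 := ((hh.differentiable one_ne_zero (√(‖y‖ ^ 2 + ε ^ 2))).hasDerivAt).comp_hasFDerivAt y h2
  have h4 : fderiv ℝ (fun y : Ek k => h (√(‖y‖ ^ 2 + ε ^ 2))) y = _ := h3.fderiv
  rw [h4, norm_smul, norm_smul, mul_pow, Real.norm_eq_abs, sq_abs]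
  have h5 : ‖(2 • innerSL ℝ y : Ek k →L[ℝ] ℝ)‖ = 2 * ‖y‖ := by
    rw [← Nat.cast_smul_eq_nsmul ℝ, norm_smul, innerSL_apply_norm]
    norm_num
  rw [h5]
  have h6 : ‖y‖ ≤ √(‖y‖ ^ 2 + ε ^ 2) := by
    apply Real.le_sqrt_of_sq_le
    nlinarith [sq_nonneg ε]
  have h7 : ‖1 / (2 * √(‖y‖ ^ 2 + ε ^ 2))‖ * (2 * ‖y‖) ≤ 1 := by
    rw [Real.norm_of_nonneg (by positivity), one_div, ← div_eq_inv_mul, div_le_one (by positivity)]
    linarith
  have h8 : (‖1 / (2 * √(‖y‖ ^ 2 + ε ^ 2))‖ * (2 * ‖y‖)) ^ 2 ≤ 1 :=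
    pow_le_one₀ (by positivity) h7
  calc _ ≤ deriv h (√(‖y‖ ^ 2 + ε ^ 2)) ^ 2 * 1 := mul_le_mul_of_nonneg_left h8 (sq_nonneg _)
    _ = _ := mul_one _

theorem radial_PS {k : ℕ} {w : Ek k → ℝ} {P' : ℝ} (hP' : 0 ≤ P') (hw : PS P' w) {h : ℝ → ℝ}
    (hh : ContDiff ℝ 1 h) {B L : ℝ} (hB : ∀ x, |h x| ≤ B) (hL : ∀ x, |deriv h x| ≤ L) :
    VW w (fun y => h ‖y‖) ≤ P' * EW w fun y => deriv h ‖y‖ ^ 2 := by
  have hadm := hw.adm
  have hd : Continuous (deriv h) := hh.continuous_deriv le_rfl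
  have hhc := hh.continuous
  have hwi : Integrable w := by
    refine Integrable.mono' hadm.int hadm.meas.aestronglyMeasurable
      (Eventually.of_forall fun x => ?_)
    have h0 := hadm.nonneg x
    rw [Real.norm_of_nonneg h0]
    nlinarith [mul_nonneg (sq_nonneg ‖x‖) h0]
  set e : ℕ → ℝ := fun n => 1 / ((n : ℝ) + 1) with he
  have hepos : ∀ n, 0 < e n := fun n => by positivity
  have het : Tendsto e atTop (𝓝 0) := tendsto_one_div_add_atTop_nhds_zero_nat
  set S : ℕ → Ek k → ℝ := fun n y => √(‖y‖ ^ 2 + e n ^ 2) with hS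
  have hSt : ∀ y, Tendsto (fun n => S n y) atTop (𝓝 ‖y‖) := by
    intro y
    have h1 : Tendsto (fun n => √(‖y‖ ^ 2 + e n ^ 2)) atTop (𝓝 (√(‖y‖ ^ 2 + 0 ^ 2))) :=
      ((tendsto_const_nhds.add (het.pow 2)).sqrt)
    rw [zero_pow (by norm_num), add_zero, Real.sqrt_sq (norm_nonneg y)] at h1
    exact h1
  -- limits of integrals
  have hlim : ∀ (φ : ℝ → ℝ) (M : ℝ), Continuous φ → (∀ x, |φ x| ≤ M) →
      Tendsto (fun n => EW w fun y => φ (S n y)) atTop (𝓝 (EW w fun y => φ ‖y‖)) := by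
    intro φ M hφ hM
    unfold EW
    refine Tendsto.div_const ?_ _
    refine tendsto_integral_of_dominated_convergence (fun x => M * w x) (fun n => ?_)
      (hwi.const_mul M) (fun n => Eventually.of_forall fun x => ?_)
      (Eventually.of_forall fun x => ?_)
    · have : Continuous fun y : Ek k => φ (S n y) := by
        simp only [hS]; fun_prop
      exact (this.measurable.mul hadm.meas).aestronglyMeasurable
    · rw [norm_mul, Real.norm_of_nonneg (hadm.nonneg x)]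
      exact mul_le_mul_of_nonneg_right (hM _) (hadm.nonneg x)
    · exact ((hφ.tendsto _).comp (hSt x)).mul_const _
  have hn : ∀ n, VW w (fun y => h (S n y)) ≤ P' * EW w fun y => deriv h (S n y) ^ 2 := by
    intro n
    have hc : ContDiff ℝ 1 fun y : Ek k => h (S n y) := by
      refine hh.comp ?_
      simp only [hS]
      refine ContDiff.sqrt ((contDiff_norm_sq ℝ).add contDiff_const) fun y => ?_
      have := hepos n
      positivity
    have hfd : ∀ x, ‖fderiv ℝ (fun y : Ek k => h (S n y)) x‖ ^ 2 ≤ deriv h (S n x) ^ 2 :=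
      fun x => Heps_fderiv hh (hepos n) x
    have h1 := hw.poi _ hc ⟨B, fun x => hB _⟩ ⟨L, fun x => by
      have h2 := hfd x
      have h3 := hL (S n x)
      have h4 : |‖fderiv ℝ (fun y : Ek k => h (S n y)) x‖| ≤ |deriv h (S n x)| := sq_le_sq.1 h2
      rw [abs_norm] at h4
      exact h4.trans h3⟩
    refine h1.trans (mul_le_mul_of_nonneg_left ?_ hP')
    refine Pool.Agent.N273.KM.CPAx.EW_mono hadm (fun x => sq_nonneg _) hfd ?_ (B := L ^ 2)
      fun x => ?_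
    · simp only [hS]; fun_prop
    · rw [abs_pow]
      exact pow_le_pow_left₀ (abs_nonneg _) (hL _) 2
  have hl1 : Tendsto (fun n => VW w fun y => h (S n y)) atTop (𝓝 (VW w fun y => h ‖y‖)) := by
    unfold VW
    refine Tendsto.sub ?_ ((hlim h B hhc hB).pow 2)
    exact hlim (fun x => h x ^ 2) (B ^ 2) (by fun_prop) fun x => by
      rw [abs_pow]; exact pow_le_pow_left₀ (abs_nonneg _) (hB _) 2
  have hl2 : Tendsto (fun n => P' * EW w fun y => deriv h (S n y) ^ 2) atTop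
      (𝓝 (P' * EW w fun y => deriv h ‖y‖ ^ 2)) := by
    refine Tendsto.const_mul _ ?_
    exact hlim (fun x => deriv h x ^ 2) (L ^ 2) (by fun_prop) fun x => by
      rw [abs_pow]; exact pow_le_pow_left₀ (abs_nonneg _) (hL _) 2
  exact le_of_tendsto_of_tendsto' hl1 hl2 hn

/-- integral of radial functions -/
theorem lint_norm {k : ℕ} (hk : 1 ≤ k) {W : ℝ → ℝ≥0∞} (hW : Measurable W) :
    ∫⁻ y : Ek k, W ‖y‖ = volume (closedBall (0 : Ek k) 1) * ∫⁻ r, W r ∂(rad k) := by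
  have h0 : (0 : Ek k) ∈ interior (closedBall (0 : Ek k) 1) :=
    interior_mono ball_subset_closedBall (by
      rw [isOpen_ball.interior_eq]; exact mem_ball_self one_pos)
  obtain ⟨P, θ, h⟩ := exists_polar hk (isCompact_closedBall (0 : Ek k) 1)
    (convex_closedBall _ _) h0
  have hprob := h.prob
  have h1 := pol_swap h (gauge_cont (convex_closedBall _ _) h0) (G := fun _ => 1)
    measurable_const hW
  simp only [one_mul, lintegral_one, measure_univ] at h1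
  rw [← h1]
  refine lintegral_congr fun y => ?_
  rw [gauge_closedBall zero_le_one, div_one]

/-- the radial inequality -/
theorem radial : ∃ A : ℝ, 0 < A ∧ ∀ (k : ℕ) (ψ : ℝ → ℝ) (R : ℝ), 1 ≤ k → ConvexOn ℝ univ ψ →
    Monotone ψ → 0 < R → ∀ (h : ℝ → ℝ) (B L : ℝ), ContDiff ℝ 1 h → (∀ x, |h x| ≤ B) →
    (∀ x, |deriv h x| ≤ L) → ∃ c : ℝ, |c| ≤ B ∧
    ∫⁻ r, ENNReal.ofReal ((h r - c) ^ 2) * ENNReal.ofReal (gR ψ R r) ∂(rad k) ≤
      ENNReal.ofReal (A * R ^ 2 / k) *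
        ∫⁻ r, ENNReal.ofReal (deriv h r ^ 2) * ENNReal.ofReal (gR ψ R r) ∂(rad k) := by
  obtain ⟨A, hA, HA⟩ := wE_AP
  refine ⟨A, hA, fun k ψ R hk hv hm hR h B L hh hB hL => ?_⟩
  have hk0 : (0 : ℝ) < k := by exact_mod_cast hk
  have hψc := cont_of_convex hv
  have hAP := HA k ψ R hk hv hm hR
  have hPS : PS (A * (R ^ 2 / k)) (fun y : Ek k => gR ψ R ‖y‖) :=
    Pool.Agent.N273.KM.t_CPS _ A (R ^ 2 / k) _ hA.le (by positivity) hAP
      (wE_var k hk hψc hR)
  have h1 := radial_PS (by positivity) hPS hh hB hL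
  have hadm := hAP.adm
  set w : Ek k → ℝ := fun y => gR ψ R ‖y‖ with hw
  have hZ := hadm.pos
  have hd : Continuous (deriv h) := hh.continuous_deriv le_rfl
  have hhc := hh.continuous
  have hint : ∀ (φ : ℝ → ℝ) (M : ℝ), Continuous φ → (∀ x, |φ x| ≤ M) →
      Integrable fun y : Ek k => φ ‖y‖ * w y := fun φ M hφ hM =>
    Pool.Agent.N273.KM.CPAx.int_bdd hadm (hφ.comp continuous_norm) fun x => hM _
  have hi1 := hint h B hhc hB
  have hi2 := hint (fun x => h x ^ 2) (B ^ 2) (by fun_prop) fun x => by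
    rw [abs_pow]; exact pow_le_pow_left₀ (abs_nonneg _) (hB _) 2
  have hi3 := hint (fun x => deriv h x ^ 2) (L ^ 2) (by fun_prop) fun x => by
    rw [abs_pow]; exact pow_le_pow_left₀ (abs_nonneg _) (hL _) 2
  have hi0 := hint (fun _ => 1) 1 continuous_const (fun _ => by simp)
  simp only [one_mul] at hi0
  set c : ℝ := EW w fun y => h ‖y‖ with hc
  have hcB : |c| ≤ B := by
    rw [hc]
    unfold EW
    rw [abs_div, abs_of_pos hZ, div_le_iff₀ hZ, ← integral_const_mul]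
    refine (abs_integral_le_integral_abs).trans ?_
    refine integral_mono hi1.abs (hi0.const_mul B) fun y => ?_
    simp only [abs_mul, abs_of_nonneg (hadm.nonneg y)]
    exact mul_le_mul_of_nonneg_right (hB _) (hadm.nonneg y)
  refine ⟨c, hcB, ?_⟩
  have hic : Integrable fun y : Ek k => (h ‖y‖ - c) ^ 2 * w y := by
    have e1 : (fun y : Ek k => (h ‖y‖ - c) ^ 2 * w y) = fun y =>
        h ‖y‖ ^ 2 * w y - 2 * c * (h ‖y‖ * w y) + c ^ 2 * w y := by
      funext y; ring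
    rw [e1]
    exact (hi2.sub (hi1.const_mul _)).add (hi0.const_mul _)
  have h2 : ∫ y : Ek k, (h ‖y‖ - c) ^ 2 * w y ≤
      A * R ^ 2 / k * ∫ y : Ek k, deriv h ‖y‖ ^ 2 * w y := by
    have e1 : (fun y : Ek k => (h ‖y‖ - c) ^ 2 * w y) = fun y =>
        (h ‖y‖ ^ 2 * w y - 2 * c * (h ‖y‖ * w y)) + c ^ 2 * w y := by
      funext y; ring
    have h3 : Integrable (fun y : Ek k => h ‖y‖ ^ 2 * w y - 2 * c * (h ‖y‖ * w y)) :=
      hi2.sub (hi1.const_mul _)
    rw [e1, integral_add h3 (hi0.const_mul _), integral_sub hi2 (hi1.const_mul _),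
      integral_const_mul, integral_const_mul]
    unfold VW EW at h1
    unfold EW at hc
    have h4 : ∫ y : Ek k, h ‖y‖ * w y = c * ∫ y, w y := by
      rw [hc]; field_simp
    rw [h4]
    have h5 : (∫ x : Ek k, h ‖x‖ ^ 2 * w x) / (∫ x, w x) - c ^ 2 ≤
        A * (R ^ 2 / k) * ((∫ x : Ek k, deriv h ‖x‖ ^ 2 * w x) / ∫ x, w x) := by
      rw [hc]; exact h1
    have h6 := mul_le_mul_of_nonneg_right h5 hZ.le
    have h7 : ((∫ x : Ek k, h ‖x‖ ^ 2 * w x) / (∫ x, w x) - c ^ 2) * (∫ x, w x) =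
        (∫ x : Ek k, h ‖x‖ ^ 2 * w x) - c ^ 2 * ∫ x, w x := by
      field_simp
    have h8 : A * (R ^ 2 / k) * ((∫ x : Ek k, deriv h ‖x‖ ^ 2 * w x) / ∫ x, w x) * (∫ x, w x) =
        A * R ^ 2 / k * ∫ x : Ek k, deriv h ‖x‖ ^ 2 * w x := by
      field_simp
    rw [h7, h8] at h6
    nlinarith
  have h3 := ENNReal.ofReal_le_ofReal h2
  rw [ENNReal.ofReal_mul (by positivity), ofReal_integral_eq_lintegral_ofReal hic
      (Eventually.of_forall fun y => mul_nonneg (sq_nonneg _) (hadm.nonneg y)),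
    ofReal_integral_eq_lintegral_ofReal hi3
      (Eventually.of_forall fun y => mul_nonneg (sq_nonneg _) (hadm.nonneg y))] at h3
  have e1 : ∀ φ : ℝ → ℝ, Continuous φ → ∫⁻ y : Ek k, ENNReal.ofReal (φ ‖y‖ ^ 2 * w y) =
      volume (closedBall (0 : Ek k) 1) *
        ∫⁻ r, ENNReal.ofReal (φ r ^ 2) * ENNReal.ofReal (gR ψ R r) ∂(rad k) := by
    intro φ hφ
    have hgm := gR_meas hψc R
    have hφm := hφ.measurable
    rw [← lint_norm hk (W := fun r => ENNReal.ofReal (φ r ^ 2) * ENNReal.ofReal (gR ψ R r))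
      (by fun_prop)]
    refine lintegral_congr fun y => ?_
    rw [ENNReal.ofReal_mul (sq_nonneg _)]
  rw [e1 (fun r => h r - c) (by fun_prop), e1 (fun r => deriv h r) (by fun_prop),
    mul_left_comm] at h3
  have hV0 : volume (closedBall (0 : Ek k) 1) ≠ 0 :=
    ((measure_ball_pos volume (0 : Ek k) one_pos).trans_le
      (measure_mono ball_subset_closedBall)).ne'
  have hVt : volume (closedBall (0 : Ek k) 1) ≠ ⊤ := measure_closedBall_lt_top.ne
  exact (ENNReal.mul_le_mul_iff_right hV0 hVt).1 h3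

end Pool.Agent.V5helper78.KO
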