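import Pool.Agent.V5helper78.KO.Psi
import Pool.Agent.V5helper78.KO.Hgf
import Pool.Agent.V5helper78.KO.Rdb

/-!
# The Poincaré inequality for functions of the gauge
-/

set_option autoImplicit false

namespace Pool.Agent.V5helper78.KO

open MeasureTheory Set Filter Topology Metric
open scoped ENNReal InnerProductSpace
open Pool.Agent.R751.MB (Eu EW VW Adm LCn AP)
open Pool.Agent.N483.KM (PS)

theorem rad_q (k : ℕ) {ψ : ℝ → ℝ} (hψ : Continuous ψ) {s : Set ℝ} (hs : MeasurableSet s)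
    (hs0 : s ⊆ Ioi 0) {F : ℝ → ℝ≥0∞} (hF : Measurable F) :
    ∫⁻ r in s, F r * ENNReal.ofReal (Real.exp (-ψ r)) ∂(rad k) =
      ∫⁻ r in s, F r * ENNReal.ofReal (Scl.q k ψ r) := by
  have hm : Measurable fun r => F r * ENNReal.ofReal (Real.exp (-ψ r)) := by
    have := hψ.measurable
    fun_prop
  rw [← lintegral_indicator hs, lint_rad k _ (hm.indicator hs)]
  have h1 : ∀ r ∈ Ioi (0 : ℝ), s.indicator (fun r => F r * ENNReal.ofReal (Real.exp (-ψ r))) r *
      ENNReal.ofReal (k * r ^ (k - 1)) = s.indicator (fun r => F r *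
        ENNReal.ofReal (Scl.q k ψ r)) r := by
    intro r hr
    have hr' : (0 : ℝ) < r := hr
    simp only [indicator]
    split_ifs
    · rw [mul_assoc, ← ENNReal.ofReal_mul (Real.exp_pos _).le]
      congr 2
      unfold Scl.q
      ring
    · simp
  rw [setLIntegral_congr_fun measurableSet_Ioi h1, lintegral_indicator hs,
    Measure.restrict_restrict hs, inter_eq_left.2 hs0]

theorem main_lint : ∃ A : ℝ, 0 < A ∧ ∀ (c₀ : ℝ), 0 ≤ c₀ → ∀ (k : ℕ) (K : Set (Ek k)) (Ω : Type)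
    [MeasurableSpace Ω] (P : Measure Ω) (θ : Ω → Ek k) (ψ : ℝ → ℝ) (m : ℝ), 1 ≤ k →
    Plr k K P θ → Iso c₀ K → Scl k ψ m → ∫⁻ r, ENNReal.ofReal (Real.exp (-ψ r)) ∂(rad k) ≠ ⊤ →
    ∀ (f : Ek k → ℝ) (B L : ℝ), ContDiff ℝ 1 f → (∀ x, |f x| ≤ B) →
    (∀ x, ‖fderiv ℝ f x‖ ≤ L) → ∃ c : ℝ,
    ∫⁻ r, (∫⁻ ω, ENNReal.ofReal ((f (r • θ ω) - c) ^ 2) ∂P) * ENNReal.ofReal (Real.exp (-ψ r))
      ∂(rad k) ≤ ENNReal.ofReal ((51 * c₀ + A) * m ^ 2) *
      ∫⁻ r, bb P θ f r * ENNReal.ofReal (Real.exp (-ψ r)) ∂(rad k) := by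
  obtain ⟨A, hA, HR⟩ := radial
  refine ⟨152 * A + 538, by positivity, ?_⟩
  intro c₀ hc₀ k K Ω _ P θ ψ m hk h hK hs hfin f B L hf hB hL
  have hprob := h.prob
  have hmθ := h.meas
  have hm := hs.pos
  have hk0 : (0 : ℝ) < k := by exact_mod_cast hk
  have hk1 : (1 : ℝ) ≤ k := by exact_mod_cast hk
  have hψ := hs.cont
  have hψm := hψ.measurable
  have hfm := hf.continuous.measurable
  have hfd : Continuous (fderiv ℝ f) := hf.continuous_fderiv one_ne_zero
  have hnf : Measurable fun x => ‖fderiv ℝ f x‖ := hfd.norm.measurable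
  have hB0 : 0 ≤ B := (abs_nonneg _).trans (hB 0)
  obtain ⟨c, hcB, hc⟩ := HR k ψ (6 * m) hk hs.conv hs.mono (by positivity) (hh P θ f) B
    (L * (2 * (k + 1))) (hh_contDiff h hk hK hf hB hL) (hh_bound h hB)
    (hh_deriv_bound h hk hK hf hB hL)
  refine ⟨c, ?_⟩
  have hgm := gR_meas hψ (6 * m)
  have hbm := bb_meas h hf
  have ham := aa_meas h hf.continuous
  have hhm := hh_meas h hf.continuous
  set S : ℝ → ℝ≥0∞ := fun r => ∫⁻ ω, ENNReal.ofReal ((f (r • θ ω) - c) ^ 2) ∂P with hS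
  have hSm : Measurable S := Measurable.lintegral_prod_right' (f := fun p : ℝ × Ω =>
    ENNReal.ofReal ((f (p.1 • θ p.2) - c) ^ 2)) (by fun_prop)
  set G : ℝ≥0∞ := ∫⁻ r, bb P θ f r * ENNReal.ofReal (Real.exp (-ψ r)) ∂(rad k) with hG
  have hgle : ∀ r, ENNReal.ofReal (gR ψ (6 * m) r) ≤ ENNReal.ofReal (Real.exp (-ψ r)) := by
    intro r
    refine ENNReal.ofReal_le_ofReal ?_
    unfold gR
    split_ifs
    · exact le_rfl
    · exact (Real.exp_pos _).le
  set Gb : ℝ≥0∞ := ∫⁻ r, bb P θ f r * ENNReal.ofReal (gR ψ (6 * m) r) ∂(rad k) with hGb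
  have hGbG : Gb ≤ G := lintegral_mono fun r => mul_le_mul_right (hgle r) _
  -- the bulk
  set Bk : ℝ≥0∞ := ∫⁻ r, S r * ENNReal.ofReal (gR ψ (6 * m) r) ∂(rad k) with hBk
  have hbulk : Bk ≤ ENNReal.ofReal (36 * (c₀ + 3 * A) * m ^ 2) * G := by
    have e1 : Bk = ∫⁻ r, aa P θ f r * ENNReal.ofReal (gR ψ (6 * m) r) ∂(rad k) +
        ∫⁻ r, ENNReal.ofReal ((hh P θ f r - c) ^ 2) * ENNReal.ofReal (gR ψ (6 * m) r)
          ∂(rad k) := by
      rw [← lintegral_add_left (by fun_prop)]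
      refine lintegral_congr fun r => ?_
      rw [hS]
      simp only
      rw [aa_split h hf.continuous hB, add_mul]
    have e2 := angular h hk hc₀ hK hf hB hgm (fun r s _ hrs => gR_anti hs.mono (6 * m) hrs)
      (R := 6 * m) (fun r hr => by
        unfold gR
        rw [if_neg (not_le.2 hr)])
    have e3 : ∫⁻ r, ENNReal.ofReal (deriv (hh P θ f) r ^ 2) *
        ENNReal.ofReal (gR ψ (6 * m) r) ∂(rad k) ≤ ENNReal.ofReal (k + 2) * Gb := by
      rw [hGb, ← lintegral_const_mul _ (by fun_prop)]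
      refine lintegral_mono fun r => ?_
      rw [← mul_assoc]
      exact mul_le_mul_left (hh_deriv_sq h hk hK hf hB hL r) _
    have e4 : ∫⁻ r, ENNReal.ofReal ((hh P θ f r - c) ^ 2) * ENNReal.ofReal (gR ψ (6 * m) r)
          ∂(rad k) ≤ ENNReal.ofReal (A * (6 * m) ^ 2 / k * (k + 2)) * Gb := by
      refine hc.trans ?_
      rw [ENNReal.ofReal_mul (by positivity), mul_assoc]
      exact mul_le_mul_right e3 _
    rw [e1]
    calc _ ≤ ENNReal.ofReal (c₀ * (6 * m) ^ 2) * Gb +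
        ENNReal.ofReal (A * (6 * m) ^ 2 / k * (k + 2)) * Gb := add_le_add e2 e4
      _ = ENNReal.ofReal (c₀ * (6 * m) ^ 2 + A * (6 * m) ^ 2 / k * (k + 2)) * Gb := by
          rw [← add_mul, ← ENNReal.ofReal_add (by positivity) (by positivity)]
      _ ≤ ENNReal.ofReal (36 * (c₀ + 3 * A) * m ^ 2) * G := by
          refine mul_le_mul' (ENNReal.ofReal_le_ofReal ?_) hGbG
          have e5 : A * (6 * m) ^ 2 / k * (k + 2) ≤ A * (6 * m) ^ 2 / k * (3 * k) :=
            mul_le_mul_of_nonneg_left (by linarith) (by positivity)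
          have e6 : A * (6 * m) ^ 2 / k * (3 * k) = 108 * A * m ^ 2 := by
            field_simp; ring
          rw [e6] at e5
          nlinarith
  -- the tail
  set a : ℝ := 2 * m with ha
  set l : ℝ := 4 * m / k with hl
  have hl0 : 0 < l := by positivity
  have hl4 : l ≤ 4 * m := by
    rw [hl, div_le_iff₀ hk0]
    nlinarith
  have hal : a + l ≤ 6 * m := by rw [ha]; linarith
  have ha0 : 0 < a := by positivity
  have hqm : Measurable (Scl.q k ψ) := by
    unfold Scl.q; fun_prop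
  have hud : ∀ ω, ContDiff ℝ 1 fun ρ : ℝ => f (ρ • θ ω) - c := by
    intro ω
    exact (hf.comp (contDiff_id.smul contDiff_const)).sub contDiff_const
  have hder : ∀ ω ρ, deriv (fun ρ : ℝ => f (ρ • θ ω) - c) ρ = fderiv ℝ f (ρ • θ ω) (θ ω) := by
    intro ω ρ
    have h1 : HasDerivAt (fun x : ℝ => x • θ ω) (θ ω) ρ := by
      have := (hasDerivAt_id ρ).smul_const (θ ω)
      simpa using this
    exact (((hf.differentiable one_ne_zero (ρ • θ ω)).hasFDerivAt.comp_hasDerivAt ρ h1).sub_const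
      c).deriv
  have hsub1 : Ioi (a + l) ⊆ Ioi (0 : ℝ) := Ioi_subset_Ioi (by linarith)
  have hsub2 : Ioc a (a + l) ⊆ Ioi (0 : ℝ) := fun x hx => lt_trans ha0 hx.1
  have hsub3 : Ioi a ⊆ Ioi (0 : ℝ) := Ioi_subset_Ioi ha0.le
  have htail : ∀ ω,
      5 * ∫⁻ ρ in Ioi (a + l), ENNReal.ofReal ((f (ρ • θ ω) - c) ^ 2) *
        ENNReal.ofReal (Scl.q k ψ ρ) ≤
      2 * (∫⁻ ρ in Ioc a (a + l), ENNReal.ofReal ((f (ρ • θ ω) - c) ^ 2) *
        ENNReal.ofReal (Scl.q k ψ ρ)) +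
        ENNReal.ofReal (14 * l ^ 2) *
          ∫⁻ ρ in Ioi a, ENNReal.ofReal (3 * (k + 1) ^ 2) *
            (ENNReal.ofReal (‖fderiv ℝ f (ρ • θ ω)‖ ^ 2) * ENNReal.ofReal (Scl.q k ψ ρ)) := by
    intro ω
    refine (tail_ineq hqm hl0 (fun ρ hρ => Scl.q_nonneg (by linarith))
      (fun ρ t hρ ht => hs.q_dec1 hρ ht) (fun ρ hρ => hs.q_dec2 hk hρ) (hud ω) ?_).trans ?_
    · have e1 : ∫⁻ ρ in Ioi (a + l), ENNReal.ofReal ((f (ρ • θ ω) - c) ^ 2) *
          ENNReal.ofReal (Scl.q k ψ ρ) ≤ ENNReal.ofReal ((2 * B) ^ 2) *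
            ∫⁻ r, ENNReal.ofReal (Real.exp (-ψ r)) ∂(rad k) := by
        have e2 : ∫⁻ ρ in Ioi (a + l), 1 * ENNReal.ofReal (Real.exp (-ψ ρ)) ∂(rad k) ≤
            ∫⁻ r, ENNReal.ofReal (Real.exp (-ψ r)) ∂(rad k) := by
          simp only [one_mul]
          exact setLIntegral_le_lintegral _ _
        rw [rad_q k hψ measurableSet_Ioi hsub1 measurable_const] at e2
        refine le_trans ?_ (mul_le_mul_right e2 _)
        rw [← lintegral_const_mul _ (by fun_prop)]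
        refine lintegral_mono fun ρ => ?_
        simp only [one_mul]
        refine mul_le_mul_left (ENNReal.ofReal_le_ofReal ?_) _
        rw [← sq_abs]
        refine pow_le_pow_left₀ (abs_nonneg _) ?_ 2
        refine (abs_sub _ _).trans ?_
        have := hB (ρ • θ ω)
        linarith
      exact ne_top_of_le_ne_top (ENNReal.mul_ne_top ENNReal.ofReal_ne_top hfin) e1
    · refine add_le_add_right (mul_le_mul_right (lintegral_mono fun ρ => ?_) _) _
      rw [← mul_assoc]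
      refine mul_le_mul_left ?_ _
      rw [hder, ← ENNReal.ofReal_mul (by positivity)]
      refine ENNReal.ofReal_le_ofReal ?_
      have e1 : |fderiv ℝ f (ρ • θ ω) (θ ω)| ≤ ‖fderiv ℝ f (ρ • θ ω)‖ * ‖θ ω‖ := by
        rw [← Real.norm_eq_abs]
        exact ContinuousLinearMap.le_opNorm _ _
      have e2 := pow_le_pow_left₀ (abs_nonneg _) e1 2
      rw [sq_abs] at e2
      have e3 := theta_norm h hk hK ω
      calc _ ≤ (‖fderiv ℝ f (ρ • θ ω)‖ * ‖θ ω‖) ^ 2 := e2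
        _ = ‖θ ω‖ ^ 2 * ‖fderiv ℝ f (ρ • θ ω)‖ ^ 2 := by ring
        _ ≤ _ := mul_le_mul_of_nonneg_right e3 (sq_nonneg _)
  -- integrate over ω
  have hswap : ∀ (s : Set ℝ), MeasurableSet s → s ⊆ Ioi 0 → ∀ F : Ek k → ℝ≥0∞, Measurable F →
      ∫⁻ ω, (∫⁻ ρ in s, F (ρ • θ ω) * ENNReal.ofReal (Scl.q k ψ ρ)) ∂P =
      ∫⁻ r in s, (∫⁻ ω, F (r • θ ω) ∂P) * ENNReal.ofReal (Real.exp (-ψ r)) ∂(rad k) := by
    intro s hs1 hs2 F hF
    have hFm : Measurable fun r : ℝ => ∫⁻ ω, F (r • θ ω) ∂P :=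
      Measurable.lintegral_prod_right' (f := fun p : ℝ × Ω => F (p.1 • θ p.2)) (by fun_prop)
    rw [rad_q k hψ hs1 hs2 hFm, lintegral_lintegral_swap]
    · refine lintegral_congr fun ρ => ?_
      rw [lintegral_mul_const _ (by fun_prop)]
    · exact Measurable.aemeasurable (by
        simp only [Function.uncurry_def]
        fun_prop)
  set X : ℝ≥0∞ := ∫⁻ r in Ioi (a + l), S r * ENNReal.ofReal (Real.exp (-ψ r)) ∂(rad k) with hX
  have hXle : 5 * X ≤ 2 * Bk + ENNReal.ofReal (2688 * m ^ 2) * G := by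
    have hF1 : Measurable fun x => ENNReal.ofReal ((f x - c) ^ 2) := by fun_prop
    have hF2 : Measurable fun x => ENNReal.ofReal (‖fderiv ℝ f x‖ ^ 2) := by fun_prop
    have e1 := hswap (Ioi (a + l)) measurableSet_Ioi hsub1 _ hF1
    have e2 := hswap (Ioc a (a + l)) measurableSet_Ioc hsub2 _ hF1
    have e3 := hswap (Ioi a) measurableSet_Ioi hsub3 _ hF2
    have hmeas : ∀ (s : Set ℝ), MeasurableSet s → ∀ F : Ek k → ℝ≥0∞, Measurable F →
        Measurable fun ω => ∫⁻ ρ in s, F (ρ • θ ω) * ENNReal.ofReal (Scl.q k ψ ρ) :=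
      fun s _ F hF => Measurable.lintegral_prod_right' (ν := volume.restrict s)
        (f := fun p : Ω × ℝ => F (p.2 • θ p.1) * ENNReal.ofReal (Scl.q k ψ p.2)) (by fun_prop)
    have e4 := lintegral_mono (μ := P) htail
    rw [lintegral_const_mul _ (hmeas _ measurableSet_Ioi _ hF1), e1,
      lintegral_add_left ((hmeas _ measurableSet_Ioc _ hF1).const_mul _),
      lintegral_const_mul _ (hmeas _ measurableSet_Ioc _ hF1), e2] at e4
    have e5 : ∫⁻ ω, (ENNReal.ofReal (14 * l ^ 2) *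
          ∫⁻ ρ in Ioi a, ENNReal.ofReal (3 * (k + 1) ^ 2) *
            (ENNReal.ofReal (‖fderiv ℝ f (ρ • θ ω)‖ ^ 2) * ENNReal.ofReal (Scl.q k ψ ρ))) ∂P =
        ENNReal.ofReal (14 * l ^ 2 * (3 * (k + 1) ^ 2)) *
          ∫⁻ r in Ioi a, bb P θ f r * ENNReal.ofReal (Real.exp (-ψ r)) ∂(rad k) := by
      have e6 : ∀ ω, ENNReal.ofReal (14 * l ^ 2) *
          ∫⁻ ρ in Ioi a, ENNReal.ofReal (3 * (k + 1) ^ 2) *
            (ENNReal.ofReal (‖fderiv ℝ f (ρ • θ ω)‖ ^ 2) * ENNReal.ofReal (Scl.q k ψ ρ)) =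
          ENNReal.ofReal (14 * l ^ 2 * (3 * (k + 1) ^ 2)) *
          ∫⁻ ρ in Ioi a, (ENNReal.ofReal (‖fderiv ℝ f (ρ • θ ω)‖ ^ 2) *
            ENNReal.ofReal (Scl.q k ψ ρ)) := by
        intro ω
        rw [lintegral_const_mul _ (by fun_prop), ← mul_assoc, ← ENNReal.ofReal_mul (by positivity)]
      simp only [e6]
      rw [lintegral_const_mul _ (hmeas _ measurableSet_Ioi _ hF2), e3]
      rfl
    rw [e5] at e4
    refine e4.trans (add_le_add (mul_le_mul_right ?_ _) (mul_le_mul' ?_ ?_))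
    · rw [hBk]
      refine le_trans ?_ (setLIntegral_le_lintegral (Ioc a (a + l)) _)
      refine setLIntegral_mono' measurableSet_Ioc fun r hr => ?_
      refine mul_le_mul_right (ENNReal.ofReal_le_ofReal ?_) _
      unfold gR
      rw [if_pos (hr.2.trans hal)]
    · refine ENNReal.ofReal_le_ofReal ?_
      rw [hl]
      have e7 : ((k : ℝ) + 1) ^ 2 ≤ 4 * k ^ 2 := by nlinarith
      have e8 : 14 * (4 * m / k) ^ 2 * (3 * ((k : ℝ) + 1) ^ 2) ≤
          14 * (4 * m / k) ^ 2 * (3 * (4 * k ^ 2)) :=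
        mul_le_mul_of_nonneg_left (by linarith) (by positivity)
      refine e8.trans (le_of_eq ?_)
      field_simp
      ring
    · exact setLIntegral_le_lintegral _ _
  -- total
  have hT : ∫⁻ r, S r * ENNReal.ofReal (Real.exp (-ψ r)) ∂(rad k) ≤ Bk + X := by
    have e1 : ∫⁻ r, S r * ENNReal.ofReal (Real.exp (-ψ r)) ∂(rad k) ≤
        ∫⁻ r in Iic (a + l), S r * ENNReal.ofReal (Real.exp (-ψ r)) ∂(rad k) + X := by
      rw [hX, ← setLIntegral_univ, ← Iic_union_Ioi (a := a + l)]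
      exact lintegral_union_le _ _ _
    refine e1.trans (add_le_add_left ?_ _)
    rw [hBk]
    refine le_trans ?_ (setLIntegral_le_lintegral (Iic (a + l)) _)
    refine setLIntegral_mono' measurableSet_Iic fun r hr => ?_
    refine mul_le_mul_right (ENNReal.ofReal_le_ofReal ?_) _
    have hr' : r ≤ a + l := hr
    unfold gR
    rw [if_pos (hr'.trans hal)]
  have h5 : 5 * ∫⁻ r, S r * ENNReal.ofReal (Real.exp (-ψ r)) ∂(rad k) ≤
      5 * (ENNReal.ofReal ((51 * c₀ + (152 * A + 538)) * m ^ 2) * G) := by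
    calc 5 * ∫⁻ r, S r * ENNReal.ofReal (Real.exp (-ψ r)) ∂(rad k) ≤ 5 * (Bk + X) :=
          mul_le_mul_right hT _
      _ = 5 * Bk + 5 * X := mul_add _ _ _
      _ ≤ 5 * Bk + (2 * Bk + ENNReal.ofReal (2688 * m ^ 2) * G) := add_le_add_right hXle _
      _ = 7 * Bk + ENNReal.ofReal (2688 * m ^ 2) * G := by ring
      _ ≤ 7 * (ENNReal.ofReal (36 * (c₀ + 3 * A) * m ^ 2) * G) +
          ENNReal.ofReal (2688 * m ^ 2) * G := add_le_add_left (mul_le_mul_right hbulk _) _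
      _ = (ENNReal.ofReal (7 * (36 * (c₀ + 3 * A) * m ^ 2)) + ENNReal.ofReal (2688 * m ^ 2)) *
          G := by
          rw [ENNReal.ofReal_mul (by norm_num : (0 : ℝ) ≤ 7)]
          simp only [ENNReal.ofReal_ofNat]
          ring
      _ = ENNReal.ofReal (7 * (36 * (c₀ + 3 * A) * m ^ 2) + 2688 * m ^ 2) * G := by
          rw [← ENNReal.ofReal_add (by positivity) (by positivity)]
      _ ≤ ENNReal.ofReal (5 * ((51 * c₀ + (152 * A + 538)) * m ^ 2)) * G := by
          refine mul_le_mul_left (ENNReal.ofReal_le_ofReal ?_) _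
          have : 0 ≤ (3 * c₀ + 4 * A + 2) * m ^ 2 := by positivity
          nlinarith
      _ = _ := by
          rw [ENNReal.ofReal_mul (by norm_num : (0 : ℝ) ≤ 5)]
          simp only [ENNReal.ofReal_ofNat]
          ring
  exact (ENNReal.mul_le_mul_iff_right (by norm_num) (by norm_num)).1 h5

end Pool.Agent.V5helper78.KO
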