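import Pool.Agent.V5helper78.KO.Gen
import Pool.Agent.N483.KM.FinV
import Pool.Agent.N483.KM.Gbs

/-!
# Bodies given by sums of functions of profiles of blocks
-/

set_option autoImplicit false

namespace Pool.Agent.V5helper78.KO

open MeasureTheory Set Filter Topology Metric
open scoped ENNReal InnerProductSpace
open Pool.Agent.R754.KG (E un)
open Pool.Agent.Y506.PV (CcW ind)
open Pool.Agent.R751.MB (AP)
open Pool.Agent.N483.KM

/-- profiles of blocks: all densities `exp (-Φ (N x))`, `Φ` convex with the symmetries `G`, satisfy the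
Poincaré inequality in isotropic position -/
structure Pb (A : ℝ) {k d : ℕ} (N : E k → E d) (G : Set (E d ≃ₗᵢ[ℝ] E d)) : Prop where
  cont : Continuous N
  conv : ∀ Φ : E d → ℝ, ConvexOn ℝ univ Φ → (∀ g ∈ G, ∀ y, Φ (g y) = Φ y) →
    ConvexOn ℝ univ fun x => Φ (N x)
  ap : ∀ Φ : E d → ℝ, ConvexOn ℝ univ Φ → (∀ g ∈ G, ∀ y, Φ (g y) = Φ y) →
    (∃ a : ℝ, ∀ y, ‖y‖ - a ≤ Φ y) → AP (κ := Fin k) A fun x => Real.exp (-Φ (N x))
  onto : ∀ y : E d, ∃ (x : E k) (g : E d ≃ₗᵢ[ℝ] E d), (g ∈ G ∨ ∀ z, g z = z) ∧ N x = g y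
  low : ∃ c : ℝ, 0 < c ∧ ∀ x, c * ‖x‖ ≤ ‖N x‖
  up : ∃ C : ℝ, 0 < C ∧ ∀ x, ‖N x‖ ≤ C * ‖x‖

/-- real valued functions -/
theorem eng_real (r : ℕ) (A δ : ℝ) (hA : 0 < A) (hδ : 0 < δ) : ∃ κ : ℝ, 0 < κ ∧
    ∀ (B n : ℕ) (k d : Fin B → ℕ) (N : ∀ i, E (k i) → E (d i))
    (G : ∀ i, Set (E (d i) ≃ₗᵢ[ℝ] E (d i))) (L : E n ≃ₗ[ℝ] (∀ i, E (k i)))
    (U : Fin r → ∀ i, E (d i) → ℝ) (e : Fin r → ℝ), 1 ≤ n → 1 ≤ r → (∀ i, Pb A (N i) (G i)) →
    (∀ j i, ConvexOn ℝ univ (U j i)) → (∀ j i x, 0 ≤ U j i x) →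
    (∃ R : ℝ, ∀ j i x, max (‖x‖ - R) 0 ^ 2 ≤ U j i x) →
    (∀ i, ∀ g ∈ G i, ∀ j x, U j i (g x) = U j i x) →
    (∃ x : E n, ∀ j, ∑ i, U j i (N i (L x i)) < e j) →
    CcW κ δ (ind {x : E n | ∀ j, ∑ i, U j i (N i (L x i)) ≤ e j}) := by
  obtain ⟨δ', hδ', h3⟩ := gibR r 0 δ hδ
  obtain ⟨κ', hκ', h4⟩ := Pool.Agent.R751.MB.apc A δ' hA hδ'
  obtain ⟨κ, hκ, h5⟩ := h3 κ' hκ'
  refine ⟨κ, hκ, ?_⟩
  intro B n k d N G L U e hn hr hP hconv hnn hR hinv hx
  obtain ⟨R, hR⟩ := hR
  let ψ : (E n × E 0) ≃ₗ[ℝ] E n :=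
    { toFun := fun z => z.1
      map_add' := fun x y => rfl
      map_smul' := fun c x => rfl
      invFun := fun x => (x, 0)
      left_inv := fun z => Prod.ext rfl (Subsingleton.elim _ _)
      right_inv := fun x => rfl }
  have hψ : ∀ x : E n, ψ (x, 0) = x := fun x => rfl
  have hUN : ∀ j i, ConvexOn ℝ univ fun x => U j i (N i x) := fun j i =>
    (hP i).conv _ (hconv j i) fun g hg y => hinv i g hg j y
  choose c hc hcl using fun i => (hP i).low
  have hs : CcW κ δ (ind {x : E n | ∀ j, (fun j z => ∑ i, U j i (N i (L z i))) j (ψ (x, 0)) ≤ e j}) := by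
    refine h5 n n ψ (fun j z => ∑ i, U j i (N i (L z i))) e hn
      (Pool.Agent.N624.KM.conv_sum L.symm (fun j i x => U j i (N i x)) hUN)
      (fun j z => Finset.sum_nonneg fun i _ => hnn j i _) (fun s => ?_) hx fun l a hl => ?_
    · -- bounded sublevel sets
      let j0 : Fin r := ⟨0, hr⟩
      let e1 : (∀ i, E (k i)) →L[ℝ] E n := LinearMap.toContinuousLinearMap L.symm.toLinearMap
      set M : ℝ := max 0 (R + Real.sqrt (s j0)) with hM
      set Q : ℝ := ∑ i, M / c i with hQ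
      have hM0 : 0 ≤ M := le_max_left _ _
      have hQ0 : 0 ≤ Q := Finset.sum_nonneg fun i _ => div_nonneg hM0 (hc i).le
      have hb : Bornology.IsBounded (Metric.closedBall (0 : ∀ i, E (k i)) Q) :=
        Metric.isBounded_closedBall
      refine (e1.lipschitz.isBounded_image hb).subset ?_
      intro z hz
      refine ⟨L z, ?_, L.symm_apply_apply z⟩
      rw [mem_closedBall_zero_iff, pi_norm_le_iff_of_nonneg hQ0]
      intro i
      have h1 : U j0 i (N i (L z i)) ≤ s j0 :=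
        (Finset.single_le_sum (f := fun i => U j0 i (N i (L z i))) (fun i _ => hnn j0 i _)
          (Finset.mem_univ i)).trans (hz j0)
      have h2 := (hR j0 i (N i (L z i))).trans h1
      have h3 : max (‖N i (L z i)‖ - R) 0 ≤ Real.sqrt (s j0) := Real.le_sqrt_of_sq_le h2
      have h4 := (le_max_left (‖N i (L z i)‖ - R) 0).trans h3
      have h5 : ‖N i (L z i)‖ ≤ M := le_trans (by linarith) (le_max_right _ _)
      have h6 : ‖L z i‖ ≤ M / c i := by
        rw [le_div_iff₀ (hc i)]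
        have := hcl i (L z i)
        linarith
      exact h6.trans (Finset.single_le_sum (f := fun i => M / c i)
        (fun i _ => div_nonneg hM0 (hc i).le) (Finset.mem_univ i))
    · -- the Gibbs weights
      let j0 : Fin r := ⟨0, hr⟩
      have hAP : ∀ i, AP (κ := Fin (k i)) A
          fun x => Real.exp (-(fun y => ∑ j, l j * U j i y) (N i x)) := by
        intro i
        refine (hP i).ap (fun y => ∑ j, l j * U j i y) ?_ (fun g hg y => ?_)
          ⟨(0 + 1) ^ 2 / (4 * l j0) + (0 + 1) * |R|, fun y => ?_⟩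
        · refine ⟨convex_univ, fun x _ y _ s t hs ht hst => ?_⟩
          simp only [smul_eq_mul]
          rw [Finset.mul_sum, Finset.mul_sum, ← Finset.sum_add_distrib]
          refine Finset.sum_le_sum fun j _ => ?_
          have h2 := (hconv j i).2 (mem_univ x) (mem_univ y) hs ht hst
          simp only [smul_eq_mul] at h2
          have h3 := mul_le_mul_of_nonneg_left h2 (hl j).le
          linarith
        · refine Finset.sum_congr rfl fun j _ => ?_
          rw [hinv i g hg j y]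
        · have h1 := Pool.Agent.N234.KM.low_bound (l j0) 0 R ‖y‖ (hl j0) le_rfl (norm_nonneg y)
          refine h1.trans ?_
          rw [zero_mul, sub_zero]
          refine (mul_le_mul_of_nonneg_left (hR j0 i y) (hl j0).le).trans ?_
          exact Finset.single_le_sum (f := fun j => l j * U j i y)
            (fun j _ => mul_nonneg (hl j).le (hnn j i y)) (Finset.mem_univ j0)
      have h := Pool.Agent.R751.MB.ap_pi Pool.Agent.R751.MB.ten hA.le B k n L.symm
        (fun i x => Real.exp (-(fun y => ∑ j, l j * U j i y) (N i x))) hAP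
      have hgw : (gw ψ (fun j z => ∑ i, U j i (N i (L z i))) l a) =
          fun z => ∏ i, Real.exp (-(fun y => ∑ j, l j * U j i y) (N i (L.symm.symm z i))) := by
        funext z
        rw [← Real.exp_sum, Finset.sum_neg_distrib]
        unfold gw
        congr 2
        have ha : a = 0 := Subsingleton.elim _ _
        rw [ha, inner_zero_left, add_zero, Finset.sum_comm]
        refine Finset.sum_congr rfl fun j _ => ?_
        rw [Finset.mul_sum]
        rfl
      rw [hgw]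
      exact ⟨⟨h.adm.nonneg, h.adm.int, h.adm.pos, h.adm.meas⟩, h4 n _ h⟩
  exact hs

/-- functions with values in `(-∞, ∞]` -/
theorem eng_cc (r : ℕ) (A δ : ℝ) (hA : 0 < A) (hδ : 0 < δ) : ∃ κ : ℝ, 0 < κ ∧
    ∀ (B n : ℕ) (k d : Fin B → ℕ) (N : ∀ i, E (k i) → E (d i))
    (G : ∀ i, Set (E (d i) ≃ₗᵢ[ℝ] E (d i))) (L : E n ≃ₗ[ℝ] (∀ i, E (k i)))
    (V : Fin r → ∀ i, E (d i) → EReal) (e : Fin r → ℝ) (K : Set (E n)), (∀ i, Pb A (N i) (G i)) →
    (∀ j i, XF (V j i)) → (∀ i, ∀ g ∈ G i, ∀ j x, V j i (g x) = V j i x) →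
    K = {x : E n | ∀ j, ∑ i, V j i (N i (L x i)) ≤ (e j : EReal)} → Bornology.IsBounded K →
    (interior K).Nonempty → IsCompact K ∧ Convex ℝ K ∧ (interior K).Nonempty ∧
    CcW κ δ (ind K) := by
  obtain ⟨κ, hκ, H⟩ := eng_real r A δ hA hδ
  refine ⟨κ / 2, by positivity, ?_⟩
  intro B n k d N G L V e K hP hV hVG hK hb hint
  obtain ⟨x0, hx0⟩ := hint
  have hx0' : x0 ∈ K := interior_subset hx0
  obtain ⟨nD, hnD⟩ : ∃ nD : ℕ, nD = ∑ i, d i := ⟨_, rfl⟩
  have hfin : Module.finrank ℝ (E nD) = Module.finrank ℝ (∀ i, E (d i)) := by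
    rw [Module.finrank_pi_fintype, hnD]
    simp
  let LD : E nD ≃ₗ[ℝ] (∀ i, E (d i)) := LinearEquiv.ofFinrankEq _ _ hfin
  let F : E n → E nD := fun x => LD.symm fun i => N i (L x i)
  have hLF : ∀ x i, LD (F x) i = N i (L x i) := fun x i => by
    simp only [F, LinearEquiv.apply_symm_apply]
  have hLc : Continuous L := L.toLinearMap.continuous_of_finiteDimensional
  have hLsc : Continuous L.symm := L.symm.toLinearMap.continuous_of_finiteDimensional
  have hLDs : Continuous LD.symm := LD.symm.toLinearMap.continuous_of_finiteDimensional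
  have hFc : Continuous F := by
    refine hLDs.comp (continuous_pi fun i => (hP i).cont.comp ?_)
    exact (continuous_apply i).comp hLc
  set D : Set (E nD) := {y | ∀ j, ∑ i, V j i (LD.toLinearMap y i) ≤ (e j : EReal)} with hD
  have hKD : K = F ⁻¹' D := by
    rw [hK]
    ext x
    change (∀ j, ∑ i, V j i (N i (L x i)) ≤ (e j : EReal)) ↔
      ∀ j, ∑ i, V j i (LD (F x) i) ≤ (e j : EReal)
    simp only [hLF]
  -- every profile is attained
  have hatt : ∀ y : E nD, ∃ x : E n, ∀ i, ∃ g : E (d i) ≃ₗᵢ[ℝ] E (d i), (g ∈ G i ∨ ∀ z, g z = z) ∧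
      N i (L x i) = g (LD y i) := by
    intro y
    choose x g hg hx using fun i => (hP i).onto (LD y i)
    refine ⟨L.symm x, fun i => ⟨g i, hg i, ?_⟩⟩
    rw [LinearEquiv.apply_symm_apply]
    exact hx i
  choose c hc hcl using fun i => (hP i).low
  choose C hC hCl using fun i => (hP i).up
  have hDb : Bornology.IsBounded D := by
    obtain ⟨R, hR⟩ := hb.exists_norm_le
    let e1 : (∀ i, E (d i)) →L[ℝ] E nD := LinearMap.toContinuousLinearMap LD.symm.toLinearMap
    let e2 : E n →L[ℝ] (∀ i, E (k i)) := LinearMap.toContinuousLinearMap L.toLinearMap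
    set Q : ℝ := ∑ i, C i * (‖e2‖ * R) with hQ
    have hR0 : 0 ≤ R := (norm_nonneg _).trans (hR x0 hx0')
    have hQi : ∀ i, 0 ≤ C i * (‖e2‖ * R) := fun i => mul_nonneg (hC i).le (by positivity)
    have hQ0 : 0 ≤ Q := Finset.sum_nonneg fun i _ => hQi i
    have hb : Bornology.IsBounded (Metric.closedBall (0 : ∀ i, E (d i)) Q) :=
      Metric.isBounded_closedBall
    refine (e1.lipschitz.isBounded_image hb).subset ?_
    intro y hy
    refine ⟨LD y, ?_, LD.symm_apply_apply y⟩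
    obtain ⟨x, hx⟩ := hatt y
    have hxK : x ∈ K := by
      rw [hK]
      intro j
      have h1 : ∀ i, V j i (N i (L x i)) = V j i (LD y i) := by
        intro i
        obtain ⟨g, hg, hgx⟩ := hx i
        rw [hgx]
        rcases hg with hg | hg
        · exact hVG i g hg j _
        · rw [hg]
      simp only [h1]
      exact hy j
    rw [mem_closedBall_zero_iff, pi_norm_le_iff_of_nonneg hQ0]
    intro i
    obtain ⟨g, hg, hgx⟩ := hx i
    have h1 : ‖LD y i‖ = ‖N i (L x i)‖ := by rw [hgx, g.norm_map]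
    rw [h1]
    have h2 : ‖L x i‖ ≤ ‖e2‖ * R :=
      (norm_le_pi_norm (L x) i).trans ((e2.le_opNorm x).trans
        (mul_le_mul_of_nonneg_left (hR x hxK) (norm_nonneg _)))
    refine ((hCl i _).trans (mul_le_mul_of_nonneg_left h2 (hC i).le)).trans ?_
    exact Finset.single_le_sum (f := fun i => C i * (‖e2‖ * R)) (fun i _ => hQi i)
      (Finset.mem_univ i)
  have hDn : D.Nonempty := by
    refine ⟨F x0, ?_⟩
    rw [hKD] at hx0'
    exact hx0'
  obtain ⟨W, f, hW1, hf, hW2, hW3⟩ := Pool.Agent.N247.KM.t_VER r B nD d LD.toLinearMap V e hV hDb hDn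
  have hDe : D = VX LD.toLinearMap W f := hW3
  obtain ⟨U, fm, hUc, hU0, hUg, hUG, hUb, hUs, hmon, hcap⟩ :=
    Pool.Agent.N896.KM.t_VAP r B nD d LD.toLinearMap W f hW1 hf (by rw [← hDe]; exact hDb)
      (by rw [← hDe]; exact hDn)
  have hUinv : ∀ m i, ∀ g ∈ G i, ∀ j x, U m j i (g x) = U m j i x := fun m i g hg =>
    hUG m i g (hW2 i g fun j x => hVG i g hg j x)
  obtain ⟨Km, hKm⟩ : ∃ Km : ℕ → Set (E n), Km = fun m => F ⁻¹' VR LD.toLinearMap (U m) (fm m) :=
    ⟨_, rfl⟩
  have hKm' : ∀ m, Km m = {x : E n | ∀ j, ∑ i, U m j i (N i (L x i)) ≤ fm m j} := by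
    intro m
    rw [hKm]
    ext x
    change (∀ j, ∑ i, U m j i (LD (F x) i) ≤ fm m j) ↔ _
    simp only [hLF]
    rfl
  have hcap' : K = ⋂ m, Km m := by
    rw [hKD, hDe, ← hcap, hKm, preimage_iInter]
  have hcl' : ∀ m, IsClosed (Km m) := fun m => by
    rw [hKm]
    exact (Pool.Agent.N712.KM.vr_closed _ _ (hUc m)).preimage hFc
  have hcv : ∀ m, Convex ℝ (Km m) := fun m => by
    rw [hKm']
    have h1 := Pool.Agent.N712.KM.vr_convex (r := r) L.toLinearMap
      (V := fun j i x => U m j i (N i x)) (fm m)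
      fun j i => (hP i).conv _ (hUc m j i) fun g hg y => hUinv m i g hg j y
    exact h1
  have hbd : ∀ m, Bornology.IsBounded (Km m) := fun m => by
    obtain ⟨R, hR⟩ := (hUb m).exists_norm_le
    let e1 : (∀ i, E (k i)) →L[ℝ] E n := LinearMap.toContinuousLinearMap L.symm.toLinearMap
    let e2 : E nD →L[ℝ] (∀ i, E (d i)) := LinearMap.toContinuousLinearMap LD.toLinearMap
    set Q : ℝ := ∑ i, (‖e2‖ * |R|) / c i with hQ
    have hQi : ∀ i, 0 ≤ (‖e2‖ * |R|) / c i := fun i => div_nonneg (by positivity) (hc i).le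
    have hQ0 : 0 ≤ Q := Finset.sum_nonneg fun i _ => hQi i
    have hb : Bornology.IsBounded (Metric.closedBall (0 : ∀ i, E (k i)) Q) :=
      Metric.isBounded_closedBall
    refine (e1.lipschitz.isBounded_image hb).subset ?_
    intro x hx
    refine ⟨L x, ?_, L.symm_apply_apply x⟩
    rw [hKm] at hx
    have h1 : ‖F x‖ ≤ |R| := (hR _ hx).trans (le_abs_self R)
    rw [mem_closedBall_zero_iff, pi_norm_le_iff_of_nonneg hQ0]
    intro i
    have h2 : ‖N i (L x i)‖ ≤ ‖e2‖ * |R| := by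
      rw [← hLF]
      exact (norm_le_pi_norm (LD (F x)) i).trans ((e2.le_opNorm (F x)).trans
        (mul_le_mul_of_nonneg_left h1 (norm_nonneg _)))
    have h3 : ‖L x i‖ ≤ (‖e2‖ * |R|) / c i := by
      rw [le_div_iff₀ (hc i)]
      have := hcl i (L x i)
      linarith
    exact h3.trans (Finset.single_le_sum (f := fun i => (‖e2‖ * |R|) / c i)
      (fun i _ => hQi i) (Finset.mem_univ i))
  have hanti : Antitone Km := antitone_nat_of_succ_le fun m => by
    rw [hKm]
    exact preimage_mono (hmon m)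
  have hKcl : IsClosed K := by
    rw [hcap']
    exact isClosed_iInter hcl'
  have hKc : IsCompact K := Metric.isCompact_of_isClosed_isBounded hKcl hb
  have hKv : Convex ℝ K := by
    rw [hcap']
    exact convex_iInter hcv
  refine ⟨hKc, hKv, ⟨x0, hx0⟩, ?_⟩
  rcases Nat.eq_zero_or_pos n with rfl | hn
  · exact Pool.Agent.R754.KG.cc_zero hδ.le K hKc ⟨x0, hx0⟩
  have hr : 1 ≤ r := by
    rcases Nat.eq_zero_or_pos r with hr | hr
    · exfalso
      subst hr
      have hun : K = univ := by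
        rw [hK]
        exact eq_univ_of_forall fun x j => j.elim0
      rw [hun] at hb
      have : Nonempty (Fin n) := ⟨⟨0, hn⟩⟩
      exact NormedSpace.unbounded_univ ℝ (E n) hb
    · exact hr
  have hcc : ∀ m, CcW κ δ (ind (Km m)) := fun m => by
    rw [hKm']
    refine H B n k d N G L (U m) (fm m) hn hr hP (hUc m) (hU0 m) (hUg m) (hUinv m) ?_
    obtain ⟨y, hy⟩ := hUs m
    obtain ⟨x, hx⟩ := hatt y
    refine ⟨x, fun j => ?_⟩
    have h1 : ∀ i, U m j i (N i (L x i)) = U m j i (LD y i) := by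
      intro i
      obtain ⟨g, hg, hgx⟩ := hx i
      rw [hgx]
      rcases hg with hg | hg
      · exact hUinv m i g hg j _
      · rw [hg]
    simp only [h1]
    exact hy j
  exact Pool.Agent.N456.KM.PRXx.lim_cc hκ hcap' hcl' hbd hanti hx0 hcc

end Pool.Agent.V5helper78.KO
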