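import Pool.Agent.V5helper78.KO.Low
import Pool.Agent.R755.KF.Iso

/-!
# Bodies in general position
-/

set_option autoImplicit false

namespace Pool.Agent.V5helper78.KO

open MeasureTheory Set Filter Topology Metric
open scoped ENNReal InnerProductSpace
open Pool.Agent.R751.MB (Eu EW VW Adm LCn AP)
open Pool.Agent.N483.KM (PS)
open Pool.Agent.R755.KF (PI)
open Pool.Agent.R754.KG (un)

theorem zero_mem {k : ℕ} {K : Set (Ek k)} (hKc : IsCompact K) (hKv : Convex ℝ K)
    (hi : (interior K).Nonempty) (hm : ∀ θ : Ek k, ∫ x in K, ⟪x, θ⟫_ℝ = 0) :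
    (0 : Ek k) ∈ interior K := by
  by_contra h
  obtain ⟨f, hf⟩ := geometric_hahn_banach_open_point hKv.interior isOpen_interior h
  rw [map_zero] at hf
  set v : Ek k := (InnerProductSpace.toDual ℝ (Ek k)).symm f with hv
  have hfv : ∀ x, ⟪x, v⟫_ℝ = f x := by
    intro x
    rw [real_inner_comm, hv, InnerProductSpace.toDual_symm_apply]
  have h1 := hm v
  simp only [hfv] at h1
  have hcl : closure (interior K) = K := by
    rw [hKv.closure_interior_eq_closure_of_nonempty_interior hi, hKc.isClosed.closure_eq]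
  have hle : ∀ x ∈ K, f x ≤ 0 := by
    intro x hx
    rw [← hcl] at hx
    exact closure_minimal (fun y hy => (hf y hy).le) (isClosed_le f.continuous continuous_const) hx
  have hint : IntegrableOn (fun x => -f x) K :=
    f.continuous.neg.continuousOn.integrableOn_compact hKc
  have h2 : 0 < ∫ x in K, -f x := by
    rw [setIntegral_pos_iff_support_of_nonneg_ae
      ((ae_restrict_iff' hKc.measurableSet).2 (Eventually.of_forall fun x hx => by
        have := hle x hx
        simp only [Pi.zero_apply]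
        linarith)) hint]
    refine (isOpen_interior.measure_pos volume hi).trans_le (measure_mono fun x hx => ?_)
    refine ⟨?_, interior_subset hx⟩
    have := hf x hx
    simp only [Function.mem_support]
    linarith
  rw [integral_neg, h1] at h2
  simp at h2

theorem un_int {k : ℕ} (K : Set (Ek k)) (G : Ek k → ℝ) :
    ∫ x, G x ∂(un K) = (volume.real K)⁻¹ * ∫ x in K, G x := by
  unfold un
  rw [integral_smul_measure, ENNReal.toReal_inv, smul_eq_mul]
  rfl

/-- isotropic position -/
theorem exists_iso {k : ℕ} {c₀ : ℝ} {K : Set (Ek k)} (h : PI c₀ K)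
    (hm : ∀ θ : Ek k, ∫ x in K, ⟪x, θ⟫_ℝ = 0) :
    ∃ e : Ek k ≃ₗ[ℝ] Ek k, Iso c₀ (e '' K) := by
  obtain ⟨hKc, hKv, hKi, A, hA1, hA2⟩ := h
  have h0 := zero_mem hKc hKv hKi hm
  have hAc : Continuous A := A.toLinearMap.continuous_of_finiteDimensional
  obtain ⟨c, hc, hint, -⟩ := Pool.Agent.R751.MB.LinAux.exists_int (κ₁ := Fin k) (κ₂ := Fin k) A
  have hinj := A.injective
  have hset : ∀ G : Ek k → ℝ, ∫ z in A '' K, G z = c⁻¹ * ∫ x in K, G (A x) := by
    intro G
    have hms : MeasurableSet (A '' K) := (hKc.image hAc).measurableSet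
    rw [← integral_indicator hms, ← integral_indicator hKc.measurableSet]
    have h1 := hint ((A '' K).indicator G)
    have h2 : ∀ x, (A '' K).indicator G (A x) = K.indicator (fun x => G (A x)) x := by
      intro x
      have h3 : A x ∈ A '' K ↔ x ∈ K := hinj.mem_set_image
      by_cases hx : x ∈ K
      · rw [indicator_of_mem hx, indicator_of_mem (h3.2 hx)]
      · rw [indicator_of_notMem hx, indicator_of_notMem fun h => hx (h3.1 h)]
    simp only [h2] at h1
    rw [h1, ← mul_assoc, inv_mul_cancel₀ hc.ne', one_mul]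
  have hV : 0 < volume.real K := by
    rw [measureReal_def]
    refine ENNReal.toReal_pos ?_ hKc.measure_lt_top.ne
    exact ((isOpen_interior.measure_pos volume hKi).trans_le (measure_mono interior_subset)).ne'
  have hV' : volume.real (A '' K) = c⁻¹ * volume.real K := by
    have h1 := hset fun _ => 1
    simpa using h1
  have hmean : ∀ θ : Ek k, ∫ x in K, ⟪A x, θ⟫_ℝ = 0 := by
    intro θ
    have h1 := hm (ContinuousLinearMap.adjoint (LinearMap.toContinuousLinearMap A.toLinearMap) θ)
    simp only [ContinuousLinearMap.adjoint_inner_right] at h1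
    exact h1
  refine ⟨A, hKc.image hAc, hKv.linear_image A.toLinearMap, ?_, fun θ => ?_, fun θ => ?_,
    fun f hf => ?_⟩
  · have h1 := A.toContinuousLinearEquiv.toHomeomorph.image_interior K
    have h2 : (0 : Ek k) ∈ A.toContinuousLinearEquiv.toHomeomorph '' interior K :=
      ⟨0, h0, map_zero A⟩
    rw [h1] at h2
    exact h2
  · rw [hset, hmean, mul_zero]
  · have h1 := hA1 θ
    simp only [un_int, hmean, mul_zero] at h1
    rw [hset, hV']
    have h2 : ∫ x in K, ⟪A x, θ⟫_ℝ ^ 2 = volume.real K * ‖θ‖ ^ 2 := by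
      have h3 : (volume.real K)⁻¹ * ∫ x in K, ⟪A x, θ⟫_ℝ ^ 2 = ‖θ‖ ^ 2 := by
        rw [← h1]; ring
      rw [← h3, ← mul_assoc, mul_inv_cancel₀ hV.ne', one_mul]
    rw [h2]
    ring
  · have h1 := hA2 f hf
    simp only [un_int] at h1
    set V := volume.real K with hVd
    have i1 : IntegrableOn (fun x => f (A x)) K :=
      (hf.continuous.comp hAc).continuousOn.integrableOn_compact hKc
    have i2 : IntegrableOn (fun x => f (A x) ^ 2) K :=
      ((hf.continuous.comp hAc).pow 2).continuousOn.integrableOn_compact hKc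
    set m := V⁻¹ * ∫ x in K, f (A x) with hmd
    refine ⟨m, ?_⟩
    rw [hset, hset]
    have e1 : (fun x => (f (A x) - m) ^ 2) = fun x =>
        (f (A x) ^ 2 - 2 * m * f (A x)) + m ^ 2 := by
      funext x; ring
    have i3 : IntegrableOn (fun x => f (A x) ^ 2 - 2 * m * f (A x)) K := i2.sub (i1.const_mul _)
    have i4 : IntegrableOn (fun _ : Ek k => m ^ 2) K :=
      continuous_const.continuousOn.integrableOn_compact hKc
    rw [e1, integral_add i3 i4, integral_sub i2 (i1.const_mul _), integral_const_mul,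
      setIntegral_const, smul_eq_mul]
    have e2 : ∫ x in K, f (A x) = V * m := by
      rw [hmd, ← mul_assoc, mul_inv_cancel₀ hV.ne', one_mul]
    rw [e2]
    have h2 := mul_le_mul_of_nonneg_left h1 hV.le
    have e3 : V * (V⁻¹ * ∫ x in K, f (A x) ^ 2) = ∫ x in K, f (A x) ^ 2 := by
      rw [← mul_assoc, mul_inv_cancel₀ hV.ne', one_mul]
    have e4 : V * (c₀ * (V⁻¹ * ∫ x in K, ‖fderiv ℝ f (A x)‖ ^ 2)) =
        c₀ * ∫ x in K, ‖fderiv ℝ f (A x)‖ ^ 2 := by
      field_simp
    rw [mul_sub, e3, e4] at h2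
    rw [mul_left_comm c₀]
    refine mul_le_mul_of_nonneg_left ?_ (inv_nonneg.2 hc.le)
    rw [← hVd]
    nlinarith

/-- **The Poincaré inequality in isotropic position for the densities `exp (-ψ(‖x‖_K))`.** -/
theorem gauge_AP' (c₀ : ℝ) : ∃ A : ℝ, 0 < A ∧ ∀ (k : ℕ) (K : Set (Ek k)) (ψ : ℝ → ℝ),
    1 ≤ k → PI c₀ K → (∀ θ : Ek k, ∫ x in K, ⟪x, θ⟫_ℝ = 0) → ConvexOn ℝ univ ψ → Monotone ψ →
    (∃ ρ, 0 < ρ ∧ ψ 0 < ψ ρ) → AP A (fun x : Ek k => Real.exp (-ψ (gauge K x))) := by
  obtain ⟨A, hA, H⟩ := gauge_AP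
  refine ⟨A * (max c₀ 0 + 1), by positivity, fun k K ψ hk hK hm hv hmn hn => ?_⟩
  obtain ⟨e, he⟩ := exists_iso hK hm
  have he' : Iso (max c₀ 0) (e '' K) := by
    refine ⟨he.comp, he.conv, he.zero, he.mean, he.cov, fun f hf => ?_⟩
    obtain ⟨c, hc⟩ := he.poi f hf
    refine ⟨c, hc.trans (mul_le_mul_of_nonneg_right (le_max_left _ _) ?_)⟩
    exact integral_nonneg fun x => sq_nonneg _
  have h1 := H (max c₀ 0) (le_max_right _ _) k (e '' K) ψ hk he' hv hmn hn
  have h2 := Pool.Agent.R751.MB.lin (Fin k) (Fin k) _ e.symm _ h1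
  have h3 : (fun z : Ek k => Real.exp (-ψ (gauge (e '' K) (e.symm.symm z)))) =
      fun z : Ek k => Real.exp (-ψ (gauge K z)) := by
    funext z
    congr 3
    simp only [LinearEquiv.symm_symm]
    unfold gauge
    congr 1
    ext r
    simp only [mem_ofPred_eq]
    refine and_congr_right fun hr => ?_
    constructor
    · rintro ⟨y, ⟨x, hx, rfl⟩, hy⟩
      refine ⟨x, hx, ?_⟩
      apply e.injective
      simp only at hy ⊢
      rw [← hy, map_smul]
    · rintro ⟨x, hx, hy⟩
      refine ⟨e x, ⟨x, hx, rfl⟩, ?_⟩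
      simp only at hy ⊢
      rw [← hy, map_smul]
  rw [h3] at h2
  exact h2

end Pool.Agent.V5helper78.KO
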