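import Pool.Agent.V5helper78.KO.Pol

/-!
# Layer cake inequality for antitone radial weights
-/

set_option autoImplicit false

namespace Pool.Agent.V5helper78.KO

open MeasureTheory Set Filter Topology Metric
open scoped ENNReal InnerProductSpace

theorem cake {k : ℕ} {u : ℝ → ℝ≥0∞} (hu : Measurable u) {g : ℝ → ℝ} (hg : Measurable g) :
    ∫⁻ s, u s * ENNReal.ofReal (g s) ∂(rad k) =
      ∫⁻ t in Ioi (0 : ℝ), ∫⁻ s in {s | t < g s}, u s ∂(rad k) := by
  have h1 : ∀ s, u s * ENNReal.ofReal (g s) =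
      ∫⁻ t in Ioi (0 : ℝ), {t : ℝ | t < g s}.indicator (fun _ => u s) t := by
    intro s
    have e0 : {t : ℝ | t < g s} = Iio (g s) := rfl
    rw [e0, lintegral_indicator_const measurableSet_Iio, Measure.restrict_apply measurableSet_Iio]
    congr 1
    have : Iio (g s) ∩ Ioi 0 = Ioo 0 (g s) := by
      ext x; simp [and_comm]
    rw [this, Real.volume_Ioo, sub_zero]
  have h2 : ∀ t : ℝ, ∫⁻ s in {s | t < g s}, u s ∂(rad k) =
      ∫⁻ s, {t : ℝ | t < g s}.indicator (fun _ => u s) t ∂(rad k) := by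
    intro t
    rw [← lintegral_indicator (measurableSet_lt measurable_const hg)]
    refine lintegral_congr fun s => ?_
    simp only [indicator, mem_ofPred_eq]
  simp only [h1, h2]
  refine lintegral_lintegral_swap ?_
  refine Measurable.aemeasurable ?_
  have h3 : (Function.uncurry fun s t : ℝ => {t : ℝ | t < g s}.indicator (fun _ => u s) t) =
      {p : ℝ × ℝ | p.2 < g p.1}.indicator (fun p => u p.1) := by
    funext p
    simp only [Function.uncurry, indicator, mem_ofPred_eq]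
  rw [h3]
  exact (hu.comp measurable_fst).indicator (measurableSet_lt measurable_snd
    (hg.comp measurable_fst))

theorem layer {k : ℕ} {a b : ℝ → ℝ≥0∞} (ha : Measurable a) (hb : Measurable b) {c : ℝ≥0∞} {R : ℝ}
    (hct : c ≠ ⊤)
    (H : ∀ r, 0 < r → r ≤ R → ∫⁻ s in Ioc 0 r, a s ∂(rad k) ≤ c * ∫⁻ s in Ioc 0 r, b s ∂(rad k))
    {g : ℝ → ℝ} (hg : Measurable g) (hanti : ∀ r s, 0 < r → r ≤ s → g s ≤ g r)
    (hsupp : ∀ r, R < r → g r ≤ 0) :
    ∫⁻ s, a s * ENNReal.ofReal (g s) ∂(rad k) ≤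
      c * ∫⁻ s, b s * ENNReal.ofReal (g s) ∂(rad k) := by
  rw [cake ha hg, cake hb hg, ← lintegral_const_mul' _ _ hct]
  refine setLIntegral_mono' measurableSet_Ioi fun t ht => ?_
  have ht' : (0 : ℝ) < t := ht
  have hms : MeasurableSet {s | t < g s} := measurableSet_lt measurable_const hg
  have hpos : ∀ u : ℝ → ℝ≥0∞, ∫⁻ s in {s | t < g s}, u s ∂(rad k) =
      ∫⁻ s in {s | t < g s} ∩ Ioi 0, u s ∂(rad k) := by
    intro u
    refine setLIntegral_congr ?_
    filter_upwards [rad_ae_pos k] with s hs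
    refine propext ⟨fun h => ⟨h, hs⟩, fun h => h.1⟩
  rw [hpos a, hpos b]
  rcases eq_empty_or_nonempty ({s | t < g s} ∩ Ioi 0) with he | hne
  · rw [he]
    simp
  · have hbdd : ∀ s ∈ {s | t < g s} ∩ Ioi 0, s ≤ R := by
      intro s hs
      by_contra hsR
      have h1 := hsupp s (not_le.1 hsR)
      have h2 : t < g s := hs.1
      linarith
    set r := sSup ({s | t < g s} ∩ Ioi 0) with hr
    have hBA : BddAbove ({s | t < g s} ∩ Ioi 0) := ⟨R, hbdd⟩
    have hrR : r ≤ R := csSup_le hne hbdd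
    have hr0 : 0 < r := by
      obtain ⟨s, hs⟩ := hne
      exact lt_of_lt_of_le hs.2 (le_csSup hBA hs)
    have hsub1 : Ioo 0 r ⊆ {s | t < g s} ∩ Ioi 0 := by
      intro s hs
      obtain ⟨s', hs', hlt⟩ := exists_lt_of_lt_csSup hne hs.2
      refine ⟨?_, hs.1⟩
      have := hanti s s' hs.1 hlt.le
      exact lt_of_lt_of_le hs'.1 this
    have hsub2 : {s | t < g s} ∩ Ioi 0 ⊆ Ioc 0 r := fun s hs => ⟨hs.2, le_csSup hBA hs⟩
    have hIo : (Ioo 0 r : Set ℝ) =ᵐ[rad k] Ioc 0 r := by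
      have h1 : ∀ᵐ s ∂(rad k), s ≠ r := by
        rw [ae_iff]
        convert rad_single k r using 2
        ext x
        simp
      filter_upwards [h1] with s hs
      refine propext ⟨fun h => ⟨h.1, h.2.le⟩, fun h => ⟨h.1, lt_of_le_of_ne h.2 hs⟩⟩
    calc ∫⁻ s in {s | t < g s} ∩ Ioi 0, a s ∂(rad k) ≤ ∫⁻ s in Ioc 0 r, a s ∂(rad k) :=
          lintegral_mono_set hsub2
      _ ≤ c * ∫⁻ s in Ioc 0 r, b s ∂(rad k) := H r hr0 hrR
      _ = c * ∫⁻ s in Ioo 0 r, b s ∂(rad k) := by rw [setLIntegral_congr hIo]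
      _ ≤ _ := mul_le_mul_right (lintegral_mono_set hsub1) _

/-- scaling of the radial measure -/
theorem rad_scale (k : ℕ) (hk : 1 ≤ k) {r : ℝ} (hr : 0 < r) (G : ℝ → ℝ≥0∞) (hG : Measurable G) :
    ∫⁻ ρ in Ioc 0 r, G ρ ∂(rad k) =
      ENNReal.ofReal (r ^ k) * ∫⁻ s in Ioc 0 1, G (r * s) ∂(rad k) := by
  rw [← lintegral_indicator measurableSet_Ioc, ← lintegral_indicator measurableSet_Ioc,
    lint_rad k _ (hG.indicator measurableSet_Ioc),
    lint_rad k ((Ioc (0 : ℝ) 1).indicator fun s => G (r * s))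
      ((hG.comp (measurable_const_mul r)).indicator measurableSet_Ioc),
    lint_scale hr, ← lintegral_const_mul' _ _ ENNReal.ofReal_ne_top,
    ← lintegral_const_mul' _ _ ENNReal.ofReal_ne_top]
  refine setLIntegral_congr_fun measurableSet_Ioi fun s hs => ?_
  have hs' : (0 : ℝ) < s := hs
  have h1 : (Ioc (0 : ℝ) r).indicator G (r * s) = (Ioc (0 : ℝ) 1).indicator (fun s => G (r * s)) s := by
    simp only [indicator, mem_Ioc]
    have : (0 < r * s ∧ r * s ≤ r) ↔ (0 < s ∧ s ≤ 1) := by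
      constructor
      · rintro ⟨_, h2⟩
        refine ⟨hs', ?_⟩
        by_contra h3
        push Not at h3
        nlinarith
      · rintro ⟨_, h2⟩
        refine ⟨by positivity, ?_⟩
        nlinarith
    simp only [this]
  simp only [h1]
  rw [mul_left_comm, mul_left_comm (ENNReal.ofReal (r ^ k)), ← ENNReal.ofReal_mul hr.le,
    ← ENNReal.ofReal_mul (by positivity)]
  congr 2
  obtain ⟨j, rfl⟩ : ∃ j, k = j + 1 := ⟨k - 1, by omega⟩
  simp only [Nat.add_sub_cancel]
  rw [mul_pow]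
  ring

end Pool.Agent.V5helper78.KO
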