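import Pool.Agent.V5helper78.KO.Apw

/-!
# Lower bounds for the variances of linear functions
-/

set_option autoImplicit false

namespace Pool.Agent.V5helper78.KO

open MeasureTheory Set Filter Topology Metric
open scoped ENNReal InnerProductSpace
open Pool.Agent.R751.MB (Eu EW VW Adm LCn AP)
open Pool.Agent.N483.KM (PS)

theorem rad_second {k : ℕ} (hk : 1 ≤ k) {ψ : ℝ → ℝ} {m : ℝ} (hs : Scl k ψ m)
    (hfin : ∫⁻ r, ENNReal.ofReal (Real.exp (-ψ r)) ∂(rad k) ≠ ⊤) :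
    ENNReal.ofReal (m ^ 2 / 72) * ∫⁻ r, ENNReal.ofReal (Real.exp (-ψ r)) ∂(rad k) ≤
      ∫⁻ r, ENNReal.ofReal (r ^ 2) * ENNReal.ofReal (Real.exp (-ψ r)) ∂(rad k) := by
  have hm := hs.pos
  have hψm := hs.cont.measurable
  have hk0 : (0 : ℝ) < k := by exact_mod_cast hk
  set T := ∫⁻ r, ENNReal.ofReal (Real.exp (-ψ r)) ∂(rad k) with hT
  set s : ℝ := m / 6 with hsd
  have hs0 : 0 < s := by positivity
  set T1 := ∫⁻ r in Iic s, ENNReal.ofReal (Real.exp (-ψ r)) ∂(rad k) with hT1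
  set T2 := ∫⁻ r in Ioi s, ENNReal.ofReal (Real.exp (-ψ r)) ∂(rad k) with hT2
  have hsum : T = T1 + T2 := by
    rw [hT, hT1, hT2, ← lintegral_add_compl _ (measurableSet_Iic (a := s)), compl_Iic]
  have h1 : T1 ≤ ENNReal.ofReal (Real.exp (-ψ 0) * s ^ k) := by
    have e1 : (Iic s : Set ℝ) =ᵐ[rad k] Ioc 0 s := by
      filter_upwards [rad_ae_pos k] with r hr
      refine propext ⟨fun h => ⟨hr, h⟩, fun h => h.2⟩
    rw [hT1, setLIntegral_congr e1]
    calc _ ≤ ∫⁻ r in Ioc 0 s, ENNReal.ofReal (Real.exp (-ψ 0)) ∂(rad k) := by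
          refine setLIntegral_mono' measurableSet_Ioc fun r hr => ENNReal.ofReal_le_ofReal ?_
          exact Real.exp_le_exp.2 (neg_le_neg (hs.mono hr.1.le))
      _ = _ := by
          rw [setLIntegral_const, rad_Ioc k hk hs0.le, ← ENNReal.ofReal_mul (Real.exp_pos _).le]
  have h2 : ENNReal.ofReal (Real.exp (-(ψ 0 + k)) * m ^ k) ≤ T := by
    calc _ = ∫⁻ r in Ioc 0 m, ENNReal.ofReal (Real.exp (-(ψ 0 + k))) ∂(rad k) := by
          rw [setLIntegral_const, rad_Ioc k hk hm.le, ← ENNReal.ofReal_mul (Real.exp_pos _).le]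
      _ ≤ ∫⁻ r in Ioc 0 m, ENNReal.ofReal (Real.exp (-ψ r)) ∂(rad k) := by
          refine setLIntegral_mono' measurableSet_Ioc fun r hr => ENNReal.ofReal_le_ofReal ?_
          rw [← hs.eq]
          exact Real.exp_le_exp.2 (neg_le_neg (hs.mono hr.2))
      _ ≤ T := setLIntegral_le_lintegral _ _
  have h3 : 2 * (Real.exp (-ψ 0) * s ^ k) ≤ Real.exp (-(ψ 0 + k)) * m ^ k := by
    have e1 : m = 6 * s := by rw [hsd]; ring
    have e2 : Real.exp (-(ψ 0 + k)) = Real.exp (-ψ 0) * Real.exp (-k) := by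
      rw [← Real.exp_add]; congr 1; ring
    rw [e1, mul_pow, e2]
    have e3 : 2 ≤ Real.exp (-k) * 6 ^ k := by
      have e4 : Real.exp (-(k : ℝ)) * 6 ^ k = (Real.exp (-1) * 6) ^ k := by
        rw [mul_pow, ← Real.exp_nat_mul]
        congr 2
        ring
      rw [e4]
      have e5 : 2 ≤ Real.exp (-1) * 6 := by
        rw [Real.exp_neg, ← div_eq_inv_mul, le_div_iff₀ (Real.exp_pos _)]
        have := Real.exp_one_lt_three
        linarith
      calc (2 : ℝ) = 2 ^ 1 := (pow_one _).symm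
        _ ≤ 2 ^ k := pow_le_pow_right₀ (by norm_num) hk
        _ ≤ _ := pow_le_pow_left₀ (by norm_num) e5 k
    have e6 : 0 ≤ Real.exp (-ψ 0) * s ^ k := by positivity
    calc 2 * (Real.exp (-ψ 0) * s ^ k) ≤ (Real.exp (-k) * 6 ^ k) * (Real.exp (-ψ 0) * s ^ k) :=
          mul_le_mul_of_nonneg_right e3 e6
      _ = _ := by ring
  have h4 : 2 * T1 ≤ T := by
    refine le_trans ?_ h2
    refine (mul_le_mul_right h1 2).trans ?_
    rw [← ENNReal.ofReal_ofNat, ← ENNReal.ofReal_mul (by norm_num)]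
    exact ENNReal.ofReal_le_ofReal h3
  have hT1f : T1 ≠ ⊤ := ne_top_of_le_ne_top hfin (by rw [hsum]; exact le_self_add)
  have h5 : T1 ≤ T2 := by
    rw [hsum, two_mul] at h4
    exact (ENNReal.add_le_add_iff_left hT1f).1 h4
  have h6 : T ≤ 2 * T2 := by
    rw [hsum, two_mul]
    exact add_le_add_left h5 _
  have h7 : ENNReal.ofReal (s ^ 2) * T2 ≤
      ∫⁻ r, ENNReal.ofReal (r ^ 2) * ENNReal.ofReal (Real.exp (-ψ r)) ∂(rad k) := by
    refine le_trans ?_ (setLIntegral_le_lintegral (Ioi s) _)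
    rw [hT2, ← lintegral_const_mul _ (by fun_prop)]
    refine setLIntegral_mono' measurableSet_Ioi fun r hr => ?_
    have hr' : s < r := hr
    exact mul_le_mul_left (ENNReal.ofReal_le_ofReal (pow_le_pow_left₀ hs0.le hr'.le 2)) _
  refine le_trans ?_ h7
  refine (mul_le_mul_right h6 _).trans ?_
  rw [← mul_assoc]
  refine mul_le_mul_left ?_ _
  rw [← ENNReal.ofReal_ofNat, ← ENNReal.ofReal_mul (by positivity)]
  refine ENNReal.ofReal_le_ofReal (le_of_eq ?_)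
  rw [hsd]
  ring

section

variable {k : ℕ} {K : Set (Ek k)} {c₀ : ℝ} {ψ : ℝ → ℝ} {m : ℝ}

theorem gauge_var (hk : 1 ≤ k) (hK : Iso c₀ K) (hs : Scl k ψ m) (e : Ek k) :
    m ^ 2 / 72 * ‖e‖ ^ 2 ≤
      VW (fun x : Ek k => Real.exp (-ψ (gauge K x))) (fun x => ⟪x, e⟫_ℝ) := by
  have hadm := gauge_adm hk hK hs
  have hm := hs.pos
  have hk0 : (0 : ℝ) < k := by exact_mod_cast hk
  obtain ⟨P, θ, h⟩ := exists_polar hk hK.comp hK.conv hK.zero
  have hprob := h.prob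
  have hN := gauge_cont hK.conv hK.zero
  set w : Ek k → ℝ := fun x => Real.exp (-ψ (gauge K x)) with hw
  have hWm : Measurable fun r => ENNReal.ofReal (Real.exp (-ψ r)) := by
    have := hs.cont.measurable
    fun_prop
  have hZ := hadm.pos
  have hi0 := int_of_adm hadm
  have hwm : Measurable w := hadm.meas
  -- integrability
  have hi2 : Integrable fun x => ⟪x, e⟫_ℝ ^ 2 * w x := by
    refine Integrable.mono' (hadm.int.const_mul (‖e‖ ^ 2))
      ((by fun_prop : Continuous fun x : Ek k => ⟪x, e⟫_ℝ ^ 2).measurable.mul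
        hadm.meas).aestronglyMeasurable (Eventually.of_forall fun x => ?_)
    have h0 := hadm.nonneg x
    rw [Real.norm_of_nonneg (by positivity)]
    have h1 : ⟪x, e⟫_ℝ ^ 2 ≤ (‖x‖ * ‖e‖) ^ 2 := by
      rw [← sq_abs]
      exact pow_le_pow_left₀ (abs_nonneg _) (abs_real_inner_le_norm x e) 2
    calc ⟪x, e⟫_ℝ ^ 2 * w x ≤ (‖x‖ * ‖e‖) ^ 2 * w x := mul_le_mul_of_nonneg_right h1 h0
      _ ≤ ‖e‖ ^ 2 * ((1 + ‖x‖ ^ 2) * w x) := by
        have : 0 ≤ ‖e‖ ^ 2 * w x := by positivity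
        nlinarith
  have hi1 : Integrable fun x => ⟪x, e⟫_ℝ * w x := by
    refine Integrable.mono' (hi0.add hi2)
      ((by fun_prop : Continuous fun x : Ek k => ⟪x, e⟫_ℝ).measurable.mul
        hadm.meas).aestronglyMeasurable (Eventually.of_forall fun x => ?_)
    have h0 := hadm.nonneg x
    rw [norm_mul, Real.norm_of_nonneg h0, Real.norm_eq_abs]
    simp only [Pi.add_apply]
    have h1 : |⟪x, e⟫_ℝ| ≤ 1 + ⟪x, e⟫_ℝ ^ 2 := by
      rw [← sq_abs]
      nlinarith [sq_nonneg (|⟪x, e⟫_ℝ| - 1), abs_nonneg ⟪x, e⟫_ℝ]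
    calc |⟪x, e⟫_ℝ| * w x ≤ (1 + ⟪x, e⟫_ℝ ^ 2) * w x := mul_le_mul_of_nonneg_right h1 h0
      _ = _ := by ring
  -- the mean is zero
  have hmean : ∫ x, ⟪x, e⟫_ℝ * w x = 0 := by
    rw [integral_eq_lintegral_pos_part_sub_lintegral_neg_part hi1, sub_eq_zero]
    congr 1
    have e1 : ∀ x, ENNReal.ofReal (⟪x, e⟫_ℝ * w x) = ENNReal.ofReal ⟪x, e⟫_ℝ *
        (fun r => ENNReal.ofReal (Real.exp (-ψ r))) (gauge K x) := fun x =>
      ENNReal.ofReal_mul' (Real.exp_pos _).le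
    have e2 : ∀ x, ENNReal.ofReal (-(⟪x, e⟫_ℝ * w x)) = ENNReal.ofReal (-⟪x, e⟫_ℝ) *
        (fun r => ENNReal.ofReal (Real.exp (-ψ r))) (gauge K x) := fun x => by
      rw [← neg_mul]
      exact ENNReal.ofReal_mul' (Real.exp_pos _).le
    simp only [e1, e2]
    have e3 := hom h hN (F := fun x => ENNReal.ofReal ⟪x, e⟫_ℝ) (j := 1) (by fun_prop)
      (fun r hr x => by rw [real_inner_smul_left, ENNReal.ofReal_mul hr.le, pow_one]) hWm
    have e4 := hom h hN (F := fun x => ENNReal.ofReal (-⟪x, e⟫_ℝ)) (j := 1) (by fun_prop)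
      (fun r hr x => by
        rw [real_inner_smul_left, ← mul_neg, ENNReal.ofReal_mul hr.le, pow_one]) hWm
    rw [e3, e4, mom1 h hk hK]
  -- the second moment
  have hsec : ENNReal.ofReal (m ^ 2 / 72 * ‖e‖ ^ 2) * ∫⁻ x, ENNReal.ofReal (w x) ≤
      ∫⁻ x, ENNReal.ofReal (⟪x, e⟫_ℝ ^ 2 * w x) := by
    have e1 : ∀ x, ENNReal.ofReal (⟪x, e⟫_ℝ ^ 2 * w x) = ENNReal.ofReal (⟪x, e⟫_ℝ ^ 2) *
        (fun r => ENNReal.ofReal (Real.exp (-ψ r))) (gauge K x) := fun x =>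
      ENNReal.ofReal_mul (sq_nonneg _)
    have e2 : ∀ x, ENNReal.ofReal (w x) = 1 *
        (fun r => ENNReal.ofReal (Real.exp (-ψ r))) (gauge K x) := fun x => by
      rw [one_mul]
    simp only [e1]
    rw [lintegral_congr e2]
    have e3 := hom h hN (F := fun x => ENNReal.ofReal (⟪x, e⟫_ℝ ^ 2)) (j := 2) (by fun_prop)
      (fun r hr x => by
        rw [real_inner_smul_left, mul_pow, ENNReal.ofReal_mul (by positivity)]) hWm
    have e4 := pol_swap h hN (G := fun _ => 1) measurable_const hWm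
    rw [e3, e4, mom2 h hk hK]
    simp only [lintegral_one, measure_univ, one_mul]
    have e5 := rad_second hk hs (rad_fin hk hK hs)
    calc ENNReal.ofReal (m ^ 2 / 72 * ‖e‖ ^ 2) *
          (volume K * ∫⁻ r, ENNReal.ofReal (Real.exp (-ψ r)) ∂(rad k))
        = volume K * (ENNReal.ofReal (‖e‖ ^ 2) * (ENNReal.ofReal (m ^ 2 / 72) *
          ∫⁻ r, ENNReal.ofReal (Real.exp (-ψ r)) ∂(rad k))) := by
          rw [ENNReal.ofReal_mul (by positivity)]
          ring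
      _ ≤ _ := by
          refine mul_le_mul_right (mul_le_mul' (ENNReal.ofReal_le_ofReal ?_) e5) _
          have : (1 : ℝ) ≤ (k + 2) / k := by
            rw [le_div_iff₀ hk0]; linarith
          exact le_mul_of_one_le_left (sq_nonneg _) this
  rw [← ofReal_integral_eq_lintegral_ofReal hi0 (Eventually.of_forall hadm.nonneg),
    ← ofReal_integral_eq_lintegral_ofReal hi2
      (Eventually.of_forall fun y => mul_nonneg (sq_nonneg _) (hadm.nonneg y)),
    ← ENNReal.ofReal_mul (by positivity),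
    ENNReal.ofReal_le_ofReal_iff
      (integral_nonneg fun y => mul_nonneg (sq_nonneg _) (hadm.nonneg y))] at hsec
  unfold VW EW
  rw [hmean, zero_div, zero_pow (by norm_num), sub_zero, le_div_iff₀ hZ]
  exact hsec

end

/-- the Poincaré inequality in isotropic position -/
theorem gauge_AP : ∃ A : ℝ, 0 < A ∧ ∀ (c₀ : ℝ), 0 ≤ c₀ → ∀ (k : ℕ) (K : Set (Ek k)) (ψ : ℝ → ℝ),
    1 ≤ k → Iso c₀ K → ConvexOn ℝ univ ψ → Monotone ψ → (∃ ρ, 0 < ρ ∧ ψ 0 < ψ ρ) →
    AP (A * (c₀ + 1)) (fun x : Ek k => Real.exp (-ψ (gauge K x))) := by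
  obtain ⟨A, hA, H⟩ := gauge_PS
  refine ⟨72 * (51 + A), by positivity, fun c₀ hc₀ k K ψ hk hK hv hm hn => ?_⟩
  obtain ⟨m, hs⟩ := exists_scl hk hv hm hn
  have hmp := hs.pos
  refine Pool.Agent.N273.KM.t_CAP _ ((51 * c₀ + A) * m ^ 2) (m ^ 2 / 72) _ _ (by positivity)
    (by positivity) ?_ (H c₀ hc₀ k K ψ m hk hK hs) (gauge_var hk hK hs)
  have : 0 ≤ (51 + A * c₀) * m ^ 2 := by positivity
  nlinarith

end Pool.Agent.V5helper78.KO
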