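import Pool.Agent.V5helper78.KO.Bal

/-!
# Moments of the cone measure
-/

set_option autoImplicit false

namespace Pool.Agent.V5helper78.KO

open MeasureTheory Set Filter Topology Metric
open scoped ENNReal InnerProductSpace

theorem rad_mom (k j : ℕ) (hk : 1 ≤ k) :
    ∫⁻ r in Ioc (0 : ℝ) 1, ENNReal.ofReal (r ^ j) ∂(rad k) = ENNReal.ofReal (k / (k + j)) := by
  rw [← lintegral_indicator measurableSet_Ioc,
    lint_rad k _ ((by fun_prop : Measurable fun r : ℝ => ENNReal.ofReal (r ^ j)).indicator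
      measurableSet_Ioc)]
  have h1 : ∀ r ∈ Ioi (0 : ℝ), (Ioc (0 : ℝ) 1).indicator (fun r => ENNReal.ofReal (r ^ j)) r *
      ENNReal.ofReal (k * r ^ (k - 1)) =
      (Ioc (0 : ℝ) 1).indicator (fun r => ENNReal.ofReal (k * r ^ (k + j - 1))) r := by
    intro r hr
    have hr' : (0 : ℝ) < r := hr
    simp only [indicator]
    split_ifs
    · rw [← ENNReal.ofReal_mul (by positivity)]
      congr 1
      have : k + j - 1 = j + (k - 1) := by omega
      rw [this, pow_add]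
      ring
    · simp
  rw [setLIntegral_congr_fun measurableSet_Ioi h1, lintegral_indicator measurableSet_Ioc,
    Measure.restrict_restrict measurableSet_Ioc]
  have h2 : Ioc (0 : ℝ) 1 ∩ Ioi 0 = Ioc 0 1 := by
    ext x
    simp only [mem_inter_iff, mem_Ioc, mem_Ioi]
    tauto
  rw [h2, ← ofReal_integral_eq_lintegral_ofReal (Continuous.integrableOn_Ioc (by fun_prop))
    ((ae_restrict_iff' measurableSet_Ioc).2 (Eventually.of_forall fun x hx => by
      have := hx.1.le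
      simp only [Pi.zero_apply]
      positivity))]
  congr 1
  rw [← intervalIntegral.integral_of_le zero_le_one, intervalIntegral.integral_const_mul,
    integral_pow]
  have hk' : k + j - 1 + 1 = k + j := by omega
  rw [hk', zero_pow (by omega), sub_zero, one_pow]
  have : (((k + j - 1 : ℕ) : ℝ) + 1) = k + j := by
    rw [← Nat.cast_succ, Nat.succ_eq_add_one, hk']
    push_cast
    rfl
  rw [this]
  ring

section

variable {k : ℕ} {K : Set (Ek k)} {Ω : Type} [MeasurableSpace Ω] {P : Measure Ω} {θ : Ω → Ek k}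

theorem hom (h : Plr k K P θ) (hN : Continuous (gauge K)) {F : Ek k → ℝ≥0∞} (hF : Measurable F)
    {j : ℕ} (hj : ∀ r : ℝ, 0 < r → ∀ x, F (r • x) = ENNReal.ofReal (r ^ j) * F x)
    {W : ℝ → ℝ≥0∞} (hW : Measurable W) :
    ∫⁻ x, F x * W (gauge K x) = volume K * ((∫⁻ ω, F (θ ω) ∂P) *
      ∫⁻ r, ENNReal.ofReal (r ^ j) * W r ∂(rad k)) := by
  have hprob := h.prob
  have hm := h.meas
  rw [pol_swap h hN hF hW]
  congr 1
  rw [← lintegral_const_mul _ (by fun_prop)]
  refine lintegral_congr_ae ?_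
  filter_upwards [rad_ae_pos k] with r hr
  simp only [hj r hr]
  rw [lintegral_const_mul _ (by fun_prop)]
  ring

theorem hom_K (h : Plr k K P θ) (hk : 1 ≤ k) {c₀ : ℝ} (hK : Iso c₀ K) {F : Ek k → ℝ≥0∞}
    (hF : Measurable F) {j : ℕ}
    (hj : ∀ r : ℝ, 0 < r → ∀ x, F (r • x) = ENNReal.ofReal (r ^ j) * F x) :
    ∫⁻ x in K, F x = volume K * ((∫⁻ ω, F (θ ω) ∂P) * ENNReal.ofReal (k / (k + j))) := by
  have h1 : ∀ x, K.indicator F x = F x * (Iic (1 : ℝ)).indicator 1 (gauge K x) := by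
    intro x
    have := gauge_le_one hK.comp hK.conv hK.zero x
    by_cases hx : x ∈ K
    · rw [indicator_of_mem hx, indicator_of_mem (show gauge K x ∈ Iic (1 : ℝ) from this.2 hx)]
      simp
    · rw [indicator_of_notMem hx,
        indicator_of_notMem (fun hh : gauge K x ∈ Iic (1 : ℝ) => hx (this.1 hh))]
      simp
  rw [← lintegral_indicator hK.comp.measurableSet]
  simp only [h1]
  rw [hom h (gauge_cont hK.conv hK.zero) hF hj (measurable_one.indicator measurableSet_Iic)]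
  congr 2
  rw [← rad_mom k j hk, ← lintegral_indicator measurableSet_Ioc]
  refine lintegral_congr_ae ?_
  filter_upwards [rad_ae_pos k] with r hr
  simp only [indicator, mem_Iic, mem_Ioc, hr, true_and, Pi.one_apply]
  split_ifs <;> simp

theorem vol_pos' {c₀ : ℝ} (hK : Iso c₀ K) : volume K ≠ 0 := by
  refine (lt_of_lt_of_le ?_ (measure_mono interior_subset)).ne'
  exact isOpen_interior.measure_pos volume ⟨0, hK.zero⟩

theorem vol_top {c₀ : ℝ} (hK : Iso c₀ K) : volume K ≠ ⊤ := hK.comp.measure_lt_top.ne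

theorem mom1 (h : Plr k K P θ) (hk : 1 ≤ k) {c₀ : ℝ} (hK : Iso c₀ K) (e : Ek k) :
    ∫⁻ ω, ENNReal.ofReal ⟪θ ω, e⟫_ℝ ∂P = ∫⁻ ω, ENNReal.ofReal (-⟪θ ω, e⟫_ℝ) ∂P := by
  have hk0 : (0 : ℝ) < k := by exact_mod_cast hk
  have hi : IntegrableOn (fun x : Ek k => ⟪x, e⟫_ℝ) K :=
    (by fun_prop : Continuous fun x : Ek k => ⟪x, e⟫_ℝ).continuousOn.integrableOn_compact hK.comp
  have h1 := hK.mean e
  rw [integral_eq_lintegral_pos_part_sub_lintegral_neg_part hi] at h1
  have hf1 : ∫⁻ x in K, ENNReal.ofReal ⟪x, e⟫_ℝ ≠ ⊤ := by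
    refine ne_top_of_le_ne_top hi.2.ne (lintegral_mono fun x => ?_)
    rw [← ofReal_norm, Real.norm_eq_abs]
    exact ENNReal.ofReal_le_ofReal (le_abs_self _)
  have hf2 : ∫⁻ x in K, ENNReal.ofReal (-⟪x, e⟫_ℝ) ≠ ⊤ := by
    refine ne_top_of_le_ne_top hi.2.ne (lintegral_mono fun x => ?_)
    rw [← ofReal_norm, Real.norm_eq_abs]
    exact ENNReal.ofReal_le_ofReal (neg_le_abs _)
  have h2 : ∫⁻ x in K, ENNReal.ofReal ⟪x, e⟫_ℝ = ∫⁻ x in K, ENNReal.ofReal (-⟪x, e⟫_ℝ) :=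
    (ENNReal.toReal_eq_toReal_iff' hf1 hf2).1 (sub_eq_zero.1 h1)
  rw [hom_K h hk hK (F := fun x => ENNReal.ofReal ⟪x, e⟫_ℝ) (j := 1) (by fun_prop)
      (fun r hr x => by
        rw [real_inner_smul_left, ENNReal.ofReal_mul hr.le, pow_one]),
    hom_K h hk hK (F := fun x => ENNReal.ofReal (-⟪x, e⟫_ℝ)) (j := 1) (by fun_prop)
      (fun r hr x => by
        rw [real_inner_smul_left, ← mul_neg, ENNReal.ofReal_mul hr.le, pow_one])] at h2
  have h3 := (ENNReal.mul_right_inj (vol_pos' hK) (vol_top hK)).1 h2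
  exact (ENNReal.mul_left_inj (ENNReal.ofReal_pos.2 (by positivity)).ne'
    ENNReal.ofReal_ne_top).1 h3

theorem mom2 (h : Plr k K P θ) (hk : 1 ≤ k) {c₀ : ℝ} (hK : Iso c₀ K) (e : Ek k) :
    ∫⁻ ω, ENNReal.ofReal (⟪θ ω, e⟫_ℝ ^ 2) ∂P = ENNReal.ofReal ((k + 2) / k * ‖e‖ ^ 2) := by
  have hk0 : (0 : ℝ) < k := by exact_mod_cast hk
  have hi : IntegrableOn (fun x : Ek k => ⟪x, e⟫_ℝ ^ 2) K :=
    (by fun_prop : Continuous fun x : Ek k => ⟪x, e⟫_ℝ ^ 2).continuousOn.integrableOn_compact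
      hK.comp
  have h1 := congrArg ENNReal.ofReal (hK.cov e)
  rw [ofReal_integral_eq_lintegral_ofReal hi (Eventually.of_forall fun x => sq_nonneg _),
    hom_K h hk hK (F := fun x => ENNReal.ofReal (⟪x, e⟫_ℝ ^ 2)) (j := 2) (by fun_prop)
      (fun r hr x => by
        rw [real_inner_smul_left, mul_pow, ENNReal.ofReal_mul (by positivity)]),
    ENNReal.ofReal_mul measureReal_nonneg, ofReal_measureReal (vol_top hK)] at h1
  have h3 := (ENNReal.mul_right_inj (vol_pos' hK) (vol_top hK)).1 h1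
  have h4 : ENNReal.ofReal ((k + 2) / k * ‖e‖ ^ 2) * ENNReal.ofReal (k / (k + (2 : ℕ))) =
      ENNReal.ofReal (‖e‖ ^ 2) := by
    rw [← ENNReal.ofReal_mul (by positivity)]
    congr 1
    push_cast
    field_simp
  rw [← h4] at h3
  exact (ENNReal.mul_left_inj (ENNReal.ofReal_pos.2 (by positivity)).ne'
    ENNReal.ofReal_ne_top).1 h3

theorem mom3 (h : Plr k K P θ) (hk : 1 ≤ k) {c₀ : ℝ} (hK : Iso c₀ K) :
    ∫⁻ ω, ENNReal.ofReal (‖θ ω‖ ^ 2) ∂P = ENNReal.ofReal (k + 2) := by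
  have hk0 : (0 : ℝ) < k := by exact_mod_cast hk
  have hm := h.meas
  have h1 : ∀ ω, ENNReal.ofReal (‖θ ω‖ ^ 2) =
      ∑ i, ENNReal.ofReal (⟪θ ω, EuclideanSpace.basisFun (Fin k) ℝ i⟫_ℝ ^ 2) := by
    intro ω
    rw [← ENNReal.ofReal_sum_of_nonneg fun i _ => sq_nonneg _]
    congr 1
    rw [EuclideanSpace.norm_sq_eq]
    refine Finset.sum_congr rfl fun i _ => ?_
    rw [EuclideanSpace.basisFun_apply, EuclideanSpace.inner_single_right]
    simp
  simp only [h1]
  rw [lintegral_finsetSum _ fun i _ => by fun_prop]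
  rw [Finset.sum_congr rfl fun i _ => mom2 h hk hK _]
  rw [Finset.sum_congr rfl fun i _ => by
    rw [(EuclideanSpace.basisFun (Fin k) ℝ).norm_eq_one]]
  rw [Finset.sum_const, Finset.card_univ, Fintype.card_fin, nsmul_eq_mul,
    ← ENNReal.ofReal_natCast, ← ENNReal.ofReal_mul hk0.le]
  congr 1
  field_simp

end

/-- points of an isotropic body -/
theorem iso_norm {k : ℕ} (hk : 1 ≤ k) {c₀ : ℝ} {K : Set (Ek k)} (hK : Iso c₀ K) {x : Ek k}
    (hx : x ∈ K) : ‖x‖ ^ 2 ≤ 3 * (k + 1) ^ 2 := by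
  have hk0 : (0 : ℝ) < k := by exact_mod_cast hk
  have hV : 0 < volume.real K := by
    rw [measureReal_def]
    exact ENNReal.toReal_pos (vol_pos' hK) (vol_top hK)
  set t : ℝ := 1 / (k + 1) with ht
  have ht0 : 0 < t := by positivity
  have ht1 : 1 - t = k / (k + 1) := by
    rw [ht]; field_simp; ring
  have h1t : 0 < 1 - t := by rw [ht1]; positivity
  set G : Ek k → ℝ := K.indicator fun y => ⟪y, x⟫_ℝ ^ 2 with hG
  have hcont : Continuous fun y : Ek k => ⟪y, x⟫_ℝ ^ 2 := by fun_prop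
  have hcont1 : Continuous fun y : Ek k => ⟪y, x⟫_ℝ := by fun_prop
  have hGi : Integrable G := by
    rw [hG, integrable_indicator_iff hK.comp.measurableSet]
    exact hcont.continuousOn.integrableOn_compact hK.comp
  have hG1 : ∫ y, G y = volume.real K * ‖x‖ ^ 2 := by
    rw [hG, integral_indicator hK.comp.measurableSet, hK.cov]
  have hG2 : ∫ z, G ((1 - t) • z + t • x) = ((1 - t) ^ k)⁻¹ * ∫ y, G y := by
    have e1 := Measure.integral_comp_smul (volume : Measure (Ek k)) (fun y => G (y + t • x))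
      (1 - t)
    rw [e1, integral_add_right_eq_self (fun y => G y)]
    simp only [finrank_euclideanSpace, Fintype.card_fin, smul_eq_mul]
    rw [abs_of_pos (by positivity)]
  have hG2i : Integrable fun z => G ((1 - t) • z + t • x) := by
    have e1 : Integrable fun y => G (y + t • x) := hGi.comp_add_right _
    exact e1.comp_smul h1t.ne'
  have hmem : ∀ z ∈ K, (1 - t) • z + t • x ∈ K := fun z hz =>
    hK.conv hz hx h1t.le ht0.le (by ring)
  have hG3 : ∫ z in K, ((1 - t) * ⟪z, x⟫_ℝ + t * ‖x‖ ^ 2) ^ 2 ≤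
      ∫ z, G ((1 - t) • z + t • x) := by
    rw [← integral_indicator hK.comp.measurableSet]
    refine integral_mono ?_ hG2i fun z => ?_
    · rw [integrable_indicator_iff hK.comp.measurableSet]
      exact (by fun_prop : Continuous fun z : Ek k =>
        ((1 - t) * ⟪z, x⟫_ℝ + t * ‖x‖ ^ 2) ^ 2).continuousOn.integrableOn_compact hK.comp
    · simp only [indicator]
      split_ifs with hz
      · simp only [hG, indicator, if_pos (hmem z hz)]
        rw [inner_add_left, real_inner_smul_left, real_inner_smul_left,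
          real_inner_self_eq_norm_sq]
      · simp only [hG, indicator]
        split_ifs
        · positivity
        · exact le_rfl
  have hG4 : ∫ z in K, ((1 - t) * ⟪z, x⟫_ℝ + t * ‖x‖ ^ 2) ^ 2 =
      (1 - t) ^ 2 * (volume.real K * ‖x‖ ^ 2) + t ^ 2 * ‖x‖ ^ 4 * volume.real K := by
    have e1 : (fun z : Ek k => ((1 - t) * ⟪z, x⟫_ℝ + t * ‖x‖ ^ 2) ^ 2) = fun z =>
        ((1 - t) ^ 2 * ⟪z, x⟫_ℝ ^ 2 + 2 * (1 - t) * t * ‖x‖ ^ 2 * ⟪z, x⟫_ℝ) +
          t ^ 2 * ‖x‖ ^ 4 := by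
      funext z; ring
    have i1 : IntegrableOn (fun z : Ek k => ⟪z, x⟫_ℝ ^ 2) K :=
      hcont.continuousOn.integrableOn_compact hK.comp
    have i2 : IntegrableOn (fun z : Ek k => ⟪z, x⟫_ℝ) K :=
      hcont1.continuousOn.integrableOn_compact hK.comp
    have i3 : IntegrableOn (fun _ : Ek k => t ^ 2 * ‖x‖ ^ 4) K :=
      continuous_const.continuousOn.integrableOn_compact hK.comp
    have i4 : IntegrableOn (fun z : Ek k =>
        (1 - t) ^ 2 * ⟪z, x⟫_ℝ ^ 2 + 2 * (1 - t) * t * ‖x‖ ^ 2 * ⟪z, x⟫_ℝ) K :=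
      (i1.const_mul _).add (i2.const_mul _)
    rw [e1, integral_add i4 i3,
      integral_add (i1.const_mul _) (i2.const_mul _), integral_const_mul, integral_const_mul,
      hK.mean, hK.cov, setIntegral_const, smul_eq_mul]
    ring
  rw [hG2, hG1, hG4] at hG3
  have h5 : t ^ 2 * ‖x‖ ^ 4 * volume.real K ≤
      ((1 - t) ^ k)⁻¹ * (volume.real K * ‖x‖ ^ 2) := by
    have : 0 ≤ (1 - t) ^ 2 * (volume.real K * ‖x‖ ^ 2) := by positivity
    linarith
  have h6 : ((1 - t) ^ k)⁻¹ ≤ 3 := by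
    rw [ht1, ← inv_pow, inv_div]
    have e1 : ((k : ℝ) + 1) / k = 1 / k + 1 := by field_simp; ring
    rw [e1]
    have e2 : (1 / (k : ℝ) + 1) ^ k ≤ Real.exp (1 / k) ^ k :=
      pow_le_pow_left₀ (by positivity) (Real.add_one_le_exp _) k
    rw [← Real.exp_nat_mul] at e2
    have e3 : (k : ℝ) * (1 / k) = 1 := by field_simp
    rw [e3] at e2
    exact e2.trans Real.exp_one_lt_three.le
  have h7 : t ^ 2 * ‖x‖ ^ 4 ≤ 3 * ‖x‖ ^ 2 := by
    have e1 : ((1 - t) ^ k)⁻¹ * (volume.real K * ‖x‖ ^ 2) ≤ 3 * (volume.real K * ‖x‖ ^ 2) :=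
      mul_le_mul_of_nonneg_right h6 (by positivity)
    have e2 : t ^ 2 * ‖x‖ ^ 4 * volume.real K ≤ (3 * ‖x‖ ^ 2) * volume.real K := by
      refine (h5.trans e1).trans (le_of_eq (by ring))
    exact le_of_mul_le_mul_right e2 hV
  by_cases hx0 : ‖x‖ = 0
  · rw [hx0, zero_pow (by norm_num)]; positivity
  · have hxp : 0 < ‖x‖ ^ 2 := by
      have := lt_of_le_of_ne (norm_nonneg x) (Ne.symm hx0)
      positivity
    have e1 : t ^ 2 * ‖x‖ ^ 2 ≤ 3 := by
      refine le_of_mul_le_mul_right (a := ‖x‖ ^ 2) ?_ hxp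
      calc t ^ 2 * ‖x‖ ^ 2 * ‖x‖ ^ 2 = t ^ 2 * ‖x‖ ^ 4 := by ring
        _ ≤ _ := h7
    rw [ht, div_pow, one_pow, div_mul_eq_mul_div, one_mul, div_le_iff₀ (by positivity)] at e1
    exact e1

end Pool.Agent.V5helper78.KO
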