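import Pool.Agent.V5helper78.KO.Eng

/-!
# The blocks
-/

set_option autoImplicit false

namespace Pool.Agent.V5helper78.KO

open MeasureTheory Set Filter Topology Metric
open scoped ENNReal InnerProductSpace
open Pool.Agent.R754.KG (E un)
open Pool.Agent.Y506.PV (CcW ind)
open Pool.Agent.Y506.RG (Star)
open Pool.Agent.R751.MB (AP)
open Pool.Agent.R755.KF (PI)
open Pool.Agent.R755.KS (km_profile)
open Pool.Agent.N483.KM

theorem Pb.mono {A A' : ℝ} (h : A ≤ A') {k d : ℕ} {N : E k → E d} {G : Set (E d ≃ₗᵢ[ℝ] E d)}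
    (H : Pb A N G) : Pb A' N G :=
  ⟨H.cont, H.conv, fun Φ h1 h2 h3 => ap_mono h (H.ap Φ h1 h2 h3), H.onto, H.low, H.up⟩

theorem pb_plain {A : ℝ} {k : ℕ} {G : Set (E k ≃ₗᵢ[ℝ] E k)} (h : Gd A G) :
    Pb A (fun x : E k => x) G := by
  refine ⟨continuous_id, fun Φ hΦ _ => hΦ, fun Φ hΦ hinv hlow => ?_,
    fun y => ⟨y, LinearIsometryEquiv.refl ℝ _, Or.inr fun z => rfl, rfl⟩,
    ⟨1, one_pos, fun x => by rw [one_mul]⟩, ⟨1, one_pos, fun x => by rw [one_mul]⟩⟩
  obtain ⟨a, ha⟩ := hlow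
  have hc : Continuous Φ := continuousOn_univ.1 (hΦ.continuousOn isOpen_univ)
  refine h _ (Pool.Agent.N234.KM.adm_of_low hc a ha) (Pool.Agent.N234.KM.lcn_of_convex hΦ)
    (Real.continuous_exp.comp hc.neg) (fun x => Real.exp_pos _) fun g hg x => ?_
  rw [hinv g hg x]

/-- the profile of the gauge -/
noncomputable def gp {k : ℕ} (K : Set (E k)) (x : E k) : E 1 := EuclideanSpace.single 0 (gauge K x)

/-- the reflection of `ℝ^1` -/
noncomputable def ngs : Set (E 1 ≃ₗᵢ[ℝ] E 1) := {LinearIsometryEquiv.neg ℝ}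

theorem single_smul (ρ : ℝ) : (EuclideanSpace.single 0 ρ : E 1) = ρ • EuclideanSpace.single 0 1 := by
  ext i
  simp

theorem even_mono {F : ℝ → ℝ} (hF : ConvexOn ℝ univ F) (he : ∀ t, F (-t) = F t) {a b : ℝ}
    (ha : 0 ≤ a) (hab : a ≤ b) : F a ≤ F b := by
  rcases eq_or_lt_of_le (ha.trans hab) with hb | hb
  · have : a = b := le_antisymm hab (by linarith)
    rw [this]
  · have h2 : 0 ≤ (1 - a / b) / 2 := by
      have : a / b ≤ 1 := (div_le_one hb).2 hab
      linarith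
    have h3 : 0 ≤ (1 + a / b) / 2 := by positivity
    have h1 := hF.2 (mem_univ (-b)) (mem_univ b) h2 h3 (by ring)
    simp only [smul_eq_mul, he] at h1
    have e1 : (1 - a / b) / 2 * -b + (1 + a / b) / 2 * b = a := by field_simp; ring
    rw [e1] at h1
    linarith

theorem conv_max {F : ℝ → ℝ} (hF : ConvexOn ℝ univ F) (he : ∀ t, F (-t) = F t) :
    ConvexOn ℝ univ fun ρ => F (max ρ 0) := by
  refine ⟨convex_univ, fun x _ y _ a b ha hb hab => ?_⟩
  simp only [smul_eq_mul]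
  have h1 : max (a * x + b * y) 0 ≤ a * max x 0 + b * max y 0 := by
    refine max_le ?_ (by positivity)
    exact add_le_add (mul_le_mul_of_nonneg_left (le_max_left _ _) ha)
      (mul_le_mul_of_nonneg_left (le_max_left _ _) hb)
  refine (even_mono hF he (le_max_right _ _) h1).trans ?_
  exact hF.2 (mem_univ _) (mem_univ _) ha hb hab

theorem pb_gauge (c₀ : ℝ) : ∃ A : ℝ, 0 < A ∧ ∀ (k : ℕ) (K : Set (E k)), 1 ≤ k → PI c₀ K →
    (∀ θ : E k, ∫ x in K, ⟪x, θ⟫_ℝ = 0) → Pb A (gp K) ngs := by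
  obtain ⟨A, hA, H⟩ := gauge_AP' c₀
  refine ⟨A, hA, fun k K hk hK hm => ?_⟩
  have h0 : (0 : E k) ∈ interior K := zero_mem hK.comp hK.conv hK.int hm
  have hN := gauge_cont hK.conv h0
  have habs : Absorbent ℝ K := absorbent_nhds_zero (mem_interior_iff_mem_nhds.1 h0)
  have hFn : ∀ Φ : E 1 → ℝ, (∀ g ∈ ngs, ∀ y, Φ (g y) = Φ y) → ∀ t : ℝ,
      Φ ((-t) • EuclideanSpace.single 0 1) = Φ (t • EuclideanSpace.single 0 1) := by
    intro Φ hinv t
    have h1 := hinv _ (mem_singleton _) (t • (EuclideanSpace.single 0 1 : E 1))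
    rw [← h1, neg_smul]
    rfl
  have hFc : ∀ Φ : E 1 → ℝ, ConvexOn ℝ univ Φ →
      ConvexOn ℝ univ fun t : ℝ => Φ (t • EuclideanSpace.single 0 1) := by
    intro Φ hΦ
    refine ⟨convex_univ, fun x _ y _ a b ha hb hab => ?_⟩
    have h1 := hΦ.2 (mem_univ (x • (EuclideanSpace.single 0 1 : E 1)))
      (mem_univ (y • (EuclideanSpace.single 0 1 : E 1))) ha hb hab
    refine le_trans (le_of_eq ?_) h1
    rw [smul_smul, smul_smul, ← add_smul]
    rfl
  have hgp : ∀ (Φ : E 1 → ℝ) (x : E k), Φ (gp K x) =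
      (fun ρ => Φ (max ρ 0 • EuclideanSpace.single 0 1)) (gauge K x) := by
    intro Φ x
    simp only
    rw [max_eq_left (gauge_nonneg x)]
    unfold gp
    rw [single_smul]
  have hnorm : ∀ x : E k, ‖gp K x‖ = gauge K x := by
    intro x
    unfold gp
    rw [PiLp.norm_single, Real.norm_of_nonneg (gauge_nonneg x)]
  refine ⟨?_, fun Φ hΦ hinv => ?_, fun Φ hΦ hinv hlow => ?_, fun y => ?_, ?_, ?_⟩
  · have h1 : Continuous fun x : E k => gauge K x • (EuclideanSpace.single 0 1 : E 1) :=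
      hN.smul continuous_const
    refine h1.congr fun x => ?_
    unfold gp
    exact (single_smul _).symm
  · simp only [hgp]
    have hF := hFc Φ hΦ
    have he := hFn Φ hinv
    refine ⟨convex_univ, fun x _ y _ a b ha hb hab => ?_⟩
    simp only [smul_eq_mul]
    have h1 : gauge K (a • x + b • y) ≤ a * gauge K x + b * gauge K y := by
      refine (gauge_add_le hK.conv habs _ _).trans ?_
      rw [gauge_smul_of_nonneg ha, gauge_smul_of_nonneg hb, smul_eq_mul, smul_eq_mul]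
    have h2 := gauge_nonneg (s := K) x
    have h3 := gauge_nonneg (s := K) y
    rw [max_eq_left (gauge_nonneg _), max_eq_left h2, max_eq_left h3]
    refine (even_mono hF he (gauge_nonneg _) h1).trans ?_
    exact hF.2 (mem_univ _) (mem_univ _) ha hb hab
  · simp only [hgp]
    have hF := hFc Φ hΦ
    have he := hFn Φ hinv
    refine H k K (fun ρ => Φ (max ρ 0 • EuclideanSpace.single 0 1)) hk hK hm
      (conv_max hF he) (fun s t hst => ?_) ?_
    · exact even_mono hF he (le_max_right _ _) (max_le_max_right 0 hst)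
    · obtain ⟨a, ha⟩ := hlow
      refine ⟨|Φ 0| + |a| + 1, by positivity, ?_⟩
      rw [max_self, zero_smul, max_eq_left (by positivity : (0 : ℝ) ≤ |Φ 0| + |a| + 1)]
      refine lt_of_lt_of_le ?_ (ha _)
      rw [norm_smul, PiLp.norm_single, norm_one, mul_one,
        Real.norm_of_nonneg (by positivity)]
      have h1 := le_abs_self (Φ 0)
      have h2 := le_abs_self a
      linarith
  · have : Nonempty (Fin k) := ⟨⟨0, hk⟩⟩
    obtain ⟨v, hv⟩ := exists_ne (0 : E k)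
    have hgv : 0 < gauge K v := (gauge_posi hK.comp h0).2 hv
    refine ⟨(|y 0| / gauge K v) • v, ?_⟩
    have h1 : gauge K ((|y 0| / gauge K v) • v) = |y 0| := by
      rw [gauge_smul_of_nonneg (by positivity), smul_eq_mul, div_mul_cancel₀ _ hgv.ne']
    have h2 : gp K ((|y 0| / gauge K v) • v) = EuclideanSpace.single 0 |y 0| := by
      unfold gp
      rw [h1]
    rcases le_total 0 (y 0) with hy | hy
    · refine ⟨LinearIsometryEquiv.refl ℝ _, Or.inr fun z => rfl, ?_⟩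
      rw [h2, abs_of_nonneg hy]
      ext i
      rw [Subsingleton.elim i 0]
      simp
    · refine ⟨LinearIsometryEquiv.neg ℝ, Or.inl (mem_singleton _), ?_⟩
      rw [h2, abs_of_nonpos hy]
      ext i
      rw [Subsingleton.elim i 0]
      simp
  · obtain ⟨R, hR, hKR⟩ := hK.comp.isBounded.subset_closedBall_lt 0 0
    refine ⟨R⁻¹, by positivity, fun x => ?_⟩
    rw [hnorm, inv_mul_eq_div]
    exact le_gauge_of_subset_closedBall habs hR.le hKR
  · obtain ⟨ε, hε, hεK⟩ := Metric.mem_nhds_iff.1 (mem_interior_iff_mem_nhds.1 h0)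
    refine ⟨ε⁻¹, by positivity, fun x => ?_⟩
    rw [hnorm, inv_mul_eq_div, le_div_iff₀ hε, mul_comm]
    exact mul_gauge_le_norm hεK

/-- images of the bodies -/
theorem eng_star (r p : ℕ) (A : ℝ) (hA : 0 < A) : ∃ c : ℝ, 0 < c ∧
    ∀ (B m n : ℕ) (k d : Fin B → ℕ) (N : ∀ i, E (k i) → E (d i))
    (G : ∀ i, Set (E (d i) ≃ₗᵢ[ℝ] E (d i))) (L : E m ≃ₗ[ℝ] (∀ i, E (k i)))
    (V : Fin r → ∀ i, E (d i) → EReal) (e : Fin r → ℝ) (K : Set (E m)) (T : E m →ₗ[ℝ] E n)
    (w : E n), (∀ i, Pb A (N i) (G i)) →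
    (∀ j i, XF (V j i)) → (∀ i, ∀ g ∈ G i, ∀ j x, V j i (g x) = V j i x) →
    K = {x : E m | ∀ j, ∑ i, V j i (N i (L x i)) ≤ (e j : EReal)} → Bornology.IsBounded K →
    (interior K).Nonempty → m ≤ n + p → Function.Surjective T →
    IsCompact ((fun x => w + T x) '' K) ∧ Convex ℝ ((fun x => w + T x) '' K) ∧
    (interior ((fun x => w + T x) '' K)).Nonempty ∧ Star c (ind ((fun x => w + T x) '' K)) := by
  obtain ⟨A', -, H⟩ := km_profile (P := fun m K => ∃ (B : ℕ) (k d : Fin B → ℕ)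
      (N : ∀ i, E (k i) → E (d i)) (G : ∀ i, Set (E (d i) ≃ₗᵢ[ℝ] E (d i)))
      (L : E m ≃ₗ[ℝ] (∀ i, E (k i))) (V : Fin r → ∀ i, E (d i) → EReal) (e : Fin r → ℝ),
      (∀ i, Pb A (N i) (G i)) ∧ (∀ j i, XF (V j i)) ∧
      (∀ i, ∀ g ∈ G i, ∀ j x, V j i (g x) = V j i x) ∧
      K = {x : E m | ∀ j, ∑ i, V j i (N i (L x i)) ≤ (e j : EReal)} ∧ Bornology.IsBounded K ∧
      (interior K).Nonempty) (fun δ hδ => by
    obtain ⟨κ, hκ, H⟩ := eng_cc r A δ hA hδ
    refine ⟨κ, hκ, ?_⟩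
    rintro m K ⟨B, k, d, N, G, L, V, e, h1, h2, h3, h4, h5, h6⟩
    exact H B m k d N G L V e K h1 h2 h3 h4 h5 h6)
  obtain ⟨c, hc, Hc⟩ := cyR cclR A' 1 1 one_pos one_pos 0 p 1
  refine ⟨c, hc, fun B m n k d N G L V e K T w h1 h2 h3 h4 h5 h6 hm hT => ?_⟩
  obtain ⟨a1, a2, a3, a4⟩ := H m K ⟨B, k, d, N, G, L, V, e, h1, h2, h3, h4, h5, h6⟩
  exact Hc _ _ (.image _ _ _ _ T w hm hT (.base _ _ a1 a2 a3 a4))

end Pool.Agent.V5helper78.KO
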