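import Mathlib

/-!
# Polar coordinates for the gauge of a convex body
-/

set_option autoImplicit false

namespace Pool.Agent.V5helper78.KO

open MeasureTheory Set Filter Topology Metric
open scoped ENNReal InnerProductSpace

/-- Euclidean space -/
abbrev Ek (k : ℕ) : Type := EuclideanSpace ℝ (Fin k)

/-- the measure `k r ^ (k - 1) dr` on the half-line -/
noncomputable def rad (k : ℕ) : Measure ℝ :=
  (volume.restrict (Ioi (0 : ℝ))).withDensity fun r => ENNReal.ofReal (k * r ^ (k - 1))

theorem lint_scale {c : ℝ} (hc : 0 < c) (G : ℝ → ℝ≥0∞) :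
    ∫⁻ r in Ioi (0 : ℝ), G r = ENNReal.ofReal c * ∫⁻ s in Ioi (0 : ℝ), G (c * s) := by
  rw [← lintegral_indicator measurableSet_Ioi, ← lintegral_indicator measurableSet_Ioi]
  have h1 := Real.map_volume_mul_left hc.ne'
  have h2 : ∫⁻ s : ℝ, (Ioi (0 : ℝ)).indicator G s ∂(Measure.map (c * ·) volume) =
      ∫⁻ s : ℝ, (Ioi (0 : ℝ)).indicator (fun s => G (c * s)) s := by
    rw [show (fun s : ℝ => c * s) = ⇑(MeasurableEquiv.mulLeft₀ c hc.ne') from rfl,
      lintegral_map_equiv]
    refine lintegral_congr fun s => ?_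
    simp only [MeasurableEquiv.coe_mulLeft₀, indicator, mem_Ioi]
    by_cases hs : 0 < s
    · rw [if_pos hs, if_pos (mul_pos hc hs)]
    · rw [if_neg hs, if_neg (by
        push Not at hs ⊢
        exact mul_nonpos_of_nonneg_of_nonpos hc.le hs)]
  rw [h1, lintegral_smul_measure, smul_eq_mul, abs_of_pos (inv_pos.2 hc)] at h2
  rw [← h2, ← mul_assoc, ← ENNReal.ofReal_mul hc.le, mul_inv_cancel₀ hc.ne', ENNReal.ofReal_one,
    one_mul]

theorem lint_polar (k : ℕ) (hk : 1 ≤ k) (F : Ek k → ℝ≥0∞) (hF : Measurable F) :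
    ∫⁻ x, F x = ∫⁻ ω : sphere (0 : Ek k) 1, (∫⁻ r in Ioi (0 : ℝ), F (r • (ω : Ek k)) *
      ENNReal.ofReal (r ^ (k - 1))) ∂(volume : Measure (Ek k)).toSphere := by
  have hnt : Nontrivial (Ek k) := by
    have : Nonempty (Fin k) := ⟨⟨0, hk⟩⟩
    infer_instance
  have hdim : Module.finrank ℝ (Ek k) = k := by simp
  have hms : Measurable fun p : sphere (0 : Ek k) 1 × Ioi (0 : ℝ) =>
      F ((p.2 : ℝ) • (p.1 : Ek k)) := by fun_prop
  calc ∫⁻ x, F x = ∫⁻ x : ({(0 : Ek k)}ᶜ : Set (Ek k)), F x.1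
        ∂((volume : Measure (Ek k)).comap (↑)) := by
        rw [lintegral_subtype_comap (measurableSet_singleton _).compl F,
          restrict_compl_singleton]
    _ = ∫⁻ p, F ((p.2 : ℝ) • (p.1 : Ek k)) ∂((volume : Measure (Ek k)).toSphere.prod
            (.volumeIoiPow (Module.finrank ℝ (Ek k) - 1))) := by
        have h := (volume : Measure (Ek k)).measurePreserving_homeomorphUnitSphereProd.lintegral_comp
          hms
        rw [← h]
        refine lintegral_congr fun x => ?_
        congr 1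
        simp only [homeomorphUnitSphereProd_apply_snd_coe, homeomorphUnitSphereProd_apply_fst_coe]
        rw [smul_smul, mul_inv_cancel₀ (norm_ne_zero_iff.2 x.2), one_smul]
    _ = ∫⁻ ω : sphere (0 : Ek k) 1, (∫⁻ r : Ioi (0 : ℝ), F ((r : ℝ) • (ω : Ek k))
          ∂(Measure.volumeIoiPow (k - 1))) ∂(volume : Measure (Ek k)).toSphere := by
        rw [hdim, lintegral_prod _ hms.aemeasurable]
    _ = _ := by
        refine lintegral_congr fun ω => ?_
        unfold Measure.volumeIoiPow
        have hm1 : Measurable fun r : Ioi (0 : ℝ) => ENNReal.ofReal ((r : ℝ) ^ (k - 1)) := by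
          fun_prop
        have hm2 : Measurable fun r : Ioi (0 : ℝ) => F ((r : ℝ) • (ω : Ek k)) := by fun_prop
        rw [lintegral_withDensity_eq_lintegral_mul _ hm1 hm2]
        have h3 := lintegral_subtype_comap (μ := (volume : Measure ℝ)) (s := Ioi (0 : ℝ))
          measurableSet_Ioi (fun r : ℝ => F (r • (ω : Ek k)) * ENNReal.ofReal (r ^ (k - 1)))
        rw [← h3]
        refine lintegral_congr fun r => ?_
        simp only [Pi.mul_apply]
        rw [mul_comm]

theorem lint_rad (k : ℕ) (G : ℝ → ℝ≥0∞) (hG : Measurable G) :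
    ∫⁻ r, G r ∂(rad k) = ∫⁻ r in Ioi (0 : ℝ), G r * ENNReal.ofReal (k * r ^ (k - 1)) := by
  unfold rad
  have hm : Measurable fun r : ℝ => ENNReal.ofReal ((k : ℝ) * r ^ (k - 1)) := by fun_prop
  rw [lintegral_withDensity_eq_lintegral_mul _ hm hG]
  refine lintegral_congr fun r => ?_
  simp only [Pi.mul_apply]
  rw [mul_comm]

instance rad_sfin (k : ℕ) : SFinite (rad k) := by
  unfold rad
  infer_instance

theorem rad_Iic0 (k : ℕ) : rad k (Iic 0) = 0 := by
  unfold rad
  rw [withDensity_apply _ measurableSet_Iic, Measure.restrict_restrict measurableSet_Iic]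
  have : Iic (0 : ℝ) ∩ Ioi 0 = ∅ := by
    ext x; simp
  rw [this, Measure.restrict_empty, lintegral_zero_measure]

theorem rad_ae_pos (k : ℕ) : ∀ᵐ r ∂(rad k), 0 < r := by
  have h := rad_Iic0 k
  rw [ae_iff]
  convert h using 2
  ext x
  simp

theorem rad_single (k : ℕ) (r : ℝ) : rad k {r} = 0 := by
  have h : rad k ≪ volume :=
    (withDensity_absolutelyContinuous _ _).trans Measure.absolutelyContinuous_restrict
  exact h (measure_singleton r)

/-- the measure of intervals -/
theorem rad_Ioc (k : ℕ) (hk : 1 ≤ k) {r : ℝ} (hr : 0 ≤ r) :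
    rad k (Ioc 0 r) = ENNReal.ofReal (r ^ k) := by
  unfold rad
  rw [withDensity_apply _ measurableSet_Ioc, Measure.restrict_restrict measurableSet_Ioc]
  have h1 : Ioc (0 : ℝ) r ∩ Ioi 0 = Ioc 0 r := by
    ext x
    simp only [mem_inter_iff, mem_Ioc, mem_Ioi]
    tauto
  rw [h1]
  rw [← ofReal_integral_eq_lintegral_ofReal]
  · congr 1
    rw [← intervalIntegral.integral_of_le hr, intervalIntegral.integral_const_mul, integral_pow]
    have hk' : k - 1 + 1 = k := by omega
    rw [hk', zero_pow (by omega), sub_zero]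
    have : (((k - 1 : ℕ) : ℝ) + 1) = k := by
      rw [← Nat.cast_succ, Nat.succ_eq_add_one, hk']
    rw [this]
    have hk0 : (k : ℝ) ≠ 0 := by
      have : 0 < k := hk
      positivity
    field_simp
  · exact (Continuous.integrableOn_Ioc (by fun_prop))
  · refine (ae_restrict_iff' measurableSet_Ioc).2 (Eventually.of_forall fun x hx => ?_)
    have := hx.1.le
    simp only [Pi.zero_apply]
    positivity

/-- polar coordinates with respect to `K` -/
structure Plr (k : ℕ) (K : Set (Ek k)) {Ω : Type} [MeasurableSpace Ω] (P : Measure Ω)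
    (θ : Ω → Ek k) : Prop where
  meas : Measurable θ
  prob : IsProbabilityMeasure P
  one : ∀ ω, gauge K (θ ω) = 1
  lint : ∀ F : Ek k → ℝ≥0∞, Measurable F →
    ∫⁻ x, F x = volume K * ∫⁻ ω, ∫⁻ r, F (r • θ ω) ∂(rad k) ∂P

theorem gauge_cont {k : ℕ} {K : Set (Ek k)} (hKv : Convex ℝ K) (h0 : (0 : Ek k) ∈ interior K) :
    Continuous (gauge K) :=
  continuous_gauge hKv (mem_interior_iff_mem_nhds.1 h0)

theorem gauge_posi {k : ℕ} {K : Set (Ek k)} (hKc : IsCompact K) (h0 : (0 : Ek k) ∈ interior K)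
    {x : Ek k} : 0 < gauge K x ↔ x ≠ 0 :=
  gauge_pos (absorbent_nhds_zero (mem_interior_iff_mem_nhds.1 h0))
    (NormedSpace.isVonNBounded_iff ℝ |>.2 hKc.isBounded)

theorem gauge_le_one {k : ℕ} {K : Set (Ek k)} (hKc : IsCompact K) (hKv : Convex ℝ K)
    (h0 : (0 : Ek k) ∈ interior K) (x : Ek k) : gauge K x ≤ 1 ↔ x ∈ K := by
  rw [gauge_le_one_iff_mem_closure hKv (mem_interior_iff_mem_nhds.1 h0),
    hKc.isClosed.closure_eq]

theorem exists_polar {k : ℕ} (hk : 1 ≤ k) {K : Set (Ek k)} (hKc : IsCompact K)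
    (hKv : Convex ℝ K) (h0 : (0 : Ek k) ∈ interior K) :
    ∃ (P : Measure (sphere (0 : Ek k) 1)) (θ : sphere (0 : Ek k) 1 → Ek k), Plr k K P θ := by
  have hNc := gauge_cont hKv h0
  have hNp : ∀ ω : sphere (0 : Ek k) 1, 0 < gauge K (ω : Ek k) := fun ω =>
    (gauge_posi hKc h0).2 (ne_zero_of_mem_unit_sphere ω)
  have hk0 : (0 : ℝ) < k := by exact_mod_cast hk
  set σ : Measure (sphere (0 : Ek k) 1) := (volume : Measure (Ek k)).toSphere with hσ
  set D : sphere (0 : Ek k) 1 → ℝ≥0∞ := fun ω =>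
    ENNReal.ofReal ((gauge K (ω : Ek k) ^ k)⁻¹ / k) with hD
  have hDm : Measurable D := by
    have : Measurable fun ω : sphere (0 : Ek k) 1 => gauge K (ω : Ek k) :=
      hNc.measurable.comp measurable_subtype_coe
    fun_prop
  set θ : sphere (0 : Ek k) 1 → Ek k := fun ω => (gauge K (ω : Ek k))⁻¹ • (ω : Ek k) with hθ
  have hθm : Measurable θ := by
    have : Measurable fun ω : sphere (0 : Ek k) 1 => gauge K (ω : Ek k) :=
      hNc.measurable.comp measurable_subtype_coe
    fun_prop
  have key : ∀ F : Ek k → ℝ≥0∞, Measurable F →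
      ∫⁻ x, F x = ∫⁻ ω, ∫⁻ r, F (r • θ ω) ∂(rad k) ∂(σ.withDensity D) := by
    intro F hF
    rw [lint_polar k hk F hF]
    have hm1 : Measurable fun ω : sphere (0 : Ek k) 1 => ∫⁻ r, F (r • θ ω) ∂(rad k) := by
      refine Measurable.lintegral_prod_right' (f := fun p : sphere (0 : Ek k) 1 × ℝ =>
        F (p.2 • θ p.1)) ?_
      fun_prop
    rw [lintegral_withDensity_eq_lintegral_mul _ hDm hm1]
    refine lintegral_congr fun ω => ?_
    simp only [Pi.mul_apply]
    have hN := hNp ω
    rw [lint_rad k _ (by fun_prop), lint_scale (inv_pos.2 hN), hD]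
    simp only
    rw [← lintegral_const_mul _ (by fun_prop), ← lintegral_const_mul _ (by fun_prop)]
    refine setLIntegral_congr_fun measurableSet_Ioi fun r hr => ?_
    simp only [hθ]
    have hr' : (0 : ℝ) < r := hr
    rw [smul_smul, mul_comm r, ← mul_assoc, mul_comm _ (F _), ← mul_assoc, mul_comm _ (F _),
      mul_assoc, mul_assoc, ← ENNReal.ofReal_mul (by positivity),
      ← ENNReal.ofReal_mul (by positivity)]
    congr 2
    have e1 : gauge K (ω : Ek k) ^ k = gauge K (ω : Ek k) ^ (k - 1) * gauge K (ω : Ek k) := by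
      rw [← pow_succ]
      congr 1
      omega
    rw [e1, mul_pow, inv_pow]
    field_simp
  have hV : (σ.withDensity D) univ = volume K := by
    have h1 := key (K.indicator 1) (measurable_one.indicator hKc.measurableSet)
    rw [lintegral_indicator_one hKc.measurableSet] at h1
    rw [h1]
    have h2 : ∀ ω, ∫⁻ r, K.indicator 1 (r • θ ω) ∂(rad k) = 1 := by
      intro ω
      have hN := hNp ω
      have h3 : ∀ᵐ r ∂(rad k), K.indicator (1 : Ek k → ℝ≥0∞) (r • θ ω) =
          (Ioc (0 : ℝ) 1).indicator 1 r := by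
        filter_upwards [rad_ae_pos k] with r hr
        have e1 : gauge K (r • θ ω) = r := by
          rw [gauge_smul_of_nonneg hr.le, hθ]
          simp only
          rw [gauge_smul_of_nonneg (inv_nonneg.2 hN.le), smul_eq_mul, smul_eq_mul,
            inv_mul_cancel₀ hN.ne', mul_one]
        have e2 : r • θ ω ∈ K ↔ r ≤ 1 := by
          rw [← gauge_le_one hKc hKv h0, e1]
        simp only [indicator, e2, mem_Ioc, hr, true_and, Pi.one_apply]
      rw [lintegral_congr_ae h3, lintegral_indicator_one measurableSet_Ioc,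
        rad_Ioc k hk zero_le_one]
      simp
    simp only [h2, lintegral_one]
  have hV0 : volume K ≠ 0 := by
    refine (lt_of_lt_of_le ?_ (measure_mono interior_subset)).ne'
    exact isOpen_interior.measure_pos volume ⟨0, h0⟩
  have hVt : volume K ≠ ⊤ := hKc.measure_lt_top.ne
  refine ⟨(volume K)⁻¹ • (σ.withDensity D), θ, hθm, ⟨?_⟩, ?_, ?_⟩
  · rw [Measure.smul_apply, hV, smul_eq_mul, ENNReal.inv_mul_cancel hV0 hVt]
  · intro ω
    rw [hθ]
    simp only
    rw [gauge_smul_of_nonneg (inv_nonneg.2 (hNp ω).le), smul_eq_mul,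
      inv_mul_cancel₀ (hNp ω).ne']
  · intro F hF
    rw [lintegral_smul_measure, smul_eq_mul, ← mul_assoc, ENNReal.mul_inv_cancel hV0 hVt, one_mul,
      key F hF]

end Pool.Agent.V5helper78.KO
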