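import Pool.Agent.V5helper78.KO.Tail

/-!
# Facts on convex nondecreasing potentials
-/

set_option autoImplicit false

namespace Pool.Agent.V5helper78.KO

open MeasureTheory Set Filter Topology Metric
open scoped ENNReal InnerProductSpace

/-- the scale of the potential `ψ` in dimension `k` -/
structure Scl (k : ℕ) (ψ : ℝ → ℝ) (m : ℝ) : Prop where
  conv : ConvexOn ℝ univ ψ
  mono : Monotone ψ
  pos : 0 < m
  eq : ψ m = ψ 0 + k

theorem exists_scl {k : ℕ} (hk : 1 ≤ k) {ψ : ℝ → ℝ} (hv : ConvexOn ℝ univ ψ) (hm : Monotone ψ)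
    (hn : ∃ ρ, 0 < ρ ∧ ψ 0 < ψ ρ) : ∃ m, Scl k ψ m := by
  obtain ⟨ρ, hρ, hψ⟩ := hn
  have hk0 : (0 : ℝ) < k := by exact_mod_cast hk
  have hc : Continuous ψ := continuousOn_univ.1 (hv.continuousOn isOpen_univ)
  set s : ℝ := 1 + k / (ψ ρ - ψ 0) with hs
  have hd : 0 < ψ ρ - ψ 0 := by linarith
  have hs1 : 1 ≤ s := by
    have : 0 ≤ k / (ψ ρ - ψ 0) := by positivity
    linarith
  have h1 : ψ 0 + k ≤ ψ (s * ρ) := by
    have ha : 0 ≤ 1 - 1 / s := by
      rw [sub_nonneg, div_le_one (by linarith)]; exact hs1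
    have hb : 0 ≤ 1 / s := by positivity
    have h2 := hv.2 (mem_univ 0) (mem_univ (s * ρ)) ha hb (by ring)
    simp only [smul_eq_mul, mul_zero, zero_add] at h2
    have e1 : 1 / s * (s * ρ) = ρ := by field_simp
    rw [e1] at h2
    have h3 := mul_le_mul_of_nonneg_left h2 (by linarith : 0 ≤ s)
    have e2 : s * ((1 - 1 / s) * ψ 0 + 1 / s * ψ (s * ρ)) = s * ψ 0 - ψ 0 + ψ (s * ρ) := by
      field_simp
    rw [e2] at h3
    have h4 : s * (ψ ρ - ψ 0) = (ψ ρ - ψ 0) + k := by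
      rw [hs]; field_simp
    nlinarith
  have h2 := intermediate_value_Icc (by positivity : (0 : ℝ) ≤ s * ρ) hc.continuousOn
  obtain ⟨m, hmem, he⟩ := h2 ⟨(by linarith : ψ 0 ≤ ψ 0 + k), h1⟩
  refine ⟨m, hv, hm, ?_, he⟩
  rcases eq_or_lt_of_le hmem.1 with h | h
  · rw [← h] at he; linarith
  · exact h

namespace Scl

variable {k : ℕ} {ψ : ℝ → ℝ} {m : ℝ}

theorem cont (h : Scl k ψ m) : Continuous ψ :=
  continuousOn_univ.1 (h.conv.continuousOn isOpen_univ)

theorem slope (h : Scl k ψ m) {ρ t : ℝ} (hρ : m ≤ ρ) (ht : 0 ≤ t) :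
    ψ ρ + k / m * t ≤ ψ (ρ + t) := by
  have hm := h.pos
  rcases eq_or_lt_of_le ht with ht | ht
  · rw [← ht]; simp
  have h0 : (ψ m - ψ 0) / (m - 0) = k / m := by
    rw [h.eq]
    congr 1 <;> ring
  have h2 : k / m ≤ (ψ (ρ + t) - ψ ρ) / (ρ + t - ρ) := by
    rcases eq_or_lt_of_le hρ with hρ | hρ
    · have := h.conv.slope_mono_adjacent (mem_univ 0) (mem_univ (ρ + t)) (y := ρ)
        (by linarith) (by linarith)
      rw [← hρ] at this ⊢
      rwa [h0] at this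
    · have e1 := h.conv.slope_mono_adjacent (mem_univ 0) (mem_univ ρ) (y := m) hm hρ
      have e2 := h.conv.slope_mono_adjacent (mem_univ m) (mem_univ (ρ + t)) (y := ρ)
        hρ (by linarith)
      rw [h0] at e1
      exact e1.trans e2
  rw [show ρ + t - ρ = t by ring, le_div_iff₀ ht] at h2
  linarith

/-- linear lower bound -/
theorem low (h : Scl k ψ m) {ρ : ℝ} (hρ : 0 ≤ ρ) : ψ 0 + k / m * (ρ - m) ≤ ψ ρ := by
  have hm := h.pos
  have hkm : (0 : ℝ) ≤ k / m := by positivity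
  rcases le_total m ρ with h1 | h1
  · have h2 := h.slope le_rfl (by linarith : 0 ≤ ρ - m)
    rw [show m + (ρ - m) = ρ by ring, h.eq] at h2
    have : (0 : ℝ) ≤ k := Nat.cast_nonneg k
    linarith
  · have h2 := h.mono hρ
    have h3 : k / m * (ρ - m) ≤ 0 := mul_nonpos_of_nonneg_of_nonpos hkm (by linarith)
    linarith

/-- the radial density -/
noncomputable def q (k : ℕ) (ψ : ℝ → ℝ) (ρ : ℝ) : ℝ := k * ρ ^ (k - 1) * Real.exp (-ψ ρ)

theorem q_nonneg {ρ : ℝ} (hρ : 0 ≤ ρ) : 0 ≤ q k ψ ρ := by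
  unfold q
  positivity

theorem q_dec (h : Scl k ψ m) {ρ t : ℝ} (hρ : 2 * m ≤ ρ) (ht : 0 ≤ t) :
    q k ψ (ρ + t) ≤ Real.exp (-(k / (2 * m) * t)) * q k ψ ρ := by
  have hm := h.pos
  have hρ0 : 0 < ρ := by linarith
  unfold q
  have h1 : (ρ + t) ^ (k - 1) ≤ ρ ^ (k - 1) * Real.exp (k / (2 * m) * t) := by
    have e1 : ρ + t = ρ * (t / ρ + 1) := by field_simp; ring
    rw [e1, mul_pow]
    refine mul_le_mul_of_nonneg_left ?_ (by positivity)
    have e2 : (t / ρ + 1) ^ (k - 1) ≤ Real.exp (t / ρ) ^ (k - 1) :=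
      pow_le_pow_left₀ (by positivity) (Real.add_one_le_exp _) _
    rw [← Real.exp_nat_mul] at e2
    refine e2.trans (Real.exp_le_exp.2 ?_)
    have e3 : ((k - 1 : ℕ) : ℝ) ≤ k := by exact_mod_cast Nat.sub_le k 1
    calc ((k - 1 : ℕ) : ℝ) * (t / ρ) ≤ k * (t / (2 * m)) := by
          refine mul_le_mul e3 ?_ (by positivity) (by positivity)
          exact div_le_div_of_nonneg_left ht (by positivity) hρ
      _ = k / (2 * m) * t := by ring
  have h2 : Real.exp (-ψ (ρ + t)) ≤ Real.exp (-(k / m * t)) * Real.exp (-ψ ρ) := by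
    rw [← Real.exp_add]
    refine Real.exp_le_exp.2 ?_
    have := h.slope (by linarith : m ≤ ρ) ht
    linarith
  calc (k : ℝ) * (ρ + t) ^ (k - 1) * Real.exp (-ψ (ρ + t))
      ≤ k * (ρ ^ (k - 1) * Real.exp (k / (2 * m) * t)) *
        (Real.exp (-(k / m * t)) * Real.exp (-ψ ρ)) := by
        refine mul_le_mul (mul_le_mul_of_nonneg_left h1 (Nat.cast_nonneg k)) h2
          (Real.exp_pos _).le (by positivity)
    _ = (Real.exp (k / (2 * m) * t) * Real.exp (-(k / m * t))) *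
        (k * ρ ^ (k - 1) * Real.exp (-ψ ρ)) := by ring
    _ = _ := by
        rw [← Real.exp_add]
        congr 2
        field_simp
        ring

theorem q_dec1 (h : Scl k ψ m) {ρ t : ℝ} (hρ : 2 * m ≤ ρ) (ht : 0 ≤ t) :
    q k ψ (ρ + t) ≤ q k ψ ρ := by
  have hm := h.pos
  refine (h.q_dec hρ ht).trans ?_
  have h1 : Real.exp (-(k / (2 * m) * t)) ≤ 1 := by
    rw [Real.exp_le_one_iff]
    have : 0 ≤ (k : ℝ) / (2 * m) * t := by positivity
    linarith
  exact mul_le_of_le_one_left (q_nonneg (by linarith)) h1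

theorem q_dec2 (h : Scl k ψ m) (hk : 1 ≤ k) {ρ : ℝ} (hρ : 2 * m ≤ ρ) :
    7 * q k ψ (ρ + 4 * m / k) ≤ q k ψ ρ := by
  have hm := h.pos
  have hk0 : (0 : ℝ) < k := by exact_mod_cast hk
  have h1 := h.q_dec hρ (t := 4 * m / k) (by positivity)
  have e1 : (k : ℝ) / (2 * m) * (4 * m / k) = 2 := by field_simp; norm_num
  rw [e1] at h1
  have h2 : 7 * Real.exp (-2) ≤ 1 := by
    rw [Real.exp_neg, ← div_eq_mul_inv, div_le_one (Real.exp_pos _)]
    have h3 : Real.exp 2 = Real.exp 1 * Real.exp 1 := by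
      rw [← Real.exp_add]; norm_num
    rw [h3]
    have h4 := Real.exp_one_gt_d9
    nlinarith
  have h3 := q_nonneg (k := k) (ψ := ψ) (by linarith : (0 : ℝ) ≤ ρ)
  nlinarith

end Scl

end Pool.Agent.V5helper78.KO
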