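import Pool.Agent.V5helper78.KO.Bal
import Pool.Agent.N273.KM.CPA
import Pool.Agent.R751.MB.All

/-!
# The radial part
-/

set_option autoImplicit false

namespace Pool.Agent.V5helper78.KO

open MeasureTheory Set Filter Topology Metric
open scoped ENNReal InnerProductSpace
open Pool.Agent.R751.MB (Eu EW VW Adm LCn AP)
open Pool.Agent.N483.KM (PS)

/-- truncated radial profile -/
noncomputable def gR (ψ : ℝ → ℝ) (R ρ : ℝ) : ℝ := if ρ ≤ R then Real.exp (-ψ ρ) else 0

theorem cont_of_convex {ψ : ℝ → ℝ} (hv : ConvexOn ℝ univ ψ) : Continuous ψ :=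
  continuousOn_univ.1 (hv.continuousOn isOpen_univ)

theorem gR_nonneg (ψ : ℝ → ℝ) (R ρ : ℝ) : 0 ≤ gR ψ R ρ := by
  unfold gR
  split_ifs
  · exact (Real.exp_pos _).le
  · exact le_rfl

theorem gR_meas {ψ : ℝ → ℝ} (hc : Continuous ψ) (R : ℝ) : Measurable (gR ψ R) := by
  unfold gR
  exact Measurable.ite measurableSet_Iic (Real.continuous_exp.comp hc.neg).measurable
    measurable_const

theorem gR_anti {ψ : ℝ → ℝ} (hm : Monotone ψ) (R : ℝ) {r s : ℝ} (hrs : r ≤ s) :
    gR ψ R s ≤ gR ψ R r := by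
  unfold gR
  split_ifs with h1 h2
  · exact Real.exp_le_exp.2 (neg_le_neg (hm hrs))
  · exact absurd (hrs.trans h1) h2
  · exact (Real.exp_pos _).le
  · exact le_rfl

theorem wE_eq (k : ℕ) (ψ : ℝ → ℝ) (R : ℝ) : (fun y : Ek k => gR ψ R ‖y‖) =
    (closedBall (0 : Ek k) R).indicator fun y => Real.exp (-ψ ‖y‖) := by
  funext y
  simp only [gR, indicator, mem_closedBall, dist_zero_right]

theorem wE_adm (k : ℕ) {ψ : ℝ → ℝ} (hc : Continuous ψ) {R : ℝ} (hR : 0 < R) :
    Adm (fun y : Ek k => gR ψ R ‖y‖) := by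
  refine ⟨fun x => gR_nonneg _ _ _, ?_, ?_, (gR_meas hc R).comp measurable_norm⟩
  · have h1 : (fun x : Ek k => (1 + ‖x‖ ^ 2) * gR ψ R ‖x‖) =
        (closedBall (0 : Ek k) R).indicator fun y => (1 + ‖y‖ ^ 2) * Real.exp (-ψ ‖y‖) := by
      funext y
      simp only [gR, indicator, mem_closedBall, dist_zero_right]
      split_ifs <;> simp
    rw [h1, integrable_indicator_iff measurableSet_closedBall]
    exact (by fun_prop : Continuous fun y : Ek k =>
      (1 + ‖y‖ ^ 2) * Real.exp (-ψ ‖y‖)).continuousOn.integrableOn_compact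
      (isCompact_closedBall _ _)
  · rw [wE_eq, integral_indicator measurableSet_closedBall]
    have hcont : Continuous fun y : Ek k => Real.exp (-ψ ‖y‖) := by fun_prop
    rw [setIntegral_pos_iff_support_of_nonneg_ae
      (Eventually.of_forall fun x => (Real.exp_pos _).le)
      (hcont.continuousOn.integrableOn_compact (isCompact_closedBall _ _))]
    have h2 : Function.support (fun y : Ek k => Real.exp (-ψ ‖y‖)) = univ := by
      ext y
      simp [(Real.exp_pos _).ne']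
    rw [h2, univ_inter]
    exact (measure_ball_pos volume (0 : Ek k) hR).trans_le (measure_mono ball_subset_closedBall)

theorem wE_lcn (k : ℕ) {ψ : ℝ → ℝ} (hv : ConvexOn ℝ univ ψ) (hm : Monotone ψ) (R : ℝ) :
    LCn (fun y : Ek k => gR ψ R ‖y‖) := by
  intro x y t ht0 ht1
  by_cases hx : ‖x‖ ≤ R
  · by_cases hy : ‖y‖ ≤ R
    · have h1 : ‖(1 - t) • x + t • y‖ ≤ (1 - t) * ‖x‖ + t * ‖y‖ := by
        refine (norm_add_le _ _).trans ?_
        rw [norm_smul, norm_smul, Real.norm_of_nonneg (by linarith : 0 ≤ 1 - t),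
          Real.norm_of_nonneg ht0.le]
      have h2 : ‖(1 - t) • x + t • y‖ ≤ R := by
        refine h1.trans ?_
        nlinarith
      simp only [gR, if_pos hx, if_pos hy, if_pos h2]
      rw [← Real.exp_mul, ← Real.exp_mul, ← Real.exp_add]
      refine Real.exp_le_exp.2 ?_
      have h3 := hv.2 (mem_univ ‖x‖) (mem_univ ‖y‖) (by linarith : 0 ≤ 1 - t) ht0.le (by ring)
      simp only [smul_eq_mul] at h3
      have h4 := hm h1
      linarith
    · simp only [gR, if_neg hy]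
      rw [Real.zero_rpow ht0.ne', mul_zero]
      split_ifs
      · exact (Real.exp_pos _).le
      · exact le_rfl
  · simp only [gR, if_neg hx]
    rw [Real.zero_rpow (by linarith), zero_mul]
    split_ifs
    · exact (Real.exp_pos _).le
    · exact le_rfl

theorem wE_AP : ∃ A : ℝ, 0 < A ∧ ∀ (k : ℕ) (ψ : ℝ → ℝ) (R : ℝ), 1 ≤ k → ConvexOn ℝ univ ψ →
    Monotone ψ → 0 < R → AP A (fun y : Ek k => gR ψ R ‖y‖) := by
  obtain ⟨A, hA, H⟩ := Pool.Agent.R751.MB.pSYM
  refine ⟨A, hA, fun k ψ R hk hv hm hR => H k _ hk (wE_adm k (cont_of_convex hv) hR)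
    (wE_lcn k hv hm R) ?_⟩
  intro σ x y hxy
  have : ‖y‖ = ‖x‖ := by
    rw [EuclideanSpace.norm_eq, EuclideanSpace.norm_eq]
    congr 1
    have h1 : ∀ i, ‖y i‖ ^ 2 = ‖x (σ i)‖ ^ 2 := fun i => by
      rw [Real.norm_eq_abs, Real.norm_eq_abs, hxy]
    simp only [h1]
    exact Equiv.sum_comp σ fun i => ‖x i‖ ^ 2
  simp only [this]

theorem wE_var (k : ℕ) (hk : 1 ≤ k) {ψ : ℝ → ℝ} (hc : Continuous ψ) {R : ℝ} (hR : 0 < R)
    (θ : Ek k) : VW (fun y : Ek k => gR ψ R ‖y‖) (fun x => ⟪x, θ⟫_ℝ) ≤ R ^ 2 / k * ‖θ‖ ^ 2 := by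
  have hadm := wE_adm k hc hR
  set w : Ek k → ℝ := fun y => gR ψ R ‖y‖ with hw
  have hk0 : (0 : ℝ) < k := by exact_mod_cast hk
  have hZ := hadm.pos
  set Q : Ek k → ℝ := fun u => ∫ x, ⟪x, u⟫_ℝ ^ 2 * w x with hQ
  have hint : ∀ u : Ek k, Integrable fun x => ⟪x, u⟫_ℝ ^ 2 * w x := by
    intro u
    refine Integrable.mono' (hadm.int.const_mul (‖u‖ ^ 2))
      ((by fun_prop : Continuous fun x : Ek k => ⟪x, u⟫_ℝ ^ 2).measurable.mul
        hadm.meas).aestronglyMeasurable (Eventually.of_forall fun x => ?_)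
    have h0 := hadm.nonneg x
    rw [Real.norm_of_nonneg (by positivity)]
    have h1 : ⟪x, u⟫_ℝ ^ 2 ≤ (‖x‖ * ‖u‖) ^ 2 := by
      rw [← sq_abs]
      exact pow_le_pow_left₀ (abs_nonneg _) (abs_real_inner_le_norm x u) 2
    calc ⟪x, u⟫_ℝ ^ 2 * w x ≤ (‖x‖ * ‖u‖) ^ 2 * w x := mul_le_mul_of_nonneg_right h1 h0
      _ ≤ ‖u‖ ^ 2 * ((1 + ‖x‖ ^ 2) * w x) := by
        have : 0 ≤ ‖u‖ ^ 2 * w x := by positivity
        nlinarith
  have hiso : ∀ u v : Ek k, ‖u‖ = ‖v‖ → Q u = Q v := by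
    intro u v huv
    have h1 := Submodule.reflection_sub (F := Ek k) huv
    set g := Submodule.reflection (ℝ ∙ (u - v))ᗮ with hg
    have h2 := (g.measurePreserving).integral_comp' (f := g.toMeasurableEquiv)
      (fun x => ⟪x, v⟫_ℝ ^ 2 * w x)
    rw [hQ]
    simp only
    rw [← h2]
    refine integral_congr_ae (Eventually.of_forall fun x => ?_)
    simp only [LinearIsometryEquiv.coe_toMeasurableEquiv]
    rw [← h1, g.inner_map_map]
    simp only [hw, g.norm_map]
  have hsum : ∑ i, Q (EuclideanSpace.basisFun (Fin k) ℝ i) = ∫ x, ‖x‖ ^ 2 * w x := by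
    rw [hQ]
    simp only
    rw [← integral_finsetSum _ fun i _ => hint _]
    refine integral_congr_ae (Eventually.of_forall fun x => ?_)
    simp only
    rw [← Finset.sum_mul]
    congr 1
    rw [EuclideanSpace.norm_sq_eq]
    refine Finset.sum_congr rfl fun i _ => ?_
    rw [EuclideanSpace.basisFun_apply, EuclideanSpace.inner_single_right]
    simp
  have hle : ∫ x, ‖x‖ ^ 2 * w x ≤ R ^ 2 * ∫ x, w x := by
    rw [← integral_const_mul]
    refine integral_mono_of_nonneg (Eventually.of_forall fun x => mul_nonneg (sq_nonneg _)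
      (hadm.nonneg x)) ?_ (Eventually.of_forall fun x => ?_)
    · have h1 : Integrable w := by
        refine Integrable.mono' hadm.int hadm.meas.aestronglyMeasurable
          (Eventually.of_forall fun x => ?_)
        have h0 := hadm.nonneg x
        rw [Real.norm_of_nonneg h0]
        nlinarith [mul_nonneg (sq_nonneg ‖x‖) h0]
      exact h1.const_mul _
    · simp only [hw, gR]
      split_ifs with h1
      · refine mul_le_mul_of_nonneg_right ?_ (Real.exp_pos _).le
        exact pow_le_pow_left₀ (norm_nonneg _) h1 2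
      · simp
  have hQθ : (k : ℝ) * Q θ = ‖θ‖ ^ 2 * ∫ x, ‖x‖ ^ 2 * w x := by
    rw [← hsum, Finset.mul_sum]
    have h1 : ∀ i, ‖θ‖ ^ 2 * Q (EuclideanSpace.basisFun (Fin k) ℝ i) = Q θ := by
      intro i
      have h2 : Q θ = Q (‖θ‖ • EuclideanSpace.basisFun (Fin k) ℝ i) := by
        refine hiso _ _ ?_
        rw [norm_smul, norm_norm, (EuclideanSpace.basisFun (Fin k) ℝ).norm_eq_one, mul_one]
      rw [h2, hQ]
      simp only
      rw [← integral_const_mul]
      refine integral_congr_ae (Eventually.of_forall fun x => ?_)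
      simp only [inner_smul_right]
      ring
    rw [Finset.sum_congr rfl fun i _ => h1 i]
    simp
  have h3 : VW w (fun x => ⟪x, θ⟫_ℝ) ≤ EW w (fun x => ⟪x, θ⟫_ℝ ^ 2) := by
    unfold VW
    have := sq_nonneg (EW w fun x => ⟪x, θ⟫_ℝ)
    linarith
  refine h3.trans ?_
  unfold EW
  rw [div_le_iff₀ hZ]
  change Q θ ≤ _
  have h4 : Q θ = ‖θ‖ ^ 2 * (∫ x, ‖x‖ ^ 2 * w x) / k := by
    rw [← hQθ]
    field_simp
  rw [h4, div_le_iff₀ hk0]
  calc ‖θ‖ ^ 2 * ∫ x, ‖x‖ ^ 2 * w x ≤ ‖θ‖ ^ 2 * (R ^ 2 * ∫ x, w x) :=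
        mul_le_mul_of_nonneg_left hle (sq_nonneg _)
    _ = _ := by field_simp

end Pool.Agent.V5helper78.KO
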