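import Pool.Agent.V5helper78.KO.Pol

/-!
# One-dimensional inequality for the tail
-/

set_option autoImplicit false

namespace Pool.Agent.V5helper78.KO

open MeasureTheory Set Filter Topology Metric
open scoped ENNReal InnerProductSpace

theorem cs_int {v : ℝ → ℝ} (hv : Continuous v) {l : ℝ} (hl : 0 < l) :
    (∫ s in (0 : ℝ)..l, v s) ^ 2 ≤ l * ∫ s in (0 : ℝ)..l, v s ^ 2 := by
  set c := (∫ s in (0 : ℝ)..l, v s) / l with hc
  have h1 : 0 ≤ ∫ s in (0 : ℝ)..l, (v s - c) ^ 2 :=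
    intervalIntegral.integral_nonneg hl.le fun s _ => sq_nonneg _
  have h2 : ∫ s in (0 : ℝ)..l, (v s - c) ^ 2 =
      (∫ s in (0 : ℝ)..l, v s ^ 2) - 2 * c * (∫ s in (0 : ℝ)..l, v s) + c ^ 2 * l := by
    have e : (fun s => (v s - c) ^ 2) = fun s => v s ^ 2 - 2 * c * v s + c ^ 2 := by
      funext s; ring
    rw [e, intervalIntegral.integral_add, intervalIntegral.integral_sub,
      intervalIntegral.integral_const_mul, intervalIntegral.integral_const, smul_eq_mul, sub_zero]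
    · ring
    all_goals exact Continuous.intervalIntegrable (by fun_prop) _ _
  have h3 : (∫ s in (0 : ℝ)..l, v s) = c * l := by
    rw [hc]; field_simp
  rw [h2, h3] at h1
  rw [h3]
  nlinarith

theorem pt_ineq {u : ℝ → ℝ} (hu : ContDiff ℝ 1 u) {l : ℝ} (hl : 0 < l) (ρ : ℝ) :
    u (ρ + l) ^ 2 ≤ 2 * u ρ ^ 2 + 2 * l * ∫ s in (0 : ℝ)..l, deriv u (ρ + s) ^ 2 := by
  have hd : Continuous (deriv u) := hu.continuous_deriv le_rfl
  have h1 : ∫ s in (0 : ℝ)..l, deriv u (ρ + s) = u (ρ + l) - u ρ := by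
    have h2 : ∀ s : ℝ, HasDerivAt (fun s => u (ρ + s)) (deriv u (ρ + s)) s := by
      intro s
      have h3 := (hu.differentiable one_ne_zero (ρ + s)).hasDerivAt
      have h4 := h3.comp_const_add ρ s
      exact h4
    rw [intervalIntegral.integral_eq_sub_of_hasDerivAt (fun s _ => h2 s)
      (Continuous.intervalIntegrable (by fun_prop) _ _), add_zero]
  have h2 := cs_int (v := fun s => deriv u (ρ + s)) (by fun_prop) hl
  rw [h1] at h2
  nlinarith [sq_nonneg (u (ρ + l) - 2 * u ρ)]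

theorem lint_shift (a l : ℝ) (G : ℝ → ℝ≥0∞) :
    ∫⁻ ρ in Ioi (a + l), G ρ = ∫⁻ ρ in Ioi a, G (ρ + l) := by
  rw [← lintegral_indicator measurableSet_Ioi, ← lintegral_indicator measurableSet_Ioi,
    ← lintegral_add_right_eq_self _ l]
  refine lintegral_congr fun ρ => ?_
  simp only [indicator, mem_Ioi, add_lt_add_iff_right]

theorem tail_ineq {q : ℝ → ℝ} (hqm : Measurable q) {a l : ℝ} (hl : 0 < l)
    (hq0 : ∀ ρ, a ≤ ρ → 0 ≤ q ρ)
    (hdec : ∀ ρ t, a ≤ ρ → 0 ≤ t → q (ρ + t) ≤ q ρ)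
    (hdec2 : ∀ ρ, a ≤ ρ → 7 * q (ρ + l) ≤ q ρ) {u : ℝ → ℝ} (hu : ContDiff ℝ 1 u)
    (hfin : ∫⁻ ρ in Ioi (a + l), ENNReal.ofReal (u ρ ^ 2) * ENNReal.ofReal (q ρ) ≠ ⊤) :
    5 * ∫⁻ ρ in Ioi (a + l), ENNReal.ofReal (u ρ ^ 2) * ENNReal.ofReal (q ρ) ≤
      2 * (∫⁻ ρ in Ioc a (a + l), ENNReal.ofReal (u ρ ^ 2) * ENNReal.ofReal (q ρ)) +
        ENNReal.ofReal (14 * l ^ 2) *
          ∫⁻ ρ in Ioi a, ENNReal.ofReal (deriv u ρ ^ 2) * ENNReal.ofReal (q ρ) := by
  have hd : Continuous (deriv u) := hu.continuous_deriv le_rfl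
  have huc := hu.continuous
  set G : ℝ → ℝ≥0∞ := fun ρ => ENNReal.ofReal (u ρ ^ 2) * ENNReal.ofReal (q ρ) with hG
  set H : ℝ → ℝ≥0∞ := fun ρ => ENNReal.ofReal (deriv u ρ ^ 2) * ENNReal.ofReal (q ρ) with hH
  have hGm : Measurable G := by fun_prop
  have hHm : Measurable H := by fun_prop
  set X := ∫⁻ ρ in Ioi (a + l), G ρ with hX
  set Y := ∫⁻ ρ in Ioc a (a + l), G ρ with hY
  set W := ∫⁻ ρ in Ioi a, H ρ with hW
  have hpt : ∀ ρ ∈ Ioi a, 7 * G (ρ + l) ≤
      2 * G ρ + ENNReal.ofReal (14 * l) * ∫⁻ s in Ioc 0 l, H (ρ + s) := by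
    intro ρ hρ
    have hρa : a < ρ := hρ
    have h1 := pt_ineq hu hl ρ
    have h2 := hdec2 ρ hρa.le
    have h3 : 0 ≤ q (ρ + l) := hq0 _ (by linarith)
    have h4 : 7 * (u (ρ + l) ^ 2 * q (ρ + l)) ≤ 2 * (u ρ ^ 2 * q ρ) +
        14 * l * ((∫ s in (0 : ℝ)..l, deriv u (ρ + s) ^ 2) * q (ρ + l)) := by
      have h5 := mul_le_mul_of_nonneg_right h1 h3
      have h6 := mul_le_mul_of_nonneg_left h2 (by positivity : 0 ≤ 2 * u ρ ^ 2)
      nlinarith
    have e1 : 7 * G (ρ + l) = ENNReal.ofReal (7 * (u (ρ + l) ^ 2 * q (ρ + l))) := by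
      rw [hG]
      simp only
      rw [ENNReal.ofReal_mul (by norm_num : (0 : ℝ) ≤ 7), ENNReal.ofReal_mul (sq_nonneg _)]
      norm_num
    have e2 : 2 * G ρ = ENNReal.ofReal (2 * (u ρ ^ 2 * q ρ)) := by
      rw [hG]
      simp only
      rw [ENNReal.ofReal_mul (by norm_num : (0 : ℝ) ≤ 2), ENNReal.ofReal_mul (sq_nonneg _)]
      norm_num
    have e3 : ENNReal.ofReal ((∫ s in (0 : ℝ)..l, deriv u (ρ + s) ^ 2) * q (ρ + l)) ≤
        ∫⁻ s in Ioc 0 l, H (ρ + s) := by
      rw [ENNReal.ofReal_mul (intervalIntegral.integral_nonneg hl.le fun s _ => sq_nonneg _),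
        intervalIntegral.integral_of_le hl.le, ofReal_integral_eq_lintegral_ofReal
          (Continuous.integrableOn_Ioc (by fun_prop)) (Eventually.of_forall fun s => sq_nonneg _),
        ← lintegral_mul_const _ (by fun_prop)]
      refine setLIntegral_mono' measurableSet_Ioc fun s hs => ?_
      rw [hH]
      simp only
      refine mul_le_mul_right (ENNReal.ofReal_le_ofReal ?_) _
      have := hdec (ρ + s) (l - s) (by linarith [hs.1]) (by linarith [hs.2])
      rwa [show ρ + s + (l - s) = ρ + l by ring] at this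
    rw [e1, e2]
    refine (ENNReal.ofReal_le_ofReal h4).trans ?_
    rw [ENNReal.ofReal_add (by have := hq0 ρ hρa.le; positivity) (by
      have : 0 ≤ ∫ s in (0 : ℝ)..l, deriv u (ρ + s) ^ 2 :=
        intervalIntegral.integral_nonneg hl.le fun s _ => sq_nonneg _
      positivity)]
    refine add_le_add_right ?_ _
    rw [ENNReal.ofReal_mul (by positivity)]
    exact mul_le_mul_right e3 _
  have hXs : X = ∫⁻ ρ in Ioi a, G (ρ + l) := lint_shift a l G
  have h1 : 7 * X ≤ 2 * (Y + X) + ENNReal.ofReal (14 * l ^ 2) * W := by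
    rw [hXs, ← lintegral_const_mul _ (by fun_prop)]
    refine (setLIntegral_mono' measurableSet_Ioi hpt).trans ?_
    rw [lintegral_add_left (by fun_prop), lintegral_const_mul _ hGm]
    refine add_le_add (mul_le_mul_right ?_ _) ?_
    · have : Ioi a = Ioc a (a + l) ∪ Ioi (a + l) := (Ioc_union_Ioi_eq_Ioi (by linarith)).symm
      rw [← hXs, this]
      exact lintegral_union_le _ _ _
    · have hmm : Measurable fun p : ℝ × ℝ => H (p.1 + p.2) := by fun_prop
      rw [lintegral_const_mul _ (Measurable.lintegral_prod_right' (ν := volume.restrict (Ioc 0 l))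
        (f := fun p : ℝ × ℝ => H (p.1 + p.2)) hmm),
        lintegral_lintegral_swap hmm.aemeasurable]
      have h5 : ∀ s ∈ Ioc (0 : ℝ) l, ∫⁻ ρ in Ioi a, H (ρ + s) ≤ W := by
        intro s hs
        rw [← lint_shift a s H]
        exact lintegral_mono_set (Ioi_subset_Ioi (by linarith [hs.1]))
      calc ENNReal.ofReal (14 * l) * ∫⁻ s in Ioc 0 l, ∫⁻ ρ in Ioi a, H (ρ + s)
          ≤ ENNReal.ofReal (14 * l) * ∫⁻ s in Ioc 0 l, W :=
            mul_le_mul_right (setLIntegral_mono' measurableSet_Ioc h5) _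
        _ = _ := by
            rw [setLIntegral_const, Real.volume_Ioc, sub_zero, mul_comm W, ← mul_assoc,
              ← ENNReal.ofReal_mul (by positivity)]
            congr 2
            ring
  have h2 : 5 * X + 2 * X ≤ (2 * Y + ENNReal.ofReal (14 * l ^ 2) * W) + 2 * X := by
    calc 5 * X + 2 * X = 7 * X := by ring
      _ ≤ _ := h1
      _ = _ := by ring
  exact (ENNReal.add_le_add_iff_right (by
    exact ENNReal.mul_ne_top (by norm_num) hfin)).1 h2

end Pool.Agent.V5helper78.KO
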